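import Pool.Agent.Work.MP_4d52ff_nt.R.Defs

/-!
MODULE EvenZ (size S).  Single zeta values.

PROOF.  `zetaL_tsum`: `mzv_eq` with `d = 1`, or directly from `tendsto_H` and `H_single`
(`H [a] N = ∑ n ∈ range N, (n^a)⁻¹`, see `H_single` and the proof of `zetaL_two` in MZV.lean) together with
`Real.summable_nat_pow_inv` / `Summable.hasSum.tendsto_sum_nat` and a shift by one (the term n = 0 is 0).
`zetaL_even`: Mathlib `hasSum_zeta_nat`.
-/

set_option autoImplicit false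

namespace Pool.Agent.Work.MP_4d52ff_nt.R

open Filter Topology

private theorem zetaL_nat (a : ℕ) (h2 : 2 ≤ a) : zetaL [a] = ∑' n : ℕ, ((n : ℝ) ^ a)⁻¹ := by
  have hA : Adm [a] := by rw [Adm_cons]; exact ⟨h2, by simp⟩
  have h1 := tendsto_H _ hA
  have hs : Summable (fun n : ℕ => ((n : ℝ) ^ a)⁻¹) := Real.summable_nat_pow_inv.2 (by omega)
  have h2 := hs.hasSum.tendsto_sum_nat
  exact tendsto_nhds_unique h1 (h2.congr (fun N => (H_single a N).symm))

theorem summable_inv (a : ℕ) (h2 : 2 ≤ a) : Summable (fun n : ℕ => (((n : ℝ) + 1) ^ a)⁻¹) := by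
  have hs : Summable (fun n : ℕ => ((n : ℝ) ^ a)⁻¹) := Real.summable_nat_pow_inv.2 (by omega)
  have := (summable_nat_add_iff 1).2 hs
  simpa using this

theorem zetaL_tsum (a : ℕ) (h2 : 2 ≤ a) : zetaL [a] = ∑' n : ℕ, (((n : ℝ) + 1) ^ a)⁻¹ := by
  have hs : Summable (fun n : ℕ => ((n : ℝ) ^ a)⁻¹) := Real.summable_nat_pow_inv.2 (by omega)
  rw [zetaL_nat a h2, hs.tsum_eq_zero_add]
  have h0 : a ≠ 0 := by omega
  simp [h0]

theorem zetaL_even (a : ℕ) (ha : Even a) (h2 : 2 ≤ a) :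
    ∃ r : ℚ, zetaL [a] = (r : ℝ) * Real.pi ^ a := by
  obtain ⟨k, hk⟩ := ha
  have hk0 : k ≠ 0 := by omega
  have h := (hasSum_zeta_nat hk0).tsum_eq
  have e : a = 2 * k := by omega
  refine ⟨(-1) ^ (k + 1) * 2 ^ (2 * k - 1) * bernoulli (2 * k) / (2 * k).factorial, ?_⟩
  rw [zetaL_nat a h2, e]
  have h' : ∑' n : ℕ, ((n : ℝ) ^ (2 * k))⁻¹ = ∑' n : ℕ, 1 / (n : ℝ) ^ (2 * k) := by simp
  rw [h', h]
  push_cast
  ring

/-- strict log-convexity (only used for the cross ratios) -/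
theorem zetaL_cross (a b c d : ℕ) (ha : 2 ≤ a) (hc : 2 ≤ c) (hac : a < b) (hcd : c < d) :
    zetaL [a + d] * zetaL [b + c] < zetaL [a + c] * zetaL [b + d] := by
  rw [zetaL_tsum (a + d) (by omega), zetaL_tsum (b + c) (by omega), zetaL_tsum (a + c) (by omega),
    zetaL_tsum (b + d) (by omega)]
  have s1 := summable_inv (b + d) (by omega)
  have s2 := summable_inv (a + d) (by omega)
  have s3 := summable_inv (b + c) (by omega)
  have s4 := summable_inv (a + c) (by omega)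
  have pos : ∀ s : ℕ, 2 ≤ s → 0 < ∑' n : ℕ, (((n : ℝ) + 1) ^ s)⁻¹ := by
    intro s hs
    refine (summable_inv s hs).tsum_pos (fun n => by positivity) 0 (by positivity)
  set F1 := ∑' n : ℕ, (((n : ℝ) + 1) ^ (b + d))⁻¹ with hF1
  set F2 := ∑' n : ℕ, (((n : ℝ) + 1) ^ (a + d))⁻¹ with hF2
  set F3 := ∑' n : ℕ, (((n : ℝ) + 1) ^ (b + c))⁻¹ with hF3
  set F4 := ∑' n : ℕ, (((n : ℝ) + 1) ^ (a + c))⁻¹ with hF4
  have p3 : 0 < F3 := pos _ (by omega)
  have p4 : 0 < F4 := pos _ (by omega)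
  obtain ⟨p, rfl⟩ : ∃ p, b = a + p := ⟨b - a, by omega⟩
  obtain ⟨q, rfl⟩ : ∃ q, d = c + q := ⟨d - c, by omega⟩
  have hp : p ≠ 0 := by omega
  have hq : q ≠ 0 := by omega
  set A := F3 / F4 with hA
  have hA0 : 0 < A := div_pos p3 p4
  obtain ⟨t, ht0, ht⟩ : ∃ t : ℝ, 0 < t ∧ t ^ p = A :=
    ⟨A ^ ((p : ℝ)⁻¹), Real.rpow_pos_of_pos hA0 _, Real.rpow_inv_natCast_pow hA0.le hp⟩
  have key := ((s1.hasSum.sub (s2.hasSum.mul_left A)).sub (s3.hasSum.mul_left (t ^ q))).add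
    (s4.hasSum.mul_left (A * t ^ q))
  have hterm : ∀ n : ℕ, ((((n : ℝ) + 1) ^ (a + p + (c + q)))⁻¹ - A * (((n : ℝ) + 1) ^ (a + (c + q)))⁻¹ -
      t ^ q * (((n : ℝ) + 1) ^ (a + p + c))⁻¹ + A * t ^ q * (((n : ℝ) + 1) ^ (a + c))⁻¹) =
      (((n : ℝ) + 1) ^ (a + c))⁻¹ * (((((n : ℝ) + 1)⁻¹) ^ p - t ^ p) * ((((n : ℝ) + 1)⁻¹) ^ q - t ^ q)) := by
    intro n
    rw [← ht]
    simp only [← inv_pow]
    ring
  have nonneg : ∀ x : ℝ, 0 < x → 0 ≤ (x ^ p - t ^ p) * (x ^ q - t ^ q) := by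
    intro x hx
    rcases le_total x t with h | h
    · exact mul_nonneg_of_nonpos_of_nonpos (sub_nonpos.2 (pow_le_pow_left₀ hx.le h _))
        (sub_nonpos.2 (pow_le_pow_left₀ hx.le h _))
    · exact mul_nonneg (sub_nonneg.2 (pow_le_pow_left₀ ht0.le h _))
        (sub_nonneg.2 (pow_le_pow_left₀ ht0.le h _))
  have strict : ∀ x : ℝ, 0 < x → x ≠ t → 0 < (x ^ p - t ^ p) * (x ^ q - t ^ q) := by
    intro x hx hne
    rcases lt_or_gt_of_ne hne with h | h
    · exact mul_pos_of_neg_of_neg (sub_neg.2 (pow_lt_pow_left₀ h hx.le hp))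
        (sub_neg.2 (pow_lt_pow_left₀ h hx.le hq))
    · exact mul_pos (sub_pos.2 (pow_lt_pow_left₀ h ht0.le hp))
        (sub_pos.2 (pow_lt_pow_left₀ h ht0.le hq))
  simp only [hterm] at key
  have hpos : 0 < F1 - A * F2 - t ^ q * F3 + A * t ^ q * F4 := by
    rw [← key.tsum_eq]
    by_cases h1 : (1 : ℝ) = t
    · refine key.summable.tsum_pos (fun n => ?_) 1 ?_
      · exact mul_nonneg (by positivity) (nonneg _ (by positivity))
      · refine mul_pos (by positivity) (strict _ (by positivity) ?_)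
        rw [← h1]; norm_num
    · refine key.summable.tsum_pos (fun n => ?_) 0 ?_
      · exact mul_nonneg (by positivity) (nonneg _ (by positivity))
      · refine mul_pos (by positivity) (strict _ (by positivity) ?_)
        intro h; apply h1; rw [← h]; norm_num
  have hAF : A * F4 = F3 := by rw [hA]; field_simp
  have h5 : A * t ^ q * F4 = t ^ q * F3 := by rw [← hAF]; ring
  have h6 : A * F2 < F1 := by linarith
  calc F2 * F3 = (A * F2) * F4 := by rw [← hAF]; ring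
    _ < F1 * F4 := mul_lt_mul_of_pos_right h6 p4
    _ = F4 * F1 := mul_comm _ _

end Pool.Agent.Work.MP_4d52ff_nt.R
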