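import Pool.Agent.Work.MP_4d52ff_nt.R.Defs

/-!
MODULE Val (size M).  Valuations of the complex numbers.

PROOF of `exists_val`.  Let `K = algebraicClosure ℚ ℂ`, `x = pi⁻¹`; `x` is transcendental over `K`
(`transcendental_pi_bar` in DichotomyBar.lean).  Let `A` be the subring `(Algebra.adjoin K {x}).toSubring` of `ℂ`
and `I = (x)`.  `I ≠ ⊤`: otherwise `x * p(x) = 1` for a polynomial `p` over `K` (`Algebra.adjoin_singleton_eq_range_aeval`),
so `X * p - 1` is a nonzero polynomial (value -1 at 0) with root `x`.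
`Ideal.image_subset_nonunits_valuationSubring` gives a valuation subring `B ≥ A` of `ℂ` with `x ∈ B.nonunits`.
Take `v = B.valuation`, `Γ = B.ValueGroup`.  Elements of `K` and their inverses lie in `A ≤ B`, so `v a ≤ 1` and
`v a⁻¹ ≤ 1`, so `v a = 1`.  `v x < 1` (`ValuationSubring.mem_nonunits_iff`), so `1 < v pi`.

PROOF of `vals_finite`.  Finitely many elements `y_i` of `Y` which are nonzero and have distinct valuations are
linearly independent over `K`: in a relation `∑ a_i y_i = 0` the nonzero terms have `v (a_i y_i) = v y_i`, all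
different, contradiction to `sum_ne`.  So a finite subset of `vals v Y` has at most `finrank Y` elements.

PROOF of `sum_ne`.  Take `i` with `t i ≠ 0` of maximal valuation; all other terms have smaller valuation;
`Valuation.map_sum_lt` and `Valuation.map_add_eq_of_lt_left`.

PROOF of `bad_finite`.  For given `u, w` there is at most one `e` since `v pi > 1` (`zpow` is injective:
`zpow_right_injective₀` or strict monotonicity).
-/

set_option autoImplicit false

namespace Pool.Agent.Work.MP_4d52ff_nt.R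

theorem exists_val : ∃ (Γ : Type) (_ : LinearOrderedCommGroupWithZero Γ) (v : Valuation ℂ Γ),
    (∀ a : algebraicClosure ℚ ℂ, a ≠ 0 → v (a : ℂ) = 1) ∧ 1 < v (Real.pi : ℂ) := by
  have hpi0 : (Real.pi : ℂ) ≠ 0 := by exact_mod_cast Real.pi_ne_zero
  obtain ⟨x, hx⟩ : ∃ x : ℂ, x = (Real.pi : ℂ)⁻¹ := ⟨_, rfl⟩
  have hx0 : x ≠ 0 := by
    rw [hx]
    exact inv_ne_zero hpi0
  have htr : Transcendental (algebraicClosure ℚ ℂ) x := by
    intro h
    apply transcendental_pi_bar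
    have h1 := h.inv
    rwa [hx, inv_inv] at h1
  obtain ⟨A, hA⟩ : ∃ A : Subring ℂ, A = (Algebra.adjoin (algebraicClosure ℚ ℂ) {x}).toSubring :=
    ⟨_, rfl⟩
  have hmem : ∀ y : ℂ, y ∈ A ↔ y ∈ Algebra.adjoin (algebraicClosure ℚ ℂ) {x} := fun y => by
    rw [hA]
    exact Iff.rfl
  have hxA : x ∈ A := (hmem x).2 (Algebra.subset_adjoin (Set.mem_singleton x))
  have hKA : ∀ a : algebraicClosure ℚ ℂ, (a : ℂ) ∈ A := fun a =>
    (hmem _).2 (Subalgebra.algebraMap_mem _ a)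
  have hI : Ideal.span {(⟨x, hxA⟩ : A)} ≠ ⊤ := by
    intro h
    rw [Ideal.span_singleton_eq_top] at h
    obtain ⟨b, hb⟩ := isUnit_iff_exists_inv.1 h
    have hb' : x * (b : ℂ) = 1 := congrArg Subtype.val hb
    have hbm := (hmem b).1 b.2
    rw [Algebra.adjoin_singleton_eq_range_aeval] at hbm
    obtain ⟨p, hp⟩ := hbm
    have hp' : Polynomial.aeval x p = (b : ℂ) := hp
    apply htr
    refine ⟨Polynomial.X * p - 1, ?_, ?_⟩
    · intro h0
      have h1 := congrArg (Polynomial.eval 0) h0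
      simp at h1
    · rw [map_sub, map_mul, Polynomial.aeval_X, map_one, hp', hb', sub_self]
  obtain ⟨B, hAB, hIB⟩ := Ideal.image_subset_nonunits_valuationSubring
    (Ideal.span {(⟨x, hxA⟩ : A)}) hI
  have hxB : x ∈ B.nonunits := hIB ⟨⟨x, hxA⟩, Ideal.subset_span rfl, rfl⟩
  rw [ValuationSubring.mem_nonunits_iff] at hxB
  refine ⟨B.ValueGroup, inferInstance, B.valuation, ?_, ?_⟩
  · intro a ha
    have ha' : (a : ℂ) ≠ 0 := by
      intro h
      exact ha (Subtype.ext h)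
    have h1 : B.valuation (a : ℂ) ≤ 1 := (B.valuation_le_one_iff _).2 (hAB (hKA a))
    have h2 : B.valuation ((a⁻¹ : algebraicClosure ℚ ℂ) : ℂ) ≤ 1 :=
      (B.valuation_le_one_iff _).2 (hAB (hKA a⁻¹))
    have h3 : ((a⁻¹ : algebraicClosure ℚ ℂ) : ℂ) = (a : ℂ)⁻¹ := rfl
    rw [h3, map_inv₀] at h2
    have h4 : B.valuation (a : ℂ) ≠ 0 := (Valuation.ne_zero_iff _).2 ha'
    apply le_antisymm h1
    rwa [inv_le_one₀ (zero_lt_iff.2 h4)] at h2
  · rw [hx, map_inv₀] at hxB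
    have h4 : B.valuation (Real.pi : ℂ) ≠ 0 := (Valuation.ne_zero_iff _).2 hpi0
    rwa [inv_lt_one₀ (zero_lt_iff.2 h4)] at hxB

variable {Γ : Type} [LinearOrderedCommGroupWithZero Γ]

/-- the set of valuations of the nonzero elements of `Y` -/
def vals (v : Valuation ℂ Γ) (Y : Submodule (algebraicClosure ℚ ℂ) ℂ) : Set Γ :=
  {g | ∃ y ∈ Y, y ≠ 0 ∧ v y = g}

theorem sum_ne (v : Valuation ℂ Γ) {ι : Type} (I : Finset ι) (t : ι → ℂ) (hne : ∃ i ∈ I, t i ≠ 0)
    (hd : ∀ i ∈ I, ∀ j ∈ I, i ≠ j → t i ≠ 0 → t j ≠ 0 → v (t i) ≠ v (t j)) :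
    ∑ i ∈ I, t i ≠ 0 ∧ ∃ i ∈ I, t i ≠ 0 ∧ v (∑ i ∈ I, t i) = v (t i) := by
  classical
  obtain ⟨j, hj, hj0⟩ := hne
  obtain ⟨i, hi, hmax⟩ := Finset.exists_max_image (I.filter (fun i => t i ≠ 0)) (fun i => v (t i))
    ⟨j, Finset.mem_filter.2 ⟨hj, hj0⟩⟩
  obtain ⟨hiI, hi0⟩ := Finset.mem_filter.1 hi
  have hvi : v (t i) ≠ 0 := (Valuation.ne_zero_iff _).2 hi0
  have h1 : v (∑ k ∈ I.erase i, t k) < v (t i) := by
    apply Valuation.map_sum_lt v hvi
    intro k hk
    obtain ⟨hki, hkI⟩ := Finset.mem_erase.1 hk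
    by_cases hk0 : t k = 0
    · rw [hk0, map_zero]
      exact zero_lt_iff.2 hvi
    · exact lt_of_le_of_ne (hmax k (Finset.mem_filter.2 ⟨hkI, hk0⟩)) (hd k hkI i hiI hki hk0 hi0)
  have h2 : v (∑ k ∈ I, t k) = v (t i) := by
    rw [← Finset.add_sum_erase I t hiI]
    exact Valuation.map_add_eq_of_lt_left v h1
  refine ⟨?_, i, hiI, hi0, h2⟩
  intro h0
  rw [h0, map_zero] at h2
  exact hvi h2.symm

private theorem vals_card (v : Valuation ℂ Γ)
    (hv : ∀ a : algebraicClosure ℚ ℂ, a ≠ 0 → v (a : ℂ) = 1)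
    (Y : Submodule (algebraicClosure ℚ ℂ) ℂ) [Module.Finite (algebraicClosure ℚ ℂ) Y]
    (F : Finset Γ) (hF : ∀ g ∈ F, g ∈ vals v Y) :
    F.card ≤ Module.finrank (algebraicClosure ℚ ℂ) Y := by
  classical
  have h1 : ∀ g : F, ∃ y : Y, (y : ℂ) ≠ 0 ∧ v (y : ℂ) = (g : Γ) := by
    intro g
    obtain ⟨y, hy, hy0, hyv⟩ := hF g g.2
    exact ⟨⟨y, hy⟩, hy0, hyv⟩
  choose y hy0 hyv using h1
  have hli : LinearIndependent (algebraicClosure ℚ ℂ) y := by
    rw [linearIndependent_iff']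
    intro s c hc
    by_contra hno
    push Not at hno
    obtain ⟨g0, hg0, hc0⟩ := hno
    have h2 : ∑ g ∈ s, ((c g : ℂ) * (y g : ℂ)) = 0 := by
      have h3 := congrArg (Submodule.subtype Y) hc
      rw [map_sum, map_zero] at h3
      rw [← h3]
      refine Finset.sum_congr rfl fun g _ => ?_
      rw [map_smul]
      rfl
    have hval : ∀ g, (c g : ℂ) * (y g : ℂ) ≠ 0 → v ((c g : ℂ) * (y g : ℂ)) = (g : Γ) := by
      intro g hg
      have h4 : c g ≠ 0 := by
        intro h5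
        apply hg
        rw [h5]
        simp
      rw [map_mul, hv _ h4, one_mul, hyv]
    refine (sum_ne v s (fun g => (c g : ℂ) * (y g : ℂ)) ⟨g0, hg0, ?_⟩ ?_).1 h2
    · refine mul_ne_zero ?_ (hy0 g0)
      intro h5
      exact hc0 (Subtype.ext h5)
    · intro g _ g' _ hgg h5 h6 h7
      rw [hval g h5, hval g' h6] at h7
      exact hgg (Subtype.ext h7)
  have h3 := hli.fintype_card_le_finrank
  rwa [Fintype.card_coe] at h3

theorem vals_finite (v : Valuation ℂ Γ)
    (hv : ∀ a : algebraicClosure ℚ ℂ, a ≠ 0 → v (a : ℂ) = 1)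
    (Y : Submodule (algebraicClosure ℚ ℂ) ℂ) [Module.Finite (algebraicClosure ℚ ℂ) Y] :
    (vals v Y).Finite ∧ (vals v Y).ncard ≤ Module.finrank (algebraicClosure ℚ ℂ) Y := by
  have hfin : (vals v Y).Finite := by
    by_contra hinf
    obtain ⟨F, hF, hc⟩ := Set.Infinite.exists_subset_card_eq hinf
      (Module.finrank (algebraicClosure ℚ ℂ) Y + 1)
    have := vals_card v hv Y F (fun g hg => hF hg)
    omega
  refine ⟨hfin, ?_⟩
  rw [Set.ncard_eq_toFinset_card _ hfin]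
  exact vals_card v hv Y _ (fun g hg => (Set.Finite.mem_toFinset hfin).1 hg)

/-- the exponents at which `(v pi)^e` times an element of `U` is an element of `W` -/
def bad (v : Valuation ℂ Γ) (U W : Set Γ) : Set ℤ :=
  {e | ∃ u ∈ U, ∃ w ∈ W, v (Real.pi : ℂ) ^ e * u = w}

theorem bad_finite (v : Valuation ℂ Γ) (hpi : 1 < v (Real.pi : ℂ)) (U W : Set Γ) (hU : U.Finite)
    (hW : W.Finite) (hU0 : ∀ u ∈ U, u ≠ 0) :
    (bad v U W).Finite ∧ (bad v U W).ncard ≤ U.ncard * W.ncard := by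
  have h1 : ∀ e : ℤ, ∃ p : Γ × Γ, e ∈ bad v U W →
      p.1 ∈ U ∧ p.2 ∈ W ∧ v (Real.pi : ℂ) ^ e * p.1 = p.2 := by
    intro e
    by_cases he : e ∈ bad v U W
    · obtain ⟨u, hu, w, hw, h⟩ := he
      exact ⟨(u, w), fun _ => ⟨hu, hw, h⟩⟩
    · exact ⟨(0, 0), fun h => absurd h he⟩
  choose F hF using h1
  have hmaps : ∀ e ∈ bad v U W, F e ∈ U ×ˢ W := fun e he => ⟨(hF e he).1, (hF e he).2.1⟩
  have hinj : Set.InjOn F (bad v U W) := by
    intro e he e' he' hee
    obtain ⟨a1, a2, a3⟩ := hF e he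
    obtain ⟨b1, b2, b3⟩ := hF e' he'
    rw [← hee] at b3
    have h2 : v (Real.pi : ℂ) ^ e * (F e).1 = v (Real.pi : ℂ) ^ e' * (F e).1 := a3.trans b3.symm
    have h3 := mul_right_cancel₀ (hU0 _ a1) h2
    exact zpow_right_injective₀ (zero_lt_one.trans hpi) hpi.ne' h3
  have hfin : (U ×ˢ W).Finite := hU.prod hW
  refine ⟨Set.Finite.of_injOn hmaps hinj hfin, ?_⟩
  rw [← Set.ncard_prod]
  exact Set.ncard_le_ncard_of_injOn F hmaps hinj hfin

private theorem sel_card (S : Finset ℕ) (B : Set ℤ) (hB : B.Finite) (s : ℕ)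
    [DecidablePred (fun t : ℕ => (s : ℤ) - t ∈ B ∨ (t : ℤ) - s ∈ B ∨ t = s)] :
    (S.filter (fun t : ℕ => (s : ℤ) - t ∈ B ∨ (t : ℤ) - s ∈ B ∨ t = s)).card ≤ 2 * B.ncard + 1 := by
  classical
  have e1 : (S.filter (fun t : ℕ => (s : ℤ) - t ∈ B)).card ≤ B.ncard := by
    rw [Set.ncard_eq_toFinset_card _ hB]
    apply Finset.card_le_card_of_injOn (fun t : ℕ => (s : ℤ) - t)
    · intro t ht
      exact (Set.Finite.mem_toFinset hB).2 (Finset.mem_filter.1 ht).2
    · intro t _ t' _ h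
      have h' : (s : ℤ) - t = s - t' := h
      omega
  have e2 : (S.filter (fun t : ℕ => (t : ℤ) - s ∈ B)).card ≤ B.ncard := by
    rw [Set.ncard_eq_toFinset_card _ hB]
    apply Finset.card_le_card_of_injOn (fun t : ℕ => (t : ℤ) - s)
    · intro t ht
      exact (Set.Finite.mem_toFinset hB).2 (Finset.mem_filter.1 ht).2
    · intro t _ t' _ h
      have h' : (t : ℤ) - s = t' - s := h
      omega
  have e3 : (S.filter (fun t : ℕ => t = s)).card ≤ 1 := by
    apply Finset.card_le_one.2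
    intro a ha b hb
    rw [(Finset.mem_filter.1 ha).2, (Finset.mem_filter.1 hb).2]
  have e4 : S.filter (fun t : ℕ => (s : ℤ) - t ∈ B ∨ (t : ℤ) - s ∈ B ∨ t = s) ⊆
      S.filter (fun t : ℕ => (s : ℤ) - t ∈ B) ∪
        (S.filter (fun t : ℕ => (t : ℤ) - s ∈ B) ∪ S.filter (fun t : ℕ => t = s)) := by
    intro t ht
    obtain ⟨h1, h2⟩ := Finset.mem_filter.1 ht
    rw [Finset.mem_union, Finset.mem_union, Finset.mem_filter, Finset.mem_filter, Finset.mem_filter]
    tauto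
  have e5 := Finset.card_union_le (S.filter (fun t : ℕ => (s : ℤ) - t ∈ B))
    (S.filter (fun t : ℕ => (t : ℤ) - s ∈ B) ∪ S.filter (fun t : ℕ => t = s))
  have e6 := Finset.card_union_le (S.filter (fun t : ℕ => (t : ℤ) - s ∈ B))
    (S.filter (fun t : ℕ => t = s))
  have e7 := Finset.card_le_card e4
  omega

/-- a large set of integers contains a large subset all of whose differences avoid a given finite set -/
theorem select (S : Finset ℕ) (B : Set ℤ) (hB : B.Finite) (K : ℕ)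
    (hS : K * (2 * B.ncard + 1) ≤ S.card) :
    ∃ S' ⊆ S, S'.card = K ∧ ∀ s ∈ S', ∀ t ∈ S', s ≠ t → (s : ℤ) - (t : ℤ) ∉ B := by
  classical
  induction K generalizing S with
  | zero => exact ⟨∅, Finset.empty_subset _, rfl, fun s hs => absurd hs (Finset.notMem_empty s)⟩
  | succ K ih =>
    have hne : S.Nonempty := by
      rw [← Finset.card_pos]
      have : 0 < (K + 1) * (2 * B.ncard + 1) := by positivity
      omega
    obtain ⟨s, hs⟩ := hne
    obtain ⟨S₁, hS₁⟩ : ∃ S₁ : Finset ℕ, S₁ = S.filter (fun t : ℕ =>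
        ¬ ((s : ℤ) - t ∈ B ∨ (t : ℤ) - s ∈ B ∨ t = s)) := ⟨_, rfl⟩
    have h1 : (S.filter (fun t : ℕ => (s : ℤ) - t ∈ B ∨ (t : ℤ) - s ∈ B ∨ t = s)).card ≤
        2 * B.ncard + 1 := sel_card S B hB s
    have h2 := Finset.card_filter_add_card_filter_not (s := S)
      (fun t : ℕ => (s : ℤ) - t ∈ B ∨ (t : ℤ) - s ∈ B ∨ t = s)
    rw [← hS₁] at h2
    have h3 : K * (2 * B.ncard + 1) ≤ S₁.card := by
      rw [Nat.succ_mul] at hS
      omega
    obtain ⟨S', hsub, hcard, hdiff⟩ := ih S₁ h3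
    have hmem : ∀ t ∈ S', ¬ ((s : ℤ) - t ∈ B ∨ (t : ℤ) - s ∈ B ∨ t = s) := by
      intro t ht
      have h4 := hsub ht
      rw [hS₁] at h4
      exact (Finset.mem_filter.1 h4).2
    have hsS' : s ∉ S' := fun h => hmem s h (Or.inr (Or.inr rfl))
    refine ⟨insert s S', ?_, ?_, ?_⟩
    · intro t ht
      rcases Finset.mem_insert.1 ht with rfl | ht
      · exact hs
      · have h4 := hsub ht
        rw [hS₁] at h4
        exact (Finset.mem_filter.1 h4).1
    · rw [Finset.card_insert_of_notMem hsS', hcard]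
    · intro t ht t' ht' hne
      rcases Finset.mem_insert.1 ht with h5 | h5
      · rcases Finset.mem_insert.1 ht' with h6 | h6
        · exact absurd (h5.trans h6.symm) hne
        · rw [h5]
          exact fun h => hmem t' h6 (Or.inl h)
      · rcases Finset.mem_insert.1 ht' with h6 | h6
        · rw [h6]
          exact fun h => hmem t h5 (Or.inr (Or.inl h))
        · exact hdiff t h5 t' h6 hne

end Pool.Agent.Work.MP_4d52ff_nt.R
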