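import Mathlib

/-!
MODULE Box (size M).  Erdos' box theorem: a subset of `[M]^m` of size at least `M^(m - η)` contains a product of
sets of size `T`.

PROOF.  Induction on `m`.  `m = 0`: `η = 1`; `G` is nonempty, `X` is the empty family.
Step.  Let `η'` and `M0'` be given for `m` and `T`; put `η = min (η' / (2 (T+1))) (1 / (2 (T+1)))`
and let `M` be large.  Split `x = (x_0, z)`, `z ∈ Z = [M]^m` and let `E_z` be the set of `x_0` with `(x_0, z) ∈ G`.
`∑_z |E_z| = |G| ≥ M^(m+1-η)`.  Power mean (`pow_sum_div_card_le_sum_pow`):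
`∑_z |E_z|^T ≥ M^m (M^(1-η))^T`.  So the number of pairs (z, u) with `u ∈ (E_z)^T` is at least
`M^(m + T - ηT)`; those with `u` not injective are at most `T^2 M^(T-1) M^m`; for large `M` at least half remain.
So some injective `u ∈ [M]^T` has at least `M^(m - ηT)/2 ≥ M^(m - η')` common `z`.  Let `X_0` be the range of `u`
and apply the induction hypothesis to the set of these `z`.  (`T = 0` is trivial: `X = ∅` everywhere, but then the
conclusion for `m + 1` is vacuous.)
-/

set_option autoImplicit false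

namespace Pool.Agent.Work.MP_4d52ff_nt.R

private theorem bx_large (T : ℕ) (η' : ℝ) (hη' : 0 < η') (c : ℝ) : ∃ N : ℕ, ∀ M : ℕ, N ≤ M →
    1 ≤ M ∧ c ≤ (M : ℝ) ^ (η' / 2) ∧ 4 * (T : ℝ) ≤ (M : ℝ) ^ ((1 : ℝ) / 2) := by
  have h1 := ((tendsto_rpow_atTop (by positivity : 0 < η' / 2)).comp
    tendsto_natCast_atTop_atTop).eventually_ge_atTop c
  have h2 := ((tendsto_rpow_atTop (by norm_num : (0 : ℝ) < 1 / 2)).comp
    tendsto_natCast_atTop_atTop).eventually_ge_atTop (4 * (T : ℝ))
  obtain ⟨N, hN⟩ := Filter.eventually_atTop.1 ((h1.and h2).and (Filter.eventually_ge_atTop 1))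
  exact ⟨N, fun M hM => ⟨(hN M hM).2, (hN M hM).1.1, (hN M hM).1.2⟩⟩

/-- lower bound for a binomial coefficient -/
private theorem bx_choose (T n : ℕ) (t : ℝ) (ht : 2 * (T : ℝ) ≤ t) (hn : t ≤ n) :
    (t / 2) ^ T / (T.factorial : ℝ) ≤ (n.choose T : ℝ) := by
  have h1 : (((n + 1 - T : ℕ) : ℝ) ^ T) ≤ (T.factorial : ℝ) * (n.choose T : ℝ) := by
    have := Nat.pow_le_choose (α := ℝ) T n
    have h2 := Nat.pow_sub_le_descFactorial n T
    have h3 := Nat.descFactorial_eq_factorial_mul_choose n T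
    rw [h3] at h2
    exact_mod_cast h2
  have hT0 : (0 : ℝ) ≤ T := Nat.cast_nonneg T
  have h2 : t / 2 ≤ ((n + 1 - T : ℕ) : ℝ) := by
    have h3 : T ≤ n + 1 := by
      have : (T : ℝ) ≤ n := by linarith
      have : T ≤ n := by exact_mod_cast this
      omega
    rw [Nat.cast_sub h3]
    push_cast
    linarith
  rw [div_le_iff₀ (by positivity), mul_comm (n.choose T : ℝ)]
  refine le_trans ?_ h1
  exact pow_le_pow_left₀ (by linarith) h2 T

theorem box (m T : ℕ) : ∃ η : ℝ, 0 < η ∧ ∃ M0 : ℕ, ∀ M : ℕ, M0 ≤ M → ∀ G : Finset (Fin m → ℕ),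
    (∀ x ∈ G, ∀ i, x i < M) → (M : ℝ) ^ ((m : ℝ) - η) ≤ (G.card : ℝ) →
    ∃ X : Fin m → Finset ℕ, (∀ i, (X i).card = T) ∧ ∀ x ∈ Fintype.piFinset X, x ∈ G := by
  classical
  induction m with
  | zero =>
    refine ⟨1, one_pos, 1, fun M hM G _ hG => ⟨fun i => i.elim0, fun i => i.elim0, fun x _ => ?_⟩⟩
    have hM0 : (0 : ℝ) < M := by exact_mod_cast hM
    have h1 : (0 : ℝ) < G.card := lt_of_lt_of_le (Real.rpow_pos_of_pos hM0 _) hG
    have h2 : 0 < G.card := by exact_mod_cast h1
    obtain ⟨y, hy⟩ := Finset.card_pos.1 h2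
    have h3 : x = y := Subsingleton.elim _ _
    rw [h3]
    exact hy
  | succ m ih =>
    rcases Nat.eq_zero_or_pos T with hT | hT
    · refine ⟨1, one_pos, 0, fun M _ G _ _ => ⟨fun _ => ∅, fun _ => by rw [hT]; rfl, fun x hx => ?_⟩⟩
      have := (Fintype.mem_piFinset.1 hx) 0
      exact absurd this (Finset.notMem_empty _)
    obtain ⟨η', hη', M0', hIH⟩ := ih
    obtain ⟨c, hc⟩ : ∃ c : ℝ, c = 2 * 4 ^ T * (T.factorial : ℝ) := ⟨_, rfl⟩
    have hc0 : 0 < c := by
      rw [hc]
      positivity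
    obtain ⟨N, hN⟩ := bx_large T η' hη' (c + 1)
    obtain ⟨η, hη⟩ : ∃ η : ℝ, η = min (η' / (2 * (T + 1))) (1 / 2) := ⟨_, rfl⟩
    have hη0 : 0 < η := by
      rw [hη]
      exact lt_min (by positivity) (by norm_num)
    have hη1 : η ≤ 1 / 2 := by
      rw [hη]
      exact min_le_right _ _
    have hη2 : η * (T + 1) ≤ η' / 2 := by
      have h1 : η ≤ η' / (2 * (T + 1)) := by
        rw [hη]
        exact min_le_left _ _
      have h2 : η * (T + 1) ≤ η' / (2 * (T + 1)) * (T + 1) :=
        mul_le_mul_of_nonneg_right h1 (by positivity)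
      have h3 : η' / (2 * (T + 1)) * (T + 1) = η' / 2 := by
        field_simp
      linarith
    refine ⟨η, hη0, max N M0', fun M hM G hGM hG => ?_⟩
    obtain ⟨hM1, hMc, hMT⟩ := hN M (le_of_max_le_left hM)
    have hM0' : M0' ≤ M := le_of_max_le_right hM
    have hM0 : (0 : ℝ) < M := by exact_mod_cast hM1
    have hM1' : (1 : ℝ) ≤ M := by exact_mod_cast hM1
    obtain ⟨Z, hZ⟩ : ∃ Z : Finset (Fin m → ℕ), Z = Fintype.piFinset (fun _ => Finset.range M) :=
      ⟨_, rfl⟩
    have hZc : (Z.card : ℝ) = (M : ℝ) ^ m := by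
      rw [hZ, Fintype.card_piFinset]
      simp
    obtain ⟨E, hE⟩ : ∃ E : (Fin m → ℕ) → Finset ℕ, ∀ z,
        E z = (Finset.range M).filter (fun a => (Fin.cons a z : Fin (m + 1) → ℕ) ∈ G) :=
      ⟨_, fun _ => rfl⟩
    have hEc : ∀ z, ((E z).card : ℝ) ≤ M := by
      intro z
      have h1 : (E z).card ≤ M := by
        rw [hE]
        exact (Finset.card_filter_le _ _).trans (by rw [Finset.card_range])
      exact_mod_cast h1
    have hcount : (G.card : ℝ) ≤ ∑ z ∈ Z, ((E z).card : ℝ) := by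
      have h1 : G.card = ∑ z ∈ Z, (G.filter (fun x => Fin.tail x = z)).card := by
        apply Finset.card_eq_sum_card_fiberwise
        intro x hx
        rw [hZ]
        simp only [Finset.mem_coe, Fintype.mem_piFinset, Finset.mem_range]
        intro i
        exact hGM x hx i.succ
      have h2 : ∀ z ∈ Z, (G.filter (fun x => Fin.tail x = z)).card ≤ (E z).card := by
        intro z _
        apply Finset.card_le_card_of_injOn (fun x => x 0)
        · intro x hx
          obtain ⟨h3, h4⟩ := Finset.mem_filter.1 (Finset.mem_coe.1 hx)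
          rw [Finset.mem_coe, hE, Finset.mem_filter, Finset.mem_range]
          refine ⟨hGM x h3 0, ?_⟩
          rw [← h4, Fin.cons_self_tail]
          exact h3
        · intro x hx y hy hxy
          obtain ⟨h3, h4⟩ := Finset.mem_filter.1 (Finset.mem_coe.1 hx)
          obtain ⟨h5, h6⟩ := Finset.mem_filter.1 (Finset.mem_coe.1 hy)
          have hxy' : x 0 = y 0 := hxy
          rw [← Fin.cons_self_tail x, ← Fin.cons_self_tail y, hxy', h4, h6]
      have h3 : G.card ≤ ∑ z ∈ Z, (E z).card := by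
        rw [h1]
        exact Finset.sum_le_sum h2
      exact_mod_cast h3
    -- the good `z`
    obtain ⟨t, ht⟩ : ∃ t : ℝ, t = (M : ℝ) ^ (1 - η) / 2 := ⟨_, rfl⟩
    have ht0 : 0 < t := by
      rw [ht]
      positivity
    have htT : 2 * (T : ℝ) ≤ t := by
      have h1 : (M : ℝ) ^ ((1 : ℝ) / 2) ≤ (M : ℝ) ^ (1 - η) :=
        Real.rpow_le_rpow_of_exponent_le hM1' (by linarith)
      rw [ht]
      linarith
    obtain ⟨Gd, hGd⟩ : ∃ Gd : Finset (Fin m → ℕ), Gd = Z.filter (fun z => t ≤ ((E z).card : ℝ)) :=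
      ⟨_, rfl⟩
    have hsplit : ∑ z ∈ Z, ((E z).card : ℝ) ≤ (Gd.card : ℝ) * M + (Z.card : ℝ) * t := by
      have h1 : ∀ z ∈ Z, ((E z).card : ℝ) ≤ (if t ≤ ((E z).card : ℝ) then (M : ℝ) else 0) + t := by
        intro z _
        by_cases h2 : t ≤ ((E z).card : ℝ)
        · rw [if_pos h2]
          have := hEc z
          linarith
        · rw [if_neg h2]
          rw [not_le] at h2
          linarith
      refine (Finset.sum_le_sum h1).trans (le_of_eq ?_)
      rw [Finset.sum_add_distrib, Finset.sum_const, nsmul_eq_mul, ← Finset.sum_filter,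
        Finset.sum_const, nsmul_eq_mul, ← hGd]
    have hMm : (M : ℝ) ^ m * t = (M : ℝ) ^ (((m + 1 : ℕ) : ℝ) - η) / 2 := by
      rw [ht, mul_div_assoc', ← Real.rpow_natCast, ← Real.rpow_add hM0]
      congr 2
      push_cast
      ring
    have hGdc : (M : ℝ) ^ ((m : ℝ) - η) / 2 ≤ (Gd.card : ℝ) := by
      have h1 : (M : ℝ) ^ (((m + 1 : ℕ) : ℝ) - η) / 2 ≤ (Gd.card : ℝ) * M := by
        rw [hZc, hMm] at hsplit
        linarith
      have h2 : (M : ℝ) ^ (((m + 1 : ℕ) : ℝ) - η) = (M : ℝ) ^ ((m : ℝ) - η) * M := by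
        rw [← Real.rpow_add_one hM0.ne']
        congr 1
        push_cast
        ring
      rw [h2, mul_div_right_comm] at h1
      exact le_of_mul_le_mul_right h1 hM0
    -- double counting
    obtain ⟨κ, hκ⟩ : ∃ κ : ℝ, κ = (t / 2) ^ T / (T.factorial : ℝ) := ⟨_, rfl⟩
    have hκ0 : 0 < κ := by
      rw [hκ]
      positivity
    have hpairs : (Gd.card : ℝ) * κ ≤ ∑ A ∈ (Finset.range M).powersetCard T,
        ((Z.filter (fun z => A ⊆ E z)).card : ℝ) := by
      have h1 : (Gd.card : ℝ) * κ ≤ ∑ z ∈ Gd, (((E z).powersetCard T).card : ℝ) := by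
        rw [← nsmul_eq_mul, ← Finset.sum_const]
        apply Finset.sum_le_sum
        intro z hz
        rw [hGd] at hz
        rw [Finset.card_powersetCard, hκ]
        exact bx_choose T _ t htT (Finset.mem_filter.1 hz).2
      have h2 : ∑ z ∈ Gd, (((E z).powersetCard T).card : ℝ) ≤
          ∑ z ∈ Z, (((E z).powersetCard T).card : ℝ) := by
        apply Finset.sum_le_sum_of_subset_of_nonneg
        · rw [hGd]
          exact Finset.filter_subset _ _
        · intro z _ _
          positivity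
      refine h1.trans (h2.trans (le_of_eq ?_))
      have h3 : ∀ z, (((E z).powersetCard T).card : ℝ) =
          ∑ A ∈ (Finset.range M).powersetCard T, if A ⊆ E z then (1 : ℝ) else 0 := by
        intro z
        rw [← Finset.sum_filter, Finset.sum_const, nsmul_eq_mul, mul_one]
        congr 2
        ext A
        rw [Finset.mem_filter, Finset.mem_powersetCard, Finset.mem_powersetCard]
        constructor
        · rintro ⟨h4, h5⟩
          refine ⟨⟨h4.trans ?_, h5⟩, h4⟩
          rw [hE]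
          exact Finset.filter_subset _ _
        · rintro ⟨⟨_, h5⟩, h6⟩
          exact ⟨h6, h5⟩
      simp only [h3]
      rw [Finset.sum_comm]
      refine Finset.sum_congr rfl fun A _ => ?_
      rw [← Finset.sum_filter, Finset.sum_const, nsmul_eq_mul, mul_one]
    obtain ⟨A, hA, hAc⟩ : ∃ A ∈ (Finset.range M).powersetCard T,
        (M : ℝ) ^ ((m : ℝ) - η') ≤ ((Z.filter (fun z => A ⊆ E z)).card : ℝ) := by
      by_contra hno
      push Not at hno
      have h1 : (Gd.card : ℝ) * κ ≤ (M : ℝ) ^ T * (M : ℝ) ^ ((m : ℝ) - η') := by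
        refine hpairs.trans ((Finset.sum_le_sum fun A hA => (hno A hA).le).trans ?_)
        rw [Finset.sum_const, nsmul_eq_mul, Finset.card_powersetCard, Finset.card_range]
        apply mul_le_mul_of_nonneg_right _ (Real.rpow_nonneg hM0.le _)
        exact_mod_cast Nat.choose_le_pow M T
      have h2 : (M : ℝ) ^ ((m : ℝ) - η) / 2 * κ ≤ (Gd.card : ℝ) * κ :=
        mul_le_mul_of_nonneg_right hGdc hκ0.le
      have h3 : (M : ℝ) ^ ((m : ℝ) - η) / 2 * κ * c =
          (M : ℝ) ^ T * (M : ℝ) ^ ((m : ℝ) - η * (T + 1)) := by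
        have h4 : ((M : ℝ) ^ (1 - η)) ^ T = (M : ℝ) ^ ((1 - η) * T) := by
          rw [← Real.rpow_natCast, ← Real.rpow_mul hM0.le]
        have h5 : (M : ℝ) ^ ((m : ℝ) - η) * (M : ℝ) ^ ((1 - η) * T) =
            (M : ℝ) ^ T * (M : ℝ) ^ ((m : ℝ) - η * (T + 1)) := by
          rw [← Real.rpow_natCast (M : ℝ) T, ← Real.rpow_add hM0, ← Real.rpow_add hM0]
          congr 1
          ring
        rw [← h5, ← h4, hκ, ht, hc, div_div, div_pow]
        have h6 : (2 * 2 : ℝ) = 4 := by norm_num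
        rw [h6]
        have h7 : (T.factorial : ℝ) ≠ 0 := by positivity
        field_simp
      have h4 : (M : ℝ) ^ ((m : ℝ) - η * (T + 1)) ≥
          (M : ℝ) ^ ((m : ℝ) - η') * (M : ℝ) ^ (η' / 2) := by
        rw [← Real.rpow_add hM0]
        exact Real.rpow_le_rpow_of_exponent_le hM1' (by linarith)
      have hP0 : 0 < (M : ℝ) ^ T * (M : ℝ) ^ ((m : ℝ) - η') := by positivity
      have h5 : (M : ℝ) ^ T * (M : ℝ) ^ ((m : ℝ) - η') * (c + 1) ≤
          (M : ℝ) ^ T * (M : ℝ) ^ ((m : ℝ) - η * (T + 1)) := by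
        calc (M : ℝ) ^ T * (M : ℝ) ^ ((m : ℝ) - η') * (c + 1)
            ≤ (M : ℝ) ^ T * (M : ℝ) ^ ((m : ℝ) - η') * (M : ℝ) ^ (η' / 2) :=
              mul_le_mul_of_nonneg_left hMc hP0.le
          _ = (M : ℝ) ^ T * ((M : ℝ) ^ ((m : ℝ) - η') * (M : ℝ) ^ (η' / 2)) := by ring
          _ ≤ _ := mul_le_mul_of_nonneg_left h4 (by positivity)
      have h6 := mul_le_mul_of_nonneg_right (h2.trans h1) hc0.le
      rw [h3] at h6
      nlinarith
    obtain ⟨hAsub, hAT⟩ := Finset.mem_powersetCard.1 hA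
    obtain ⟨X', hX', hX'm⟩ := hIH M hM0' (Z.filter (fun z => A ⊆ E z)) (by
      intro x hx i
      have h1 := (Finset.mem_filter.1 hx).1
      rw [hZ, Fintype.mem_piFinset] at h1
      exact Finset.mem_range.1 (h1 i)) hAc
    refine ⟨Fin.cons A X', ?_, ?_⟩
    · intro i
      refine Fin.cases ?_ (fun j => ?_) i
      · rw [Fin.cons_zero]
        exact hAT
      · rw [Fin.cons_succ]
        exact hX' j
    · intro x hx
      rw [Fintype.mem_piFinset] at hx
      have h0 : x 0 ∈ A := by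
        have := hx 0
        rwa [Fin.cons_zero] at this
      have h1 : Fin.tail x ∈ Fintype.piFinset X' := by
        rw [Fintype.mem_piFinset]
        intro j
        have := hx j.succ
        rwa [Fin.cons_succ] at this
      have h2 := (Finset.mem_filter.1 (hX'm _ h1)).2 h0
      rw [hE, Finset.mem_filter, Fin.cons_self_tail] at h2
      exact h2.2

end Pool.Agent.Work.MP_4d52ff_nt.R
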