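import Pool.Agent.Work.MP_4d52ff_nt.R.EvenBox

/-!
MODULE Comb (size M-L).  Counting boxes (Cauchy-Schwarz / Hoelder), pure combinatorics.
`vx x0 x1 e` (file EvenBox.lean) is the vertex `e` of the box with opposite corners `x0`, `x1`.

PROOF of `box_count`: induction on `n`.  `n = 0`: `G` is empty or everything.
Step `n → n + 1`: for `u u' < M` let `G' u u' = {z | cons u z ∈ G ∧ cons u' z ∈ G}`.  The number of boxes of `G` is
`∑_{u,u'} #boxes (G' u u') ≥ M^(-n(2^n-2)) ∑_{u,u'} #(G' u u')^(2^n)`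
`≥ M^(-n(2^n-2)) (∑_{u,u'} #(G' u u'))^(2^n) / (M^2)^(2^n-1)` (power mean, `inner_le_nnorm_mul_nnorm` or
`pow_sum_div_card_le_sum_pow` / `Finset.inner_mul_le_norm_mul_norm`), and
`∑_{u,u'} #(G' u u') = ∑_z #{u | cons u z ∈ G}^2 ≥ (#G)^2 / M^n` (Cauchy-Schwarz, `sq_sum_le_card_mul_sum_sq`).
Exponents: `n 2^n + 2 (2^n - 1) + n (2^n - 2) = (n+1) (2^(n+1) - 2)`.

PROOF of `comb`: sum `box_count` over `s ∈ I` and exchange: a pair `(x0, x1)` with all `x0 i ≠ x1 i` is counted at most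
`T` times; the other pairs (some `x0 i = x1 i`: at most `n M^(2n-1)` of them) at most `#I` times.
-/

set_option autoImplicit false

namespace Pool.Agent.Work.MP_4d52ff_nt.R

/-- all pairs of points of `[0,M)^n` -/
def prs (n M : ℕ) : Finset ((Fin n → ℕ) × (Fin n → ℕ)) :=
  (Fintype.piFinset fun _ : Fin n => Finset.range M) ×ˢ (Fintype.piFinset fun _ : Fin n => Finset.range M)

/-- the slice of `G` over the pair `u, u'` of first coordinates -/
private def slc {n : ℕ} (M : ℕ) (G : Finset (Fin (n + 1) → ℕ)) (p : ℕ × ℕ) :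
    Finset (Fin n → ℕ) :=
  (Fintype.piFinset fun _ : Fin n => Finset.range M).filter
    (fun z => (Fin.cons p.1 z : Fin (n + 1) → ℕ) ∈ G ∧ (Fin.cons p.2 z : Fin (n + 1) → ℕ) ∈ G)

private lemma mem_pi {n M : ℕ} (x : Fin n → ℕ) :
    x ∈ (Fintype.piFinset fun _ : Fin n => Finset.range M) ↔ ∀ i, x i < M := by
  simp [Fintype.mem_piFinset]

private lemma card_pi (n M : ℕ) :
    (Fintype.piFinset fun _ : Fin n => Finset.range M).card = M ^ n := by
  simp [Fintype.card_piFinset]

private lemma vx_lt {n M : ℕ} {x0 x1 : Fin n → ℕ} (h0 : ∀ i, x0 i < M) (h1 : ∀ i, x1 i < M)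
    (e : Fin n → Bool) : ∀ i, vx x0 x1 e i < M := by
  intro i
  unfold vx
  split_ifs
  · exact h1 i
  · exact h0 i

private lemma vx_cons {n : ℕ} (u u' : ℕ) (z0 z1 : Fin n → ℕ) (b : Bool) (e : Fin n → Bool) :
    vx (Fin.cons u z0 : Fin (n + 1) → ℕ) (Fin.cons u' z1 : Fin (n + 1) → ℕ)
      (Fin.cons b e : Fin (n + 1) → Bool) =
      (Fin.cons (if b then u' else u) (vx z0 z1 e) : Fin (n + 1) → ℕ) := by
  funext i
  refine Fin.cases ?_ (fun j => ?_) i
  · simp [vx]
  · simp [vx]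

private lemma box_succ {n M : ℕ} (G : Finset (Fin (n + 1) → ℕ)) (p : ℕ × ℕ)
    (z0 z1 : Fin n → ℕ) (h0 : ∀ i, z0 i < M) (h1 : ∀ i, z1 i < M) :
    (∀ e : Fin (n + 1) → Bool, vx (Fin.cons p.1 z0 : Fin (n + 1) → ℕ)
      (Fin.cons p.2 z1 : Fin (n + 1) → ℕ) e ∈ G) ↔
    ∀ e : Fin n → Bool, vx z0 z1 e ∈ slc M G p := by
  constructor
  · intro h e
    unfold slc
    rw [Finset.mem_filter, mem_pi]
    refine ⟨vx_lt h0 h1 e, ?_, ?_⟩
    · have := h (Fin.cons false e)
      rw [vx_cons] at this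
      simpa using this
    · have := h (Fin.cons true e)
      rw [vx_cons] at this
      simpa using this
  · intro h e
    have h2 := h (Fin.tail e)
    unfold slc at h2
    rw [Finset.mem_filter] at h2
    rw [← Fin.cons_self_tail e, vx_cons]
    cases e 0
    · simpa using h2.2.1
    · simpa using h2.2.2

private lemma card_box_succ {n M : ℕ} (G : Finset (Fin (n + 1) → ℕ)) :
    ((prs (n + 1) M).filter (fun p => ∀ e : Fin (n + 1) → Bool, vx p.1 p.2 e ∈ G)).card =
    ∑ p ∈ Finset.range M ×ˢ Finset.range M,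
      ((prs n M).filter (fun q => ∀ e : Fin n → Bool, vx q.1 q.2 e ∈ slc M G p)).card := by
  rw [← Finset.card_sigma]
  refine Finset.card_nbij' (i := fun x => (⟨(x.1 0, x.2 0), (Fin.tail x.1, Fin.tail x.2)⟩ :
      (_ : ℕ × ℕ) × ((Fin n → ℕ) × (Fin n → ℕ))))
    (j := fun y => ((Fin.cons y.1.1 y.2.1 : Fin (n + 1) → ℕ),
      (Fin.cons y.1.2 y.2.2 : Fin (n + 1) → ℕ))) ?_ ?_ ?_ ?_
  · intro x hx
    simp only [Finset.mem_coe, Finset.mem_filter, prs, Finset.mem_product, mem_pi] at hx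
    simp only [Finset.mem_coe, Finset.mem_sigma, Finset.mem_product, Finset.mem_range,
      Finset.mem_filter, prs, mem_pi]
    obtain ⟨⟨h0, h1⟩, h2⟩ := hx
    refine ⟨⟨h0 0, h1 0⟩, ⟨fun i => h0 i.succ, fun i => h1 i.succ⟩, ?_⟩
    refine (box_succ G (x.1 0, x.2 0) (Fin.tail x.1) (Fin.tail x.2) (fun i => h0 i.succ)
      (fun i => h1 i.succ)).1 ?_
    simp only [Fin.cons_self_tail]
    exact h2
  · intro y hy
    simp only [Finset.mem_coe, Finset.mem_sigma, Finset.mem_product, Finset.mem_range,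
      Finset.mem_filter, prs, mem_pi] at hy
    simp only [Finset.mem_coe, Finset.mem_filter, prs, Finset.mem_product, mem_pi]
    obtain ⟨⟨h0, h1⟩, ⟨h2, h3⟩, h4⟩ := hy
    refine ⟨⟨fun i => ?_, fun i => ?_⟩, (box_succ G y.1 y.2.1 y.2.2 h2 h3).2 h4⟩
    · refine Fin.cases ?_ (fun j => ?_) i
      · simpa using h0
      · simpa using h2 j
    · refine Fin.cases ?_ (fun j => ?_) i
      · simpa using h1
      · simpa using h3 j
  · intro x _
    simp
  · intro y _
    simp

private lemma sum_slc {n M : ℕ} (G : Finset (Fin (n + 1) → ℕ)) :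
    ∑ p ∈ Finset.range M ×ˢ Finset.range M, ((slc M G p).card : ℝ) =
    ∑ z ∈ (Fintype.piFinset fun _ : Fin n => Finset.range M),
      (((Finset.range M).filter (fun u => (Fin.cons u z : Fin (n + 1) → ℕ) ∈ G)).card : ℝ) ^ 2 := by
  have h1 : ∀ p ∈ Finset.range M ×ˢ Finset.range M, ((slc M G p).card : ℝ) =
      ∑ z ∈ (Fintype.piFinset fun _ : Fin n => Finset.range M),
        ((if (Fin.cons p.1 z : Fin (n + 1) → ℕ) ∈ G then (1 : ℝ) else 0) *
          (if (Fin.cons p.2 z : Fin (n + 1) → ℕ) ∈ G then (1 : ℝ) else 0)) := by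
    intro p _
    unfold slc
    rw [Finset.card_filter]
    push_cast
    refine Finset.sum_congr rfl fun z _ => ?_
    by_cases ha : (Fin.cons p.1 z : Fin (n + 1) → ℕ) ∈ G <;>
      by_cases hb : (Fin.cons p.2 z : Fin (n + 1) → ℕ) ∈ G <;> simp [ha, hb]
  rw [Finset.sum_congr rfl h1, Finset.sum_comm]
  refine Finset.sum_congr rfl fun z _ => ?_
  rw [Finset.sum_product, Finset.card_filter]
  push_cast
  rw [sq, Finset.sum_mul_sum]

private lemma sum_fib {n M : ℕ} (G : Finset (Fin (n + 1) → ℕ)) (hG : ∀ x ∈ G, ∀ i, x i < M) :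
    ∑ z ∈ (Fintype.piFinset fun _ : Fin n => Finset.range M),
      ((Finset.range M).filter (fun u => (Fin.cons u z : Fin (n + 1) → ℕ) ∈ G)).card = G.card := by
  rw [← Finset.card_sigma]
  refine Finset.card_nbij' (i := fun y : (_ : Fin n → ℕ) × ℕ =>
      (Fin.cons y.2 y.1 : Fin (n + 1) → ℕ))
    (j := fun x => (⟨Fin.tail x, x 0⟩ : (_ : Fin n → ℕ) × ℕ)) ?_ ?_ ?_ ?_
  · intro y hy
    simp only [Finset.mem_coe, Finset.mem_sigma, Finset.mem_filter] at hy
    exact hy.2.2
  · intro x hx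
    simp only [Finset.mem_coe, Finset.mem_sigma, Finset.mem_filter, mem_pi, Finset.mem_range]
    refine ⟨fun i => hG x hx i.succ, hG x hx 0, ?_⟩
    rw [Fin.cons_self_tail]
    exact hx
  · intro y _
    simp
  · intro x _
    simp

theorem box_count (n M : ℕ) (G : Finset (Fin n → ℕ)) (hG : ∀ x ∈ G, ∀ i, x i < M) :
    (G.card : ℝ) ^ (2 ^ n) ≤ (M : ℝ) ^ (n * (2 ^ n - 2)) *
      (((prs n M).filter (fun p => ∀ e : Fin n → Bool, vx p.1 p.2 e ∈ G)).card : ℝ) := by
  induction n with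
  | zero =>
    rcases G.eq_empty_or_nonempty with rfl | ⟨x, hx⟩
    · simp
    · have h1 : G = {x} := by
        ext y
        simp only [Finset.mem_singleton]
        exact ⟨fun _ => Subsingleton.elim _ _, fun h => h ▸ hx⟩
      have h2 : 1 ≤ ((prs 0 M).filter (fun p => ∀ e : Fin 0 → Bool, vx p.1 p.2 e ∈ G)).card := by
        rw [Nat.succ_le_iff, Finset.card_pos]
        refine ⟨(x, x), ?_⟩
        simp only [Finset.mem_filter, prs, Finset.mem_product, mem_pi]
        refine ⟨⟨fun i => i.elim0, fun i => i.elim0⟩, fun e => ?_⟩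
        have : vx x x e = x := Subsingleton.elim _ _
        rw [this]
        exact hx
      have h3 : (1 : ℝ) ≤ (((prs 0 M).filter (fun p => ∀ e : Fin 0 → Bool,
        vx p.1 p.2 e ∈ G)).card : ℝ) := by exact_mod_cast h2
      have h4 : (G.card : ℝ) = 1 := by rw [h1]; simp
      rw [h4]
      simpa using h3
  | succ n ih =>
    set N : ℕ := 2 ^ n with hN
    have hN1 : 1 ≤ N := Nat.one_le_two_pow
    have hM0 : (0 : ℝ) ≤ (M : ℝ) := Nat.cast_nonneg _
    set S : ℝ := ∑ p ∈ Finset.range M ×ˢ Finset.range M, ((slc M G p).card : ℝ) with hS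
    set B : ℝ := (((prs (n + 1) M).filter
      (fun p => ∀ e : Fin (n + 1) → Bool, vx p.1 p.2 e ∈ G)).card : ℝ) with hB
    have hS0 : 0 ≤ S := Finset.sum_nonneg fun _ _ => Nat.cast_nonneg _
    -- Cauchy-Schwarz
    have h1 : (G.card : ℝ) ^ 2 ≤ (M : ℝ) ^ n * S := by
      have h := sq_sum_le_card_mul_sum_sq
        (s := (Fintype.piFinset fun _ : Fin n => Finset.range M))
        (f := fun z => (((Finset.range M).filter
          (fun u => (Fin.cons u z : Fin (n + 1) → ℕ) ∈ G)).card : ℝ))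
      rw [card_pi, ← sum_slc] at h
      have h2 := sum_fib G hG
      have h3 : ∑ z ∈ (Fintype.piFinset fun _ : Fin n => Finset.range M),
          (((Finset.range M).filter
            (fun u => (Fin.cons u z : Fin (n + 1) → ℕ) ∈ G)).card : ℝ) = (G.card : ℝ) := by
        rw [← h2]; push_cast; rfl
      rw [h3] at h
      push_cast at h
      exact h
    -- power mean
    have h2 : S ^ N ≤ ((M : ℝ) ^ 2) ^ (N - 1) *
        ∑ p ∈ Finset.range M ×ˢ Finset.range M, ((slc M G p).card : ℝ) ^ N := by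
      have h := pow_sum_le_card_mul_sum_pow (s := Finset.range M ×ˢ Finset.range M)
        (f := fun p => ((slc M G p).card : ℝ)) (fun p _ => Nat.cast_nonneg _) (N - 1)
      rw [Nat.sub_add_cancel hN1, Finset.card_product, Finset.card_range] at h
      push_cast at h
      rw [← sq] at h
      exact h
    -- induction
    have h3 : ∑ p ∈ Finset.range M ×ˢ Finset.range M, ((slc M G p).card : ℝ) ^ N ≤
        (M : ℝ) ^ (n * (N - 2)) * B := by
      rw [hB, card_box_succ]
      push_cast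
      rw [Finset.mul_sum]
      refine Finset.sum_le_sum fun p _ => ?_
      refine ih (slc M G p) ?_
      intro x hx
      unfold slc at hx
      rw [Finset.mem_filter, mem_pi] at hx
      exact hx.1
    have h4 : (G.card : ℝ) ^ (2 ^ (n + 1)) = ((G.card : ℝ) ^ 2) ^ N := by
      rw [← pow_mul, pow_succ, mul_comm]
    rw [h4]
    have hB0 : 0 ≤ B := Nat.cast_nonneg _
    have h5 : n * N + 2 * (N - 1) + n * (N - 2) = (n + 1) * (2 ^ (n + 1) - 2) := by
      rcases Nat.eq_zero_or_pos n with rfl | hn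
      · simp [hN]
      · have h6 : 2 ≤ N := by
          rw [hN]
          calc 2 = 2 ^ 1 := rfl
            _ ≤ 2 ^ n := Nat.pow_le_pow_right (by norm_num) hn
        obtain ⟨k, hk⟩ := Nat.exists_eq_add_of_le h6
        have h7 : 2 ^ (n + 1) = 2 * N := by rw [pow_succ, mul_comm]
        rw [h7, hk]
        have e1 : 2 + k - 1 = k + 1 := by omega
        have e2 : 2 + k - 2 = k := by omega
        have e3 : 2 * (2 + k) - 2 = 2 * k + 2 := by omega
        rw [e1, e2, e3]
        ring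
    calc ((G.card : ℝ) ^ 2) ^ N ≤ ((M : ℝ) ^ n * S) ^ N := by gcongr
      _ = (M : ℝ) ^ (n * N) * S ^ N := by rw [mul_pow, ← pow_mul]
      _ ≤ (M : ℝ) ^ (n * N) * (((M : ℝ) ^ 2) ^ (N - 1) * ((M : ℝ) ^ (n * (N - 2)) * B)) := by
          gcongr
          refine h2.trans ?_
          gcongr
      _ = (M : ℝ) ^ ((n + 1) * (2 ^ (n + 1) - 2)) * B := by
          rw [← h5, pow_add, pow_add, ← pow_mul]
          ring

private lemma card_eq_pair (n M : ℕ) (i : Fin n) :
    ((prs n M).filter (fun p => p.1 i = p.2 i)).card ≤ M ^ (2 * n - 1) := by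
  obtain ⟨m, rfl⟩ : ∃ m, n = m + 1 := ⟨n - 1, by have := i.2; omega⟩
  have h1 : ((prs (m + 1) M).filter (fun p => p.1 i = p.2 i)).card ≤
      ((Fintype.piFinset fun _ : Fin (m + 1) => Finset.range M) ×ˢ
        (Fintype.piFinset fun _ : Fin m => Finset.range M)).card := by
    refine Finset.card_le_card_of_injOn (fun p => (p.1, fun j => p.2 (i.succAbove j))) ?_ ?_
    · intro p hp
      simp only [Finset.mem_coe, Finset.mem_filter, prs, Finset.mem_product, mem_pi] at hp
      simp only [Finset.mem_coe, Finset.mem_product, mem_pi]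
      exact ⟨hp.1.1, fun j => hp.1.2 _⟩
    · intro p hp q hq hpq
      simp only [Finset.mem_coe, Finset.mem_filter] at hp hq
      simp only [Prod.mk.injEq] at hpq
      refine Prod.ext hpq.1 ?_
      funext j
      rcases Fin.eq_self_or_eq_succAbove i j with h | ⟨k, h⟩
      · rw [h, ← hp.2, ← hq.2, hpq.1]
      · rw [h]
        exact congrFun hpq.2 k
  refine h1.trans (le_of_eq ?_)
  rw [Finset.card_product, card_pi, card_pi, ← pow_add]
  congr 1
  omega

theorem comb (n M T : ℕ) (I : Finset ℕ) (G : ℕ → Finset (Fin n → ℕ))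
    (hG : ∀ s ∈ I, ∀ x ∈ G s, ∀ i, x i < M)
    (hT : ∀ x0 x1 : Fin n → ℕ, (∀ i, x0 i ≠ x1 i) →
      (I.filter fun s => ∀ e : Fin n → Bool, vx x0 x1 e ∈ G s).card ≤ T) :
    ∑ s ∈ I, ((G s).card : ℝ) ^ (2 ^ n) ≤ (M : ℝ) ^ (n * (2 ^ n - 2)) *
      ((T : ℝ) * (M : ℝ) ^ (2 * n) + (n : ℝ) * (I.card : ℝ) * (M : ℝ) ^ (2 * n - 1)) := by
  have h1 : ∑ s ∈ I, ((G s).card : ℝ) ^ (2 ^ n) ≤ (M : ℝ) ^ (n * (2 ^ n - 2)) *
      ∑ s ∈ I, (((prs n M).filter (fun p => ∀ e : Fin n → Bool, vx p.1 p.2 e ∈ G s)).card : ℝ) := by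
    rw [Finset.mul_sum]
    exact Finset.sum_le_sum fun s hs => box_count n M (G s) (hG s hs)
  refine h1.trans ?_
  refine mul_le_mul_of_nonneg_left ?_ (by positivity)
  have h2 : ∑ s ∈ I, ((prs n M).filter (fun p => ∀ e : Fin n → Bool, vx p.1 p.2 e ∈ G s)).card =
      ∑ p ∈ prs n M, (I.filter fun s => ∀ e : Fin n → Bool, vx p.1 p.2 e ∈ G s).card := by
    simp only [Finset.card_filter]
    rw [Finset.sum_comm]
  have h3 : ∑ p ∈ prs n M, (I.filter fun s => ∀ e : Fin n → Bool, vx p.1 p.2 e ∈ G s).card ≤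
      T * M ^ (2 * n) + n * I.card * M ^ (2 * n - 1) := by
    rw [← Finset.sum_filter_add_sum_filter_not (prs n M) (fun p => ∀ i, p.1 i ≠ p.2 i)]
    refine add_le_add ?_ ?_
    · have h4 : ∑ p ∈ (prs n M).filter (fun p => ∀ i, p.1 i ≠ p.2 i),
          (I.filter fun s => ∀ e : Fin n → Bool, vx p.1 p.2 e ∈ G s).card ≤
          ((prs n M).filter (fun p => ∀ i, p.1 i ≠ p.2 i)).card • T := by
        refine Finset.sum_le_card_nsmul _ _ _ fun p hp => ?_
        rw [Finset.mem_filter] at hp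
        exact hT p.1 p.2 hp.2
      refine h4.trans ?_
      rw [smul_eq_mul, mul_comm]
      refine Nat.mul_le_mul_left _ ?_
      refine (Finset.card_filter_le _ _).trans (le_of_eq ?_)
      rw [prs, Finset.card_product, card_pi, ← pow_add]
      congr 1
      omega
    · have h4 : ∑ p ∈ (prs n M).filter (fun p => ¬ ∀ i, p.1 i ≠ p.2 i),
          (I.filter fun s => ∀ e : Fin n → Bool, vx p.1 p.2 e ∈ G s).card ≤
          ((prs n M).filter (fun p => ¬ ∀ i, p.1 i ≠ p.2 i)).card • I.card :=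
        Finset.sum_le_card_nsmul _ _ _ fun p _ => Finset.card_filter_le _ _
      refine h4.trans ?_
      rw [smul_eq_mul]
      have h5 : ((prs n M).filter (fun p => ¬ ∀ i, p.1 i ≠ p.2 i)).card ≤ n * M ^ (2 * n - 1) := by
        have h6 : (prs n M).filter (fun p => ¬ ∀ i, p.1 i ≠ p.2 i) ⊆
            (Finset.univ : Finset (Fin n)).biUnion
              (fun i => (prs n M).filter (fun p => p.1 i = p.2 i)) := by
          intro p hp
          rw [Finset.mem_filter] at hp
          obtain ⟨hp1, hp2⟩ := hp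
          push Not at hp2
          obtain ⟨i, hi⟩ := hp2
          rw [Finset.mem_biUnion]
          exact ⟨i, Finset.mem_univ _, Finset.mem_filter.2 ⟨hp1, hi⟩⟩
        refine (Finset.card_le_card h6).trans ?_
        refine Finset.card_biUnion_le.trans ?_
        refine (Finset.sum_le_card_nsmul _ _ _ fun i _ => card_eq_pair n M i).trans ?_
        simp
      calc ((prs n M).filter (fun p => ¬ ∀ i, p.1 i ≠ p.2 i)).card * I.card
          ≤ (n * M ^ (2 * n - 1)) * I.card := Nat.mul_le_mul_right _ h5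
        _ = n * I.card * M ^ (2 * n - 1) := by ring
  rw [← h2] at h3
  exact_mod_cast h3

end Pool.Agent.Work.MP_4d52ff_nt.R
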