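import Pool.Agent.Work.MP_4d52ff_nt.DichotomyBar

set_option autoImplicit false

namespace Pool.Agent.Work.MP_4d52ff_nt.R

/-- the multiple zeta value of a tuple of arguments -/
noncomputable def mzv {d : ℕ} (k : Fin d → ℕ) : ℝ :=
  ∑' n : {n : Fin d → ℕ // StrictAnti n ∧ ∀ i, 1 ≤ n i}, ∏ i, (((n.1 i : ℕ) : ℝ) ^ (k i))⁻¹

/-- the tuple obtained by inserting the value `a` at position `i` -/
def ins {n : ℕ} (a : ℕ) (x : Fin n → ℕ) (i : Fin (n + 1)) : Fin (n + 1) → ℕ :=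
  Fin.insertNth (α := fun _ => ℕ) i a x

/-- the sum of the multiple zeta values of all insertions of `a` into `x` -/
noncomputable def sig {n : ℕ} (a : ℕ) (x : Fin n → ℕ) : ℝ := ∑ i : Fin (n + 1), mzv (ins a x i)

lemma mzv_eq {d : ℕ} (k : Fin d → ℕ) (h1 : ∀ i, 1 ≤ k i) (h2 : ∀ h : 0 < d, 2 ≤ k ⟨0, h⟩) :
    mzv k = zetaL (List.ofFn k) := tsum_term k h1 h2

lemma mzv_eq' {d : ℕ} (k : Fin d → ℕ) (h1 : ∀ i, 2 ≤ k i) : mzv k = zetaL (List.ofFn k) :=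
  mzv_eq k (fun i => (by norm_num : (1 : ℕ) ≤ 2).trans (h1 i)) (fun _ => h1 _)

lemma mzv_pos {d : ℕ} (k : Fin d → ℕ) (h1 : ∀ i, 2 ≤ k i) : 0 < mzv k := by
  rw [mzv_eq' k h1]
  exact zetaL_pos _ (adm_ofFn (fun i => (by norm_num : (1 : ℕ) ≤ 2).trans (h1 i)) (fun _ => h1 _))

end Pool.Agent.Work.MP_4d52ff_nt.R
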