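import Pool.Agent.Work.MP_4d52ff_nt.R.EvenBox

/-!
MODULE Even2 (helper18).  Improved box theorem: linear in the dimension of `Y`.
The elements `w s = pi^(-s) y_s` lie in the span of the `H c`, and any `#C` of them span all `H c`; so at most
`#C - 1` of them have a valuation smaller than the maximum `v0` of the `v (H c)`; the others give
`#S - #C + 1` different valuations `v(pi)^s v0` of elements of `Y`.
-/

set_option autoImplicit false

namespace Pool.Agent.Work.MP_4d52ff_nt.R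

lemma rat_v_le {Γ : Type} [LinearOrderedCommGroupWithZero Γ] (v : Valuation ℂ Γ)
    (hv : ∀ a : algebraicClosure ℚ ℂ, a ≠ 0 → v (a : ℂ) = 1) (q : ℚ) : v (q : ℂ) ≤ 1 := by
  by_cases hq : q = 0
  · subst hq
    simp
  · have h1 : (algebraMap ℚ (algebraicClosure ℚ ℂ) q) ≠ 0 := by
      rw [Ne, map_eq_zero]
      exact hq
    have h2 := hv _ h1
    have h3 : ((algebraMap ℚ (algebraicClosure ℚ ℂ) q : algebraicClosure ℚ ℂ) : ℂ) = (q : ℂ) := rfl
    rw [h3] at h2
    exact h2.le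

lemma vx_flip_mem {n : ℕ} (x0 x1 : Fin n → ℕ) (e : Fin n → Bool) :
    vx (fun i => min (x0 i) (x1 i)) (fun i => max (x0 i) (x1 i)) e =
      vx x0 x1 (fun i => if x0 i < x1 i then e i else !(e i)) := by
  funext i
  unfold vx
  by_cases h : x0 i < x1 i
  · simp only [h, if_true]
    rw [min_eq_left h.le, max_eq_right h.le]
  · have h' : x1 i ≤ x0 i := not_lt.1 h
    simp only [h, if_false]
    rw [min_eq_right h', max_eq_left h']
    cases e i <;> simp

theorem even_box2 (n : ℕ) (Y : Submodule (algebraicClosure ℚ ℂ) ℂ)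
    (hfin : Module.Finite (algebraicClosure ℚ ℂ) Y) (x0 x1 : Fin n → ℕ)
    (h0 : ∀ i, 2 ≤ x0 i) (h1 : ∀ i, 2 ≤ x1 i) (hne : ∀ i, x0 i ≠ x1 i) (S : Finset ℕ)
    (hS : ∀ s ∈ S, ∀ e : Fin n → Bool, cs x0 x1 e + 2 ≤ s ∧ Even (s - cs x0 x1 e) ∧
      ((sig (s - cs x0 x1 e) (vx x0 x1 e) : ℝ) : ℂ) ∈ Y) :
    S.card < Module.finrank (algebraicClosure ℚ ℂ) Y + 2 ^ n := by
  classical
  -- reduce to x0 < x1
  wlog hlt : ∀ i, x0 i < x1 i generalizing x0 x1
  · refine this (fun i => min (x0 i) (x1 i)) (fun i => max (x0 i) (x1 i)) (fun i => le_min (h0 i) (h1 i))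
      (fun i => (h0 i).trans (le_max_left _ _)) (fun i => (min_lt_max.2 (hne i)).ne) ?_
      (fun i => min_lt_max.2 (hne i))
    intro s hs e
    have h2 := hS s hs (fun i => if x0 i < x1 i then e i else !(e i))
    unfold cs at h2 ⊢
    rw [vx_flip_mem x0 x1 e]
    exact h2
  set C : Finset ℕ := Finset.univ.image (cs x0 x1) with hC
  have hCcard : C.card ≤ 2 ^ n := by
    refine Finset.card_image_le.trans ?_
    simp
  have hc0 : cs x0 x1 (fun _ => false) ∈ C := Finset.mem_image_of_mem _ (Finset.mem_univ _)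
  obtain ⟨Γ, hΓ, v, hv, hvpi⟩ := exists_val
  have hp : v (Real.pi : ℂ) ≠ 0 := (zero_lt_one.trans hvpi).ne'
  obtain ⟨c1, hc1, hmax⟩ := Finset.exists_max_image C (fun c => v (Hc x0 x1 c)) ⟨_, hc0⟩
  set v0 := v (Hc x0 x1 c1) with hv0
  have hv0pos : v0 ≠ 0 := by
    have h2 := hmax _ hc0
    have h3 : v (Hc x0 x1 (cs x0 x1 (fun _ => false))) ≠ 0 :=
      (Valuation.ne_zero_iff v).2 (Hc_zero_ne x0 x1 h0 hlt)
    intro h4
    rw [h4] at h2
    exact h3 (le_zero_iff.1 h2)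
  -- the elements of the span
  set w : ℕ → ℂ := fun s => ∑ c ∈ C, ((zetaL [s - c] / Real.pi ^ (s - c) : ℝ) : ℂ) * Hc x0 x1 c with hw
  set yy : ℕ → ℂ := fun s => ∑ e : Fin n → Bool, ((sg e : ℤ) : ℂ) *
    ((sig (s - cs x0 x1 e) (vx x0 x1 e) : ℝ) : ℂ) with hyy
  have hwy : ∀ s ∈ S, w s = ((Real.pi : ℂ) ^ s)⁻¹ * yy s := by
    intro s hs
    exact Hc_sum x0 x1 h0 h1 s (fun e => (hS s hs e).1)
  have hyY : ∀ s ∈ S, yy s ∈ Y := by
    intro s hs
    apply Y.sum_mem
    intro e _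
    rw [← zsmul_eq_mul]
    exact zsmul_mem (hS s hs e).2.2 _
  have hsc : ∀ s ∈ S, ∀ c ∈ C, c + 2 ≤ s ∧ Even (s - c) := by
    intro s hs c hc
    obtain ⟨e, _, rfl⟩ := Finset.mem_image.1 hc
    exact ⟨(hS s hs e).1, (hS s hs e).2.1⟩
  have hrat : ∀ s ∈ S, ∀ c ∈ C, v (((zetaL [s - c] / Real.pi ^ (s - c) : ℝ) : ℂ)) ≤ 1 := by
    intro s hs c hc
    obtain ⟨h2, h3⟩ := hsc s hs c hc
    obtain ⟨r, hr⟩ := zetaL_even (s - c) h3 (by omega)
    have h4 : ((zetaL [s - c] / Real.pi ^ (s - c) : ℝ) : ℂ) = (r : ℂ) := by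
      rw [hr, mul_div_assoc, div_self (pow_ne_zero _ Real.pi_pos.ne'), mul_one]
      norm_cast
    rw [h4]
    exact rat_v_le v hv r
  have hwle : ∀ s ∈ S, v (w s) ≤ v0 := by
    intro s hs
    apply Valuation.map_sum_le
    intro c hc
    rw [map_mul]
    calc v (((zetaL [s - c] / Real.pi ^ (s - c) : ℝ) : ℂ)) * v (Hc x0 x1 c)
        ≤ 1 * v0 := mul_le_mul' (hrat s hs c hc) (hmax c hc)
      _ = v0 := one_mul _
  -- few elements of small valuation
  have hlow : (S.filter fun s => v (w s) < v0).card < C.card := by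
    by_contra hcon
    obtain ⟨T, hT, hTc⟩ := Finset.exists_subset_card_eq (not_lt.1 hcon)
    have hTS : ∀ s ∈ T, s ∈ S := fun s hs => (Finset.mem_filter.1 (hT hs)).1
    obtain ⟨lam, hlam⟩ := solve_coeff T C hTc (fun s hs c hc => hsc s (hTS s hs) c hc)
      (Hc x0 x1) c1 hc1
    have h2 : v (∑ s ∈ T, (lam s : ℂ) *
        ∑ c' ∈ C, ((zetaL [s - c'] / Real.pi ^ (s - c') : ℝ) : ℂ) * Hc x0 x1 c') < v0 := by
      apply Valuation.map_sum_lt v hv0pos
      intro s hs
      rw [map_mul]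
      calc v (lam s : ℂ) * v (∑ c' ∈ C, ((zetaL [s - c'] / Real.pi ^ (s - c') : ℝ) : ℂ) *
            Hc x0 x1 c')
          ≤ 1 * v (w s) := mul_le_mul' (rat_v_le v hv _) le_rfl
        _ = v (w s) := one_mul _
        _ < v0 := (Finset.mem_filter.1 (hT hs)).2
    rw [← hlam] at h2
    exact lt_irrefl _ h2
  -- the others give different valuations
  have hVf := vals_finite v hv Y
  have hhigh : (S.filter fun s => ¬ v (w s) < v0).card ≤
      Module.finrank (algebraicClosure ℚ ℂ) Y := by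
    refine le_trans ?_ hVf.2
    rw [Set.ncard_eq_toFinset_card _ hVf.1]
    have hval : ∀ s ∈ S.filter (fun s => ¬ v (w s) < v0), v (yy s) = v (Real.pi : ℂ) ^ s * v0 := by
      intro s hs
      obtain ⟨h2, h3⟩ := Finset.mem_filter.1 hs
      have h4 : v (w s) = v0 := le_antisymm (hwle s h2) (not_lt.1 h3)
      rw [hwy s h2, map_mul, map_inv₀, map_pow] at h4
      rw [← h4, ← mul_assoc, mul_inv_cancel₀ (pow_ne_zero _ hp), one_mul]
    refine Finset.card_le_card_of_injOn (fun s => v (yy s)) ?_ ?_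
    · intro s hs
      have hs' : s ∈ S.filter (fun s => ¬ v (w s) < v0) := hs
      refine Finset.mem_coe.2 (hVf.1.mem_toFinset.2 ⟨yy s, hyY s (Finset.mem_filter.1 hs').1, ?_, rfl⟩)
      intro h2
      have h3 := hval s hs'
      rw [h2, map_zero] at h3
      exact mul_ne_zero (pow_ne_zero _ hp) hv0pos h3.symm
    · intro s hs t ht hst
      have h2 := hval s hs
      have h3 := hval t ht
      have h4 : v (Real.pi : ℂ) ^ s * v0 = v (Real.pi : ℂ) ^ t * v0 := by
        rw [← h2, ← h3]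
        exact hst
      have h5 := mul_right_cancel₀ hv0pos h4
      exact pow_right_injective₀ (zero_lt_one.trans hvpi) hvpi.ne' h5
  have hsplit := Finset.card_filter_add_card_filter_not (s := S) (fun s => v (w s) < v0)
  omega

end Pool.Agent.Work.MP_4d52ff_nt.R
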