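import Pool.Agent.Work.MP_4d52ff_nt.R.Defs

/-!
MODULE TP (size M-L).  Non-singularity of the matrices `zeta (p k + q l)`.

PROOF.  Suppose `lam ≠ 0`.  Put `P = ∑ l, lam l X^(q l)` (a nonzero real polynomial with at most `m` terms,
hence with at most `m - 1` positive roots counted with multiplicity: Descartes,
`Polynomial.roots_countP_pos_le_signVariations` in Mathlib/Algebra/Polynomial/RuleOfSigns.lean, together with
`signVariations ≤ (number of nonzero coefficients) - 1`).
Let `ρ_1 < ... < ρ_j` be the positive roots of `P` of odd multiplicity, so `j ≤ m - 1`.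
By linear algebra (`j < m`) there is a nonzero `Q = ∑ k, mu k X^(p k)` vanishing at `ρ_1, ..., ρ_j`
using only `j + 1` of the exponents `p k`; so `Q` has at most `j + 1` terms and at most `j` positive roots,
hence its positive roots are exactly the simple roots `ρ_i`.  All positive roots of `P * Q` have even
multiplicity, so `P * Q` does not change sign on `(0, ∞)`; replace `Q` by `-Q` to have `P Q ≥ 0` there.
By hypothesis `∑_n P(1/(n+1)) (1/(n+1))^(p k) = 0` for every `k` (finite sums of convergent series), so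
`∑_n P(1/(n+1)) Q(1/(n+1)) = 0` with nonnegative terms, so `P Q` vanishes at all `1/(n+1)`: infinitely many
roots, contradiction.
-/

set_option autoImplicit false

namespace Pool.Agent.Work.MP_4d52ff_nt.R

private theorem tp_signVar : ∀ (n : ℕ) (P : Polynomial ℝ), P.support.card = n → P ≠ 0 →
    P.signVariations + 1 ≤ n := by
  intro n
  induction n with
  | zero =>
    intro P h hP
    exact absurd (Polynomial.support_eq_empty.1 (Finset.card_eq_zero.1 h)) hP
  | succ n ih =>
    intro P h hP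
    by_cases h0 : P.eraseLead = 0
    · have h1 := P.eraseLead_add_monomial_natDegree_leadingCoeff
      rw [h0, zero_add] at h1
      rw [← h1, Polynomial.signVariations_monomial]
      omega
    · have h1 : P.eraseLead.support.card = n := Polynomial.card_support_eraseLead' h
      have h2 := ih P.eraseLead h1 h0
      have h3 := Polynomial.signVariations_le_eraseLead_succ (P := P)
      omega

/-- a nonzero real polynomial with at most `m + 1` terms has at most `m` positive roots (with multiplicity) -/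
theorem countP_pos_roots_le (P : Polynomial ℝ) (hP : P ≠ 0) :
    P.roots.countP (fun x => 0 < x) + 1 ≤ P.support.card := by
  have h1 := Polynomial.roots_countP_pos_le_signVariations (P := P)
  have h2 := tp_signVar _ P rfl hP
  have h3 : P.roots.countP (fun x => 0 < x) = P.roots.countP (0 < ·) := rfl
  omega

private theorem tp_supp {m : ℕ} (q : Fin m → ℕ) (lam : Fin m → ℝ) :
    (∑ l, lam l • (Polynomial.X : Polynomial ℝ) ^ (q l)).support.card ≤ m := by
  classical
  have h1 : (∑ l, lam l • (Polynomial.X : Polynomial ℝ) ^ (q l)).support ⊆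
      Finset.univ.image q := by
    intro e he
    by_contra hne
    apply Polynomial.mem_support_iff.1 he
    rw [Polynomial.finset_sum_coeff]
    refine Finset.sum_eq_zero fun l _ => ?_
    rw [Polynomial.coeff_smul, Polynomial.coeff_X_pow, if_neg, smul_zero]
    intro h2
    exact hne (Finset.mem_image.2 ⟨l, Finset.mem_univ _, h2.symm⟩)
  refine (Finset.card_le_card h1).trans (Finset.card_image_le.trans ?_)
  rw [Finset.card_univ, Fintype.card_fin]

private theorem tp_coeff {m : ℕ} (q : Fin m → ℕ) (hq : Function.Injective q) (lam : Fin m → ℝ)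
    (l0 : Fin m) :
    (∑ l, lam l • (Polynomial.X : Polynomial ℝ) ^ (q l)).coeff (q l0) = lam l0 := by
  classical
  rw [Polynomial.finset_sum_coeff, Finset.sum_eq_single l0]
  · rw [Polynomial.coeff_smul, Polynomial.coeff_X_pow, if_pos rfl, smul_eq_mul, mul_one]
  · intro l _ hl
    rw [Polynomial.coeff_smul, Polynomial.coeff_X_pow, if_neg, smul_zero]
    intro h
    exact hl (hq h.symm)
  · intro h
    exact absurd (Finset.mem_univ _) h

private theorem tp_eval {m : ℕ} (q : Fin m → ℕ) (lam : Fin m → ℝ) (x : ℝ) :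
    (∑ l, lam l • (Polynomial.X : Polynomial ℝ) ^ (q l)).eval x = ∑ l, lam l * x ^ (q l) := by
  rw [Polynomial.eval_finset_sum]
  refine Finset.sum_congr rfl fun l _ => ?_
  rw [Polynomial.eval_smul, Polynomial.eval_pow, Polynomial.eval_X, smul_eq_mul]

/-- a nonzero combination of the powers `X ^ p k` divisible by a given monic polynomial -/
private theorem tp_div {c : ℕ} (p : Fin (c + 1) → ℕ) (W : Polynomial ℝ) (hW : W.Monic)
    (hWd : W.natDegree = c) : ∃ mu : Fin (c + 1) → ℝ, mu ≠ 0 ∧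
      W ∣ ∑ k, mu k • (Polynomial.X : Polynomial ℝ) ^ (p k) := by
  obtain ⟨L, hL⟩ : ∃ L : (Fin (c + 1) → ℝ) →ₗ[ℝ] Polynomial ℝ, ∀ mu,
      L mu = ∑ k, mu k • (Polynomial.X : Polynomial ℝ) ^ (p k) :=
    ⟨Fintype.linearCombination ℝ (fun k => (Polynomial.X : Polynomial ℝ) ^ (p k)),
      fun mu => Fintype.linearCombination_apply ℝ _ mu⟩
  obtain ⟨g, hg⟩ : ∃ g : (Fin (c + 1) → ℝ) →ₗ[ℝ] (Fin c → ℝ), ∀ mu (i : Fin c),
      g mu i = ((L mu) %ₘ W).coeff i :=
    ⟨LinearMap.pi (fun i : Fin c => (Polynomial.lcoeff ℝ (i : ℕ)).comp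
      ((Polynomial.modByMonicHom W).comp L)), fun mu i => rfl⟩
  have h1 : LinearMap.ker g ≠ ⊥ := by
    apply LinearMap.ker_ne_bot_of_finrank_lt
    rw [Module.finrank_fin_fun, Module.finrank_fin_fun]
    omega
  obtain ⟨mu, h2, h3⟩ := Submodule.exists_mem_ne_zero_of_ne_bot h1
  refine ⟨mu, h3, ?_⟩
  rw [← hL, ← Polynomial.modByMonic_eq_zero_iff_dvd hW]
  ext i
  rw [Polynomial.coeff_zero]
  by_cases hi : i < c
  · have h4 := hg mu ⟨i, hi⟩
    rw [LinearMap.mem_ker.1 h2] at h4
    exact h4.symm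
  · apply Polynomial.coeff_eq_zero_of_degree_lt
    have h5 := Polynomial.degree_modByMonic_lt (L mu) hW
    refine h5.trans_le ?_
    rw [Polynomial.degree_eq_natDegree hW.ne_zero, hWd]
    exact_mod_cast (not_lt.1 hi)

private theorem tp_sign (F : Polynomial ℝ) (h : ∀ x, 0 < x → F.eval x ≠ 0) :
    (∀ x, 0 < x → 0 < F.eval x) ∨ (∀ x, 0 < x → F.eval x < 0) := by
  have hF : ContinuousOn (fun x => F.eval x) (Set.Ioi 0) := F.continuous.continuousOn
  rcases lt_or_gt_of_ne (h 1 one_pos) with h1 | h1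
  · right
    intro x hx
    by_contra hc
    rw [not_lt] at hc
    obtain ⟨y, hy, h2⟩ := isPreconnected_Ioi.intermediate_value (Set.mem_Ioi.2 one_pos)
      (Set.mem_Ioi.2 hx) hF ⟨h1.le, hc⟩
    exact h y hy h2
  · left
    intro x hx
    by_contra hc
    rw [not_lt] at hc
    obtain ⟨y, hy, h2⟩ := isPreconnected_Ioi.intermediate_value (Set.mem_Ioi.2 hx)
      (Set.mem_Ioi.2 one_pos) hF ⟨hc, h1.le⟩
    exact h y hy h2

private theorem tp_cofactor (P W P₂ : Polynomial ℝ) (hP : P ≠ 0) (M : Multiset ℝ)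
    (hM : ∀ x ∈ M, 0 < x) (hW : W = (M.map (fun a => Polynomial.X - Polynomial.C a)).prod)
    (hPW : P = W * P₂) (hle : P.roots.countP (fun x => 0 < x) ≤ M.card) :
    ∀ x, 0 < x → P₂.eval x ≠ 0 := by
  have h0 : W * P₂ ≠ 0 := by rw [← hPW]; exact hP
  have h1 : P.roots = M + P₂.roots := by
    rw [hPW, Polynomial.roots_mul h0, hW, Polynomial.roots_multiset_prod_X_sub_C]
  intro x hx hx0
  have h2 : P₂ ≠ 0 := right_ne_zero_of_mul h0
  have h3 : x ∈ P₂.roots := (Polynomial.mem_roots h2).2 hx0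
  have h4 : 0 < P₂.roots.countP (fun x => 0 < x) := Multiset.countP_pos.2 ⟨x, h3, hx⟩
  have h5 : M.countP (fun x => 0 < x) = M.card := Multiset.countP_eq_card.2 hM
  rw [h1, Multiset.countP_add, h5] at hle
  omega

theorem tp {m : ℕ} (p q : Fin m → ℕ) (hp : Function.Injective p) (hq : Function.Injective q)
    (h2 : ∀ i, 2 ≤ p i) (lam : Fin m → ℝ)
    (h : ∀ k, ∑ l, lam l * ∑' n : ℕ, (((n : ℝ) + 1) ^ (p k + q l))⁻¹ = 0) : lam = 0 := by
  classical
  by_contra hlam
  obtain ⟨l0, hl0⟩ : ∃ l, lam l ≠ 0 := by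
    by_contra hno
    push Not at hno
    exact hlam (funext hno)
  obtain ⟨P, hPd⟩ : ∃ P : Polynomial ℝ, P = ∑ l, lam l • (Polynomial.X : Polynomial ℝ) ^ (q l) :=
    ⟨_, rfl⟩
  have hP : P ≠ 0 := by
    intro h0
    apply hl0
    rw [← tp_coeff q hq lam l0, ← hPd, h0, Polynomial.coeff_zero]
  have hPs : P.support.card ≤ m := by rw [hPd]; exact tp_supp q lam
  have hPr := countP_pos_roots_le P hP
  obtain ⟨M, hMd⟩ : ∃ M : Multiset ℝ, M = P.roots.filter (fun x => 0 < x) := ⟨_, rfl⟩
  have hMpos : ∀ x ∈ M, 0 < x := by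
    intro x hx
    rw [hMd] at hx
    exact (Multiset.mem_filter.1 hx).2
  have hMc : P.roots.countP (fun x => 0 < x) = M.card := by
    rw [hMd, Multiset.countP_eq_card_filter]
  obtain ⟨W, hWd⟩ : ∃ W : Polynomial ℝ, W = (M.map (fun a => Polynomial.X - Polynomial.C a)).prod :=
    ⟨_, rfl⟩
  have hWm : W.Monic := by
    rw [hWd]
    exact Polynomial.monic_multiset_prod_of_monic _ _ fun a _ => Polynomial.monic_X_sub_C a
  obtain ⟨c, hc⟩ : ∃ c, c = M.card := ⟨_, rfl⟩
  have hWn : W.natDegree = c := by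
    rw [hWd, Polynomial.natDegree_multiset_prod_X_sub_C_eq_card, hc]
  have hWP : W ∣ P := by
    rw [hWd, Multiset.prod_X_sub_C_dvd_iff_le_roots hP, hMd]
    exact Multiset.filter_le _ _
  obtain ⟨P₂, hP₂⟩ := hWP
  have hcm : c + 1 ≤ m := by omega
  obtain ⟨mu, hmu, hdvd⟩ := tp_div (fun k => p (Fin.castLE hcm k)) W hWm hWn
  obtain ⟨Q, hQd⟩ : ∃ Q : Polynomial ℝ,
      Q = ∑ k, mu k • (Polynomial.X : Polynomial ℝ) ^ (p (Fin.castLE hcm k)) := ⟨_, rfl⟩
  have hpi : Function.Injective (fun k => p (Fin.castLE hcm k)) :=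
    hp.comp (Fin.castLE_injective hcm)
  have hQ : Q ≠ 0 := by
    intro h0
    apply hmu
    funext k
    have h3 := tp_coeff (fun k => p (Fin.castLE hcm k)) hpi mu k
    rw [← hQd, h0, Polynomial.coeff_zero] at h3
    exact h3.symm
  have hQs : Q.support.card ≤ c + 1 := by
    rw [hQd]
    exact tp_supp (fun k => p (Fin.castLE hcm k)) mu
  have hQr := countP_pos_roots_le Q hQ
  rw [← hQd] at hdvd
  obtain ⟨Q₂, hQ₂⟩ := hdvd
  have hp2 := tp_cofactor P W P₂ hP M hMpos hWd hP₂ (by omega)
  have hq2 := tp_cofactor Q W Q₂ hQ M hMpos hWd hQ₂ (by omega)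
  have hsgn := tp_sign (P₂ * Q₂) (fun x hx => by
    rw [Polynomial.eval_mul]
    exact mul_ne_zero (hp2 x hx) (hq2 x hx))
  -- the series
  obtain ⟨w, hw⟩ : ∃ w : ℕ → ℝ, ∀ n, w n = ((n : ℝ) + 1)⁻¹ := ⟨_, fun _ => rfl⟩
  have hw0 : ∀ n, 0 < w n := fun n => by
    rw [hw]
    positivity
  have hsum : ∀ e : ℕ, 2 ≤ e → Summable (fun n : ℕ => (w n) ^ e) := by
    intro e he
    have h3 := (summable_nat_add_iff 1).2 (Real.summable_nat_pow_inv.2 (by omega : 1 < e))
    refine h3.congr fun n => ?_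
    rw [hw, inv_pow]
    push_cast
    rfl
  have hts : ∀ e : ℕ, ∑' n : ℕ, (((n : ℝ) + 1) ^ e)⁻¹ = ∑' n : ℕ, (w n) ^ e := by
    intro e
    refine tsum_congr fun n => ?_
    rw [hw, inv_pow]
  have hk : ∀ k, HasSum (fun n => (w n) ^ (p k) * P.eval (w n)) 0 := by
    intro k
    have h3 : HasSum (fun n => ∑ l, lam l * (w n) ^ (p k + q l))
        (∑ l, lam l * ∑' n : ℕ, (w n) ^ (p k + q l)) := by
      apply hasSum_sum
      intro l _
      exact (hsum (p k + q l) (by have := h2 k; omega)).hasSum.mul_left (lam l)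
    have h4 : ∑ l, lam l * ∑' n : ℕ, (w n) ^ (p k + q l) = 0 := by
      rw [← h k]
      refine Finset.sum_congr rfl fun l _ => ?_
      rw [hts]
    rw [h4] at h3
    have e : (fun n => ∑ l, lam l * (w n) ^ (p k + q l)) =
        fun n => (w n) ^ (p k) * P.eval (w n) := by
      funext n
      rw [hPd, tp_eval, Finset.mul_sum]
      refine Finset.sum_congr rfl fun l _ => ?_
      rw [pow_add]
      ring
    rw [e] at h3
    exact h3
  have hQP : HasSum (fun n => (W.eval (w n)) ^ 2 * (P₂ * Q₂).eval (w n)) 0 := by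
    have h3 : HasSum (fun n => ∑ k, mu k * ((w n) ^ (p (Fin.castLE hcm k)) * P.eval (w n)))
        (∑ k, mu k * 0) := hasSum_sum fun k _ => (hk (Fin.castLE hcm k)).mul_left (mu k)
    have h4 : ∑ k, mu k * (0 : ℝ) = 0 := by simp
    rw [h4] at h3
    have e : (fun n => ∑ k, mu k * ((w n) ^ (p (Fin.castLE hcm k)) * P.eval (w n))) =
        fun n => (W.eval (w n)) ^ 2 * (P₂ * Q₂).eval (w n) := by
      funext n
      have h5 : ∑ k, mu k * ((w n) ^ (p (Fin.castLE hcm k)) * P.eval (w n)) =
          Q.eval (w n) * P.eval (w n) := by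
        rw [hQd, tp_eval, Finset.sum_mul]
        exact Finset.sum_congr rfl fun k _ => by ring
      rw [h5, hQ₂, hP₂, Polynomial.eval_mul, Polynomial.eval_mul, Polynomial.eval_mul]
      ring
    rw [e] at h3
    exact h3
  have hF0 : ∀ n, (P₂ * Q₂).eval (w n) ≠ 0 := fun n => by
    rcases hsgn with h3 | h3
    · exact (h3 _ (hw0 n)).ne'
    · exact (h3 _ (hw0 n)).ne
  have hz : ∀ n, (W.eval (w n)) ^ 2 * (P₂ * Q₂).eval (w n) = 0 := by
    rcases hsgn with h3 | h3
    · have h4 := (hasSum_zero_iff_of_nonneg (fun n =>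
        mul_nonneg (sq_nonneg (W.eval (w n))) (h3 _ (hw0 n)).le)).1 hQP
      exact fun n => congrFun h4 n
    · have h5 : HasSum (fun n => -((W.eval (w n)) ^ 2 * (P₂ * Q₂).eval (w n))) 0 := by
        have := hQP.neg
        rwa [neg_zero] at this
      have h4 := (hasSum_zero_iff_of_nonneg (fun n => by
        have := mul_nonneg (sq_nonneg (W.eval (w n))) (neg_nonneg.2 (h3 _ (hw0 n)).le)
        rw [mul_neg] at this
        exact this)).1 h5
      intro n
      have h6 := congrFun h4 n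
      simp only [Pi.zero_apply] at h6
      linarith
  apply hWm.ne_zero
  apply Polynomial.eq_zero_of_infinite_isRoot
  refine Set.infinite_of_injective_forall_mem (f := w) ?_ ?_
  · intro n n' hnn
    rw [hw, hw, inv_inj] at hnn
    have : (n : ℝ) = n' := by linarith
    exact_mod_cast this
  · intro n
    have h3 := hz n
    rcases mul_eq_zero.1 h3 with h4 | h4
    · exact (sq_eq_zero_iff).1 h4
    · exact absurd h4 (hF0 n)

end Pool.Agent.Work.MP_4d52ff_nt.R
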