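import Pool.Agent.Work.MP_4d52ff_nt.R.EvenZ
import Pool.Agent.Work.MP_4d52ff_nt.R.TP

/-!
MODULE Solve (size M).  Linear algebra: inverting the matrix `zeta(s - c) / pi^(s - c)`.

PROOF.  Enumerate `S` and `C` by `Fin m` (`Finset.orderIsoOfFin` or `Finset.equivFin`).
For `s ∈ S`, `c ∈ C` let `r s c : ℚ` with `zetaL [s - c] = r s c * pi ^ (s - c)` (`zetaL_even`).
The rational matrix `M = (r s c)` has trivial kernel: if `∑_c M s c * lam c = 0` for all `s` then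
`∑_c (lam c * pi^c) zeta(s - c) = 0`; with `L = max C` write `s - c = (s - L) + (L - c)`, so `TP.tp` with
`p = s - L ≥ 2`, `q = L - c` and `zetaL_tsum` gives `lam c * pi ^ c = 0`.
So `M` is invertible over `ℚ` (`Matrix.exists_mulVec_eq_zero_iff`, `Matrix.nonsing_inv_mul`), and with
`y s` the elements of the hypothesis,
`H c = ∑_s (M⁻¹) c s * (pi ^ s)⁻¹ * y s = ∑_s (pi ^ s)⁻¹ * ((M⁻¹) c s • y s)`.
-/

set_option autoImplicit false

namespace Pool.Agent.Work.MP_4d52ff_nt.R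

open Finset

private lemma ratMul_mem (Y : Submodule (algebraicClosure ℚ ℂ) ℂ) (q : ℚ) {y : ℂ} (hy : y ∈ Y) :
    (q : ℂ) * y ∈ Y := by
  have h := Y.smul_mem (algebraMap ℚ (algebraicClosure ℚ ℂ) q) hy
  rw [algebraMap_smul, Rat.smul_def] at h
  exact h

private lemma sum_reindex {S : Finset ℕ} {m : ℕ} (e : Fin m ≃ S) (F : ℕ → ℂ) :
    ∑ s ∈ S, F s = ∑ i : Fin m, F (e i) := by
  rw [← Finset.sum_coe_sort S F]
  exact (Equiv.sum_comp e (fun s : S => F s)).symm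

private lemma TP_use {m : ℕ} (s c : Fin m → ℕ) (hs : Function.Injective s) (hc : Function.Injective c)
    (L : ℕ) (hL : ∀ j, c j ≤ L) (hLs : ∀ i, L + 2 ≤ s i) (lam : Fin m → ℝ)
    (h : ∀ i, ∑ j, lam j * zetaL [s i - c j] = 0) : lam = 0 := by
  refine tp (fun i => s i - L) (fun j => L - c j) ?_ ?_ ?_ lam ?_
  · intro i i' hii
    apply hs
    have h1 := hLs i
    have h2 := hLs i'
    simp only at hii
    omega
  · intro i i' hii
    apply hc
    have h1 := hL i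
    have h2 := hL i'
    simp only at hii
    omega
  · intro i
    have := hLs i
    omega
  · intro i
    rw [← h i]
    refine Finset.sum_congr rfl fun j _ => ?_
    have h1 := hLs i
    have h2 := hL j
    rw [zetaL_tsum _ (by omega)]
    have e : s i - L + (L - c j) = s i - c j := by omega
    rw [e]

private lemma det_ne {m : ℕ} (s c : Fin m → ℕ) (hs : Function.Injective s) (hc : Function.Injective c)
    (hsc : ∀ i j, c j + 2 ≤ s i) (r : Fin m → Fin m → ℚ)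
    (hr : ∀ i j, zetaL [s i - c j] = (r i j : ℝ) * Real.pi ^ (s i - c j)) :
    (Matrix.of r).det ≠ 0 := by
  intro hdet
  obtain ⟨v, hv0, hv⟩ := Matrix.exists_mulVec_eq_zero_iff.2 hdet
  apply hv0
  rcases Nat.eq_zero_or_pos m with hm | hm
  · subst hm; exact Subsingleton.elim _ _
  have : Nonempty (Fin m) := ⟨⟨0, hm⟩⟩
  obtain ⟨j0, hj0⟩ := Finite.exists_max c
  set L := c j0 with hL
  have hLs : ∀ i, L + 2 ≤ s i := fun i => hsc i j0
  have hpi := Real.pi_pos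
  have key := TP_use s c hs hc L hj0 hLs (fun j => (v j : ℝ) * Real.pi ^ (c j)) ?_
  · funext j
    have h := congrFun key j
    simp only [Pi.zero_apply, mul_eq_zero, pow_eq_zero_iff', hpi.ne', false_and, or_false,
      Rat.cast_eq_zero] at h
    exact h
  · intro i
    have h := congrFun hv i
    have h2 : (∑ j, r i j * v j : ℚ) = 0 := h
    have h3 : (∑ j, (r i j : ℝ) * (v j : ℝ)) = 0 := by exact_mod_cast h2
    have h4 : ∀ j, (v j : ℝ) * Real.pi ^ (c j) * zetaL [s i - c j] =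
        Real.pi ^ (s i) * ((r i j : ℝ) * (v j : ℝ)) := by
      intro j
      have e : Real.pi ^ (s i) = Real.pi ^ (c j) * Real.pi ^ (s i - c j) := by
        rw [← pow_add]; congr 1; have := hsc i j; omega
      rw [hr, e]; ring
    simp only [h4]
    rw [← Finset.mul_sum, h3, mul_zero]

theorem solve (Y : Submodule (algebraicClosure ℚ ℂ) ℂ) (S C : Finset ℕ) (hSC : S.card = C.card)
    (hsc : ∀ s ∈ S, ∀ c ∈ C, c + 2 ≤ s ∧ Even (s - c)) (H : ℕ → ℂ)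
    (hH : ∀ s ∈ S, ∃ y ∈ Y, ∑ c ∈ C, ((zetaL [s - c] / Real.pi ^ (s - c) : ℝ) : ℂ) * H c =
      ((Real.pi : ℂ) ^ s)⁻¹ * y) :
    ∀ c ∈ C, ∃ y : ℕ → ℂ, (∀ s ∈ S, y s ∈ Y) ∧ H c = ∑ s ∈ S, ((Real.pi : ℂ) ^ s)⁻¹ * y s := by
  classical
  obtain ⟨m, hm⟩ : ∃ m, S.card = m := ⟨_, rfl⟩
  let eS : Fin m ≃ S := (S.equivFinOfCardEq hm).symm
  let eC : Fin m ≃ C := (C.equivFinOfCardEq (hSC.symm.trans hm)).symm
  have hr : ∀ i j : Fin m, ∃ r : ℚ, zetaL [(eS i : ℕ) - (eC j : ℕ)] =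
      (r : ℝ) * Real.pi ^ ((eS i : ℕ) - (eC j : ℕ)) := by
    intro i j
    obtain ⟨h1, h2⟩ := hsc _ (eS i).2 _ (eC j).2
    exact zetaL_even _ h2 (by omega)
  choose r hr using hr
  have hdet := det_ne (fun i => (eS i : ℕ)) (fun j => (eC j : ℕ))
    (fun i i' h => eS.injective (Subtype.ext h)) (fun i i' h => eC.injective (Subtype.ext h))
    (fun i j => (hsc _ (eS i).2 _ (eC j).2).1) r hr
  have hinv : (Matrix.of r)⁻¹ * (Matrix.of r) = 1 :=
    Matrix.nonsing_inv_mul _ (isUnit_iff_ne_zero.2 hdet)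
  have hy : ∀ i : Fin m, ∃ y ∈ Y, ∑ c ∈ C, ((zetaL [(eS i : ℕ) - c] / Real.pi ^ ((eS i : ℕ) - c) : ℝ) : ℂ) * H c =
      ((Real.pi : ℂ) ^ (eS i : ℕ))⁻¹ * y := fun i => hH _ (eS i).2
  choose y hyY hy using hy
  have hy2 : ∀ i : Fin m, ∑ j : Fin m, (r i j : ℂ) * H (eC j) = ((Real.pi : ℂ) ^ (eS i : ℕ))⁻¹ * y i := by
    intro i
    rw [← hy i, sum_reindex eC]
    refine Finset.sum_congr rfl fun j _ => ?_
    rw [hr i j, mul_div_assoc, div_self (pow_ne_zero _ Real.pi_pos.ne'), mul_one]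
    norm_cast
  intro c hc
  obtain ⟨j, hj⟩ := eC.surjective ⟨c, hc⟩
  have hcj : (eC j : ℕ) = c := by rw [hj]
  refine ⟨fun s => if h : s ∈ S then (((Matrix.of r)⁻¹ j (eS.symm ⟨s, h⟩) : ℚ) : ℂ) * y (eS.symm ⟨s, h⟩) else 0,
    ?_, ?_⟩
  · intro s hs
    simp only [dif_pos hs]
    exact ratMul_mem Y _ (hyY _)
  · rw [sum_reindex eS]
    have h1 : ∀ i : Fin m, (if h : (eS i : ℕ) ∈ S then (((Matrix.of r)⁻¹ j (eS.symm ⟨(eS i : ℕ), h⟩) : ℚ) : ℂ) *
        y (eS.symm ⟨(eS i : ℕ), h⟩) else 0) = (((Matrix.of r)⁻¹ j i : ℚ) : ℂ) * y i := by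
      intro i
      rw [dif_pos (eS i).2]
      have : eS.symm ⟨(eS i : ℕ), (eS i).2⟩ = i := by
        have : (⟨(eS i : ℕ), (eS i).2⟩ : S) = eS i := rfl
        rw [this, Equiv.symm_apply_apply]
      rw [this]
    simp only [h1]
    have h2 : ∀ i : Fin m, ((Real.pi : ℂ) ^ (eS i : ℕ))⁻¹ * ((((Matrix.of r)⁻¹ j i : ℚ) : ℂ) * y i) =
        (((Matrix.of r)⁻¹ j i : ℚ) : ℂ) * ∑ j' : Fin m, (r i j' : ℂ) * H (eC j') := by
      intro i
      rw [hy2]; ring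
    simp only [h2, Finset.mul_sum]
    rw [Finset.sum_comm]
    have h3 : ∀ j' : Fin m, ∑ i : Fin m, (((Matrix.of r)⁻¹ j i : ℚ) : ℂ) * ((r i j' : ℂ) * H (eC j')) =
        ((((Matrix.of r)⁻¹ * (Matrix.of r)) j j' : ℚ) : ℂ) * H (eC j') := by
      intro j'
      rw [Matrix.mul_apply]
      push_cast
      rw [Finset.sum_mul]
      refine Finset.sum_congr rfl fun i _ => ?_
      rw [Matrix.of_apply]; ring
    simp only [h3, hinv, Matrix.one_apply]
    rw [Finset.sum_eq_single j]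
    · rw [if_pos rfl, hcj]; simp
    · intro j' _ hne
      rw [if_neg hne.symm]; simp
    · intro h; exact absurd (Finset.mem_univ _) h

/-- coefficient form of `solve` -/
theorem solve_coeff (S C : Finset ℕ) (hSC : S.card = C.card)
    (hsc : ∀ s ∈ S, ∀ c ∈ C, c + 2 ≤ s ∧ Even (s - c)) (H : ℕ → ℂ) :
    ∀ c ∈ C, ∃ lam : ℕ → ℚ, H c = ∑ s ∈ S, (lam s : ℂ) *
      ∑ c' ∈ C, ((zetaL [s - c'] / Real.pi ^ (s - c') : ℝ) : ℂ) * H c' := by
  classical
  obtain ⟨m, hm⟩ : ∃ m, S.card = m := ⟨_, rfl⟩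
  let eS : Fin m ≃ S := (S.equivFinOfCardEq hm).symm
  let eC : Fin m ≃ C := (C.equivFinOfCardEq (hSC.symm.trans hm)).symm
  have hr : ∀ i j : Fin m, ∃ r : ℚ, zetaL [(eS i : ℕ) - (eC j : ℕ)] =
      (r : ℝ) * Real.pi ^ ((eS i : ℕ) - (eC j : ℕ)) := by
    intro i j
    obtain ⟨h1, h2⟩ := hsc _ (eS i).2 _ (eC j).2
    exact zetaL_even _ h2 (by omega)
  choose r hr using hr
  have hdet := det_ne (fun i => (eS i : ℕ)) (fun j => (eC j : ℕ))
    (fun i i' h => eS.injective (Subtype.ext h)) (fun i i' h => eC.injective (Subtype.ext h))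
    (fun i j => (hsc _ (eS i).2 _ (eC j).2).1) r hr
  have hinv : (Matrix.of r)⁻¹ * (Matrix.of r) = 1 :=
    Matrix.nonsing_inv_mul _ (isUnit_iff_ne_zero.2 hdet)
  have hy2 : ∀ i : Fin m, ∑ c ∈ C,
      ((zetaL [(eS i : ℕ) - c] / Real.pi ^ ((eS i : ℕ) - c) : ℝ) : ℂ) * H c =
      ∑ j : Fin m, (r i j : ℂ) * H (eC j) := by
    intro i
    rw [sum_reindex eC]
    refine Finset.sum_congr rfl fun j _ => ?_
    rw [hr i j, mul_div_assoc, div_self (pow_ne_zero _ Real.pi_pos.ne'), mul_one]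
    norm_cast
  intro c hc
  obtain ⟨j, hj⟩ := eC.surjective ⟨c, hc⟩
  have hcj : (eC j : ℕ) = c := by rw [hj]
  refine ⟨fun s => if h : s ∈ S then (Matrix.of r)⁻¹ j (eS.symm ⟨s, h⟩) else 0, ?_⟩
  rw [sum_reindex eS]
  have h1 : ∀ i : Fin m, (((if h : (eS i : ℕ) ∈ S then
      (Matrix.of r)⁻¹ j (eS.symm ⟨(eS i : ℕ), h⟩) else 0 : ℚ)) : ℂ) =
      (((Matrix.of r)⁻¹ j i : ℚ) : ℂ) := by
    intro i
    rw [dif_pos (eS i).2]
    have : eS.symm ⟨(eS i : ℕ), (eS i).2⟩ = i := by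
      have : (⟨(eS i : ℕ), (eS i).2⟩ : S) = eS i := rfl
      rw [this, Equiv.symm_apply_apply]
    rw [this]
  simp only [h1, hy2, Finset.mul_sum]
  rw [Finset.sum_comm]
  have h3 : ∀ j' : Fin m, ∑ i : Fin m, (((Matrix.of r)⁻¹ j i : ℚ) : ℂ) * ((r i j' : ℂ) * H (eC j')) =
      ((((Matrix.of r)⁻¹ * (Matrix.of r)) j j' : ℚ) : ℂ) * H (eC j') := by
    intro j'
    rw [Matrix.mul_apply]
    push_cast
    rw [Finset.sum_mul]
    refine Finset.sum_congr rfl fun i _ => ?_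
    rw [Matrix.of_apply]; ring
  simp only [h3, hinv, Matrix.one_apply]
  rw [Finset.sum_eq_single j]
  · rw [if_pos rfl, hcj]; simp
  · intro j' _ hne
    rw [if_neg hne.symm]; simp
  · intro h; exact absurd (Finset.mem_univ _) h

end Pool.Agent.Work.MP_4d52ff_nt.R
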