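import Pool.Agent.Work.MP_4d52ff_nt.R.Ins
import Pool.Agent.Work.MP_4d52ff_nt.R.Solve
import Pool.Agent.Work.MP_4d52ff_nt.R.Val

/-!
MODULE EvenBox (size L).  The main contradiction.

PROOF.  `B = 2 * 2^n * (2 * h^2 + 1)`.  Choose `x0 i < x1 i` in `X i`; for `e : Fin n → Bool` let
`xe i = x0 i` or `x1 i`, `c e = ∑ i, xe i`, `sgn e = (-1)^(number of true's)`.
(1) Fix `s ∈ S`; for each `e` let `a e` be the number of the hypothesis, `a e + c e = s`.  By `mul_mzv`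
`zetaL [a e] * mzv xe = sig (a e) xe + ∑ i, mzv (Function.update xe i (xe i + a e))`.
Multiply by `sgn e` and sum over `e`.  For fixed `i` the sum over `e` of
`sgn e * mzv (update xe i (xe i + a e))` is 0: `xe i + a e = s - ∑_{j ≠ i} xe j` does not depend on `e i`, so the
terms of `e` and of `e` with the `i`-th coordinate flipped cancel (`Finset.sum_involution`).
So `∑_e sgn e * zetaL [s - c e] * mzv xe ∈ Y` (as complex number), i.e. with
`H c = ∑_{e : c e = c} sgn e * pi^(-c) * mzv xe` and `C = univ.image c`: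
`∑_{c ∈ C} (zetaL [s - c] / pi^(s - c)) * H c = pi^(-s) * y`, `y ∈ Y`.
(2) `C.card ≤ 2^n`; `c0 = c (all false)` is attained only by `e = all false` (all other sums are bigger), so
`H c0 = pi^(-c0) * mzv x0 ≠ 0` (`mzv_pos`).
(3) `v` from `exists_val`, `U = vals v Y` (at most `h` elements, `vals_finite`), bad set `bad v U U` (`bad_finite`).
By `select` there is `S' ⊆ S` with `2 * 2^n` elements and no difference in the bad set; take disjoint `S1, S2 ⊆ S'`
with `C.card` elements each.  `solve` gives `H c0 = ∑_{s ∈ S1} (pi^s)⁻¹ * y s = ∑_{s ∈ S2} (pi^s)⁻¹ * y' s`.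
By `sum_ne` (valuations of the nonzero terms are pairwise different by the choice of `S'`)
`v (H c0) = (v pi)^(-s) * u = (v pi)^(-s') * u'` with `s ∈ S1`, `s' ∈ S2`, `u, u' ∈ U`, so `s' - s` or `s - s'` is
in the bad set: contradiction.
-/

set_option autoImplicit false

namespace Pool.Agent.Work.MP_4d52ff_nt.R

/-- the vertex `e` of the box -/
def vx {n : ℕ} (x0 x1 : Fin n → ℕ) (e : Fin n → Bool) : Fin n → ℕ :=
  fun i => if e i then x1 i else x0 i

/-- the sign of the vertex `e` -/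
def sg {n : ℕ} (e : Fin n → Bool) : ℤ := ∏ i, (if e i then (-1 : ℤ) else 1)

/-- the sum of the coordinates of the vertex `e` -/
def cs {n : ℕ} (x0 x1 : Fin n → ℕ) (e : Fin n → Bool) : ℕ := ∑ i, vx x0 x1 e i

lemma sg_flip {n : ℕ} (e : Fin n → Bool) (i : Fin n) :
    sg (Function.update e i (!(e i))) = - sg e := by
  unfold sg
  rw [← Finset.mul_prod_erase Finset.univ _ (Finset.mem_univ i),
    ← Finset.mul_prod_erase Finset.univ (fun i => if e i then (-1 : ℤ) else 1) (Finset.mem_univ i)]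
  have h : ∏ x ∈ Finset.univ.erase i,
        (if (Function.update e i (!(e i))) x = true then (-1 : ℤ) else 1) =
      ∏ x ∈ Finset.univ.erase i, (if e x = true then (-1 : ℤ) else 1) := by
    apply Finset.prod_congr rfl
    intro j hj
    rw [Function.update_of_ne (Finset.ne_of_mem_erase hj)]
  rw [h]
  cases hei : e i <;> simp [Function.update_self]

lemma low_flip {n : ℕ} (x0 x1 : Fin n → ℕ) (e : Fin n → Bool) (i : Fin n) (s : ℕ)
    (h1 : cs x0 x1 e ≤ s) (h2 : cs x0 x1 (Function.update e i (!(e i))) ≤ s) :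
    Function.update (vx x0 x1 (Function.update e i (!(e i)))) i
        (vx x0 x1 (Function.update e i (!(e i))) i + (s - cs x0 x1 (Function.update e i (!(e i))))) =
      Function.update (vx x0 x1 e) i (vx x0 x1 e i + (s - cs x0 x1 e)) := by
  have hoff : ∀ j, j ≠ i → vx x0 x1 (Function.update e i (!(e i))) j = vx x0 x1 e j := by
    intro j hj
    unfold vx
    rw [Function.update_of_ne hj]
  have hs : ∑ j ∈ Finset.univ.erase i, vx x0 x1 (Function.update e i (!(e i))) j =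
      ∑ j ∈ Finset.univ.erase i, vx x0 x1 e j :=
    Finset.sum_congr rfl fun j hj => hoff j (Finset.ne_of_mem_erase hj)
  have c1 : cs x0 x1 e = vx x0 x1 e i + ∑ j ∈ Finset.univ.erase i, vx x0 x1 e j :=
    (Finset.add_sum_erase Finset.univ (fun j => vx x0 x1 e j) (Finset.mem_univ i)).symm
  have c2 : cs x0 x1 (Function.update e i (!(e i))) =
      vx x0 x1 (Function.update e i (!(e i))) i + ∑ j ∈ Finset.univ.erase i, vx x0 x1 e j := by
    rw [← hs]
    exact (Finset.add_sum_erase Finset.univ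
      (fun j => vx x0 x1 (Function.update e i (!(e i))) j) (Finset.mem_univ i)).symm
  funext j
  by_cases hj : j = i
  · subst hj
    rw [Function.update_self, Function.update_self]
    omega
  · rw [Function.update_of_ne hj, Function.update_of_ne hj, hoff j hj]

lemma alt_zero {n : ℕ} (x0 x1 : Fin n → ℕ) (i : Fin n) (s : ℕ) (hs : ∀ e, cs x0 x1 e ≤ s)
    (f : (Fin n → ℕ) → ℝ) :
    ∑ e : Fin n → Bool, ((sg e : ℤ) : ℝ) *
      f (Function.update (vx x0 x1 e) i (vx x0 x1 e i + (s - cs x0 x1 e))) = 0 := by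
  have key : ∑ e : Fin n → Bool, ((sg e : ℤ) : ℝ) *
      f (Function.update (vx x0 x1 e) i (vx x0 x1 e i + (s - cs x0 x1 e))) =
      - ∑ e : Fin n → Bool, ((sg e : ℤ) : ℝ) *
      f (Function.update (vx x0 x1 e) i (vx x0 x1 e i + (s - cs x0 x1 e))) := by
    have hinv : Function.Involutive (fun e : Fin n → Bool => Function.update e i (!(e i))) := by
      intro e
      simp
    rw [← Finset.sum_neg_distrib]
    rw [← Equiv.sum_comp hinv.toPerm]
    apply Finset.sum_congr rfl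
    intro e _
    simp only [Function.Involutive.coe_toPerm]
    rw [low_flip x0 x1 e i s (hs _) (hs _), sg_flip]
    push_cast
    ring
  linarith

lemma alt_sum {n : ℕ} (x0 x1 : Fin n → ℕ) (h0 : ∀ i, 2 ≤ x0 i) (h1 : ∀ i, 2 ≤ x1 i) (s : ℕ)
    (hs : ∀ e, cs x0 x1 e + 2 ≤ s) :
    ∑ e : Fin n → Bool, ((sg e : ℤ) : ℝ) * (zetaL [s - cs x0 x1 e] * mzv (vx x0 x1 e)) =
      ∑ e : Fin n → Bool, ((sg e : ℤ) : ℝ) * sig (s - cs x0 x1 e) (vx x0 x1 e) := by
  have hv : ∀ e i, 2 ≤ vx x0 x1 e i := by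
    intro e i
    unfold vx
    split_ifs
    · exact h1 i
    · exact h0 i
  have h : ∀ e : Fin n → Bool, ((sg e : ℤ) : ℝ) * (zetaL [s - cs x0 x1 e] * mzv (vx x0 x1 e)) =
      ((sg e : ℤ) : ℝ) * sig (s - cs x0 x1 e) (vx x0 x1 e) + ∑ i : Fin n, ((sg e : ℤ) : ℝ) *
        mzv (Function.update (vx x0 x1 e) i (vx x0 x1 e i + (s - cs x0 x1 e))) := by
    intro e
    rw [mul_mzv _ (by have := hs e; omega) _ (hv e), mul_add, Finset.mul_sum]
  rw [Finset.sum_congr rfl fun e _ => h e, Finset.sum_add_distrib, Finset.sum_comm]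
  rw [Finset.sum_eq_zero (s := Finset.univ) (f := fun i : Fin n => _)]
  · rw [add_zero]
  · intro i _
    exact alt_zero x0 x1 i s (fun e => by have := hs e; omega) mzv

lemma cs_min {n : ℕ} (x0 x1 : Fin n → ℕ) (h : ∀ i, x0 i < x1 i) (e : Fin n → Bool)
    (he : cs x0 x1 e = cs x0 x1 (fun _ => false)) : e = fun _ => false := by
  by_contra hne
  have : ∃ i, e i = true := by
    by_contra hcon
    push Not at hcon
    apply hne
    funext i
    simpa using hcon i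
  obtain ⟨i, hi⟩ := this
  have hlt : cs x0 x1 (fun _ => false) < cs x0 x1 e := by
    unfold cs
    apply Finset.sum_lt_sum
    · intro j _
      unfold vx
      cases hej : e j <;> simp [(h j).le]
    · refine ⟨i, Finset.mem_univ i, ?_⟩
      unfold vx
      simp [hi, h i]
  omega

/-- the coefficient function -/
noncomputable def Hc {n : ℕ} (x0 x1 : Fin n → ℕ) (c : ℕ) : ℂ :=
  ∑ e ∈ Finset.univ.filter (fun e : Fin n → Bool => cs x0 x1 e = c),
    ((sg e : ℤ) : ℂ) * (((Real.pi : ℂ) ^ c)⁻¹ * ((mzv (vx x0 x1 e) : ℝ) : ℂ))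

lemma Hc_zero_ne {n : ℕ} (x0 x1 : Fin n → ℕ) (h0 : ∀ i, 2 ≤ x0 i) (h : ∀ i, x0 i < x1 i) :
    Hc x0 x1 (cs x0 x1 (fun _ => false)) ≠ 0 := by
  have hf : Finset.univ.filter (fun e : Fin n → Bool => cs x0 x1 e = cs x0 x1 (fun _ => false)) =
      {fun _ => false} := by
    ext e
    simp only [Finset.mem_filter, Finset.mem_univ, true_and, Finset.mem_singleton]
    constructor
    · exact cs_min x0 x1 h e
    · intro he
      rw [he]
  unfold Hc
  rw [hf, Finset.sum_singleton]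
  have hv : vx x0 x1 (fun _ => false) = x0 := by
    funext i
    simp [vx]
  have h1 : ((sg (fun _ : Fin n => false) : ℤ) : ℂ) ≠ 0 := by
    simp [sg]
  have h2 : ((Real.pi : ℂ) ^ (cs x0 x1 (fun _ => false)))⁻¹ ≠ 0 := by
    apply inv_ne_zero
    apply pow_ne_zero
    exact_mod_cast Real.pi_ne_zero
  have h3 : ((mzv (vx x0 x1 (fun _ => false)) : ℝ) : ℂ) ≠ 0 := by
    rw [hv]
    exact_mod_cast (mzv_pos x0 h0).ne'
  exact mul_ne_zero h1 (mul_ne_zero h2 h3)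

lemma Hc_sum {n : ℕ} (x0 x1 : Fin n → ℕ) (h0 : ∀ i, 2 ≤ x0 i) (h1 : ∀ i, 2 ≤ x1 i) (s : ℕ)
    (hs : ∀ e, cs x0 x1 e + 2 ≤ s) :
    ∑ c ∈ Finset.univ.image (cs x0 x1), ((zetaL [s - c] / Real.pi ^ (s - c) : ℝ) : ℂ) * Hc x0 x1 c =
      ((Real.pi : ℂ) ^ s)⁻¹ *
        ∑ e : Fin n → Bool, ((sg e : ℤ) : ℂ) * ((sig (s - cs x0 x1 e) (vx x0 x1 e) : ℝ) : ℂ) := by
  have hpi : (Real.pi : ℂ) ≠ 0 := by exact_mod_cast Real.pi_ne_zero
  have e1 : ∑ c ∈ Finset.univ.image (cs x0 x1),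
        ((zetaL [s - c] / Real.pi ^ (s - c) : ℝ) : ℂ) * Hc x0 x1 c =
      ∑ c ∈ Finset.univ.image (cs x0 x1),
        ∑ e ∈ Finset.univ.filter (fun e : Fin n → Bool => cs x0 x1 e = c),
          ((Real.pi : ℂ) ^ s)⁻¹ * (((sg e : ℤ) : ℂ) *
            (((zetaL [s - cs x0 x1 e] * mzv (vx x0 x1 e) : ℝ)) : ℂ)) := by
    apply Finset.sum_congr rfl
    intro c _
    unfold Hc
    rw [Finset.mul_sum]
    apply Finset.sum_congr rfl
    intro e he
    have hc : cs x0 x1 e = c := (Finset.mem_filter.1 he).2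
    subst hc
    have hp : (Real.pi : ℂ) ^ s =
        (Real.pi : ℂ) ^ (s - cs x0 x1 e) * (Real.pi : ℂ) ^ (cs x0 x1 e) := by
      rw [← pow_add]
      congr 1
      have := hs e
      omega
    rw [hp]
    push_cast
    field_simp
  rw [e1, Finset.sum_fiberwise_of_maps_to (fun e _ => Finset.mem_image_of_mem _ (Finset.mem_univ e)),
    ← Finset.mul_sum]
  congr 1
  have := alt_sum x0 x1 h0 h1 s hs
  have h2 := congrArg (fun t : ℝ => (t : ℂ)) this
  simp only [Complex.ofReal_sum, Complex.ofReal_mul, Complex.ofReal_intCast] at h2 ⊢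
  exact h2

section valpart

variable {Γ : Type} [LinearOrderedCommGroupWithZero Γ]

lemma v_term (v : Valuation ℂ Γ) (s : ℕ) (y : ℂ) :
    v (((Real.pi : ℂ) ^ s)⁻¹ * y) = (v (Real.pi : ℂ)) ^ (-(s : ℤ)) * v y := by
  rw [map_mul, map_inv₀, map_pow, zpow_neg, zpow_natCast]

lemma bad_of_eq (v : Valuation ℂ Γ) (hpi : 1 < v (Real.pi : ℂ))
    (Y : Submodule (algebraicClosure ℚ ℂ) ℂ) (s s' : ℕ) (y y' : ℂ) (hy : y ∈ Y) (hy' : y' ∈ Y)
    (h0 : y ≠ 0) (h0' : y' ≠ 0)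
    (h : v (((Real.pi : ℂ) ^ s)⁻¹ * y) = v (((Real.pi : ℂ) ^ s')⁻¹ * y')) :
    (s' : ℤ) - (s : ℤ) ∈ bad v (vals v Y) (vals v Y) := by
  refine ⟨v y, ⟨y, hy, h0, rfl⟩, v y', ⟨y', hy', h0', rfl⟩, ?_⟩
  rw [v_term, v_term] at h
  have hp : v (Real.pi : ℂ) ≠ 0 := (zero_lt_one.trans hpi).ne'
  rw [sub_eq_add_neg, zpow_add₀ hp, mul_assoc, h, ← mul_assoc, ← zpow_add₀ hp]
  simp

lemma v_of_sum (v : Valuation ℂ Γ) (hpi : 1 < v (Real.pi : ℂ))
    (Y : Submodule (algebraicClosure ℚ ℂ) ℂ) (S : Finset ℕ) (y : ℕ → ℂ) (hy : ∀ s ∈ S, y s ∈ Y)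
    (hS : ∀ s ∈ S, ∀ t ∈ S, s ≠ t → (s : ℤ) - (t : ℤ) ∉ bad v (vals v Y) (vals v Y))
    (H : ℂ) (hH : H = ∑ s ∈ S, ((Real.pi : ℂ) ^ s)⁻¹ * y s) (hH0 : H ≠ 0) :
    ∃ s ∈ S, y s ≠ 0 ∧ v H = v (((Real.pi : ℂ) ^ s)⁻¹ * y s) := by
  have hex : ∃ i ∈ S, ((Real.pi : ℂ) ^ i)⁻¹ * y i ≠ 0 := by
    by_contra hcon
    push Not at hcon
    exact hH0 (hH.trans (Finset.sum_eq_zero hcon))
  obtain ⟨_, i, hi, hne, hv⟩ := sum_ne v S (fun s => ((Real.pi : ℂ) ^ s)⁻¹ * y s) hex (by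
    intro i hi j hj hij h1 h2 heq
    exact hS j hj i hi (Ne.symm hij)
      (bad_of_eq v hpi Y i j (y i) (y j) (hy i hi) (hy j hj) (right_ne_zero_of_mul h1)
        (right_ne_zero_of_mul h2) heq))
  exact ⟨i, hi, right_ne_zero_of_mul hne, by rw [hH]; exact hv⟩

end valpart

theorem even_box (n h : ℕ) : ∃ B : ℕ, ∀ Y : Submodule (algebraicClosure ℚ ℂ) ℂ,
    Module.Finite (algebraicClosure ℚ ℂ) Y → Module.finrank (algebraicClosure ℚ ℂ) Y ≤ h →
    ∀ (X : Fin n → Finset ℕ) (S : Finset ℕ), (∀ i, 2 ≤ (X i).card) → B ≤ S.card →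
    (∀ i, ∀ c ∈ X i, 2 ≤ c) →
    (∀ x ∈ Fintype.piFinset X, ∀ s ∈ S, ∃ a, 2 ≤ a ∧ Even a ∧ a + ∑ i, x i = s ∧ (sig a x : ℂ) ∈ Y) →
    False := by
  refine ⟨(2 * 2 ^ n) * (2 * (h * h) + 1), ?_⟩
  intro Y hfin hdim X S hX hS hX2 hin
  -- the box
  have hch : ∀ i, ∃ p : ℕ × ℕ, p.1 ∈ X i ∧ p.2 ∈ X i ∧ p.1 < p.2 := by
    intro i
    obtain ⟨a, ha, b, hb, hab⟩ := Finset.one_lt_card.1 (hX i)
    rcases lt_or_gt_of_ne hab with h | h
    · exact ⟨(a, b), ha, hb, h⟩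
    · exact ⟨(b, a), hb, ha, h⟩
  choose p hp1 hp2 hp3 using hch
  set x0 : Fin n → ℕ := fun i => (p i).1 with hx0
  set x1 : Fin n → ℕ := fun i => (p i).2 with hx1
  have h0 : ∀ i, 2 ≤ x0 i := fun i => hX2 i _ (hp1 i)
  have h1 : ∀ i, 2 ≤ x1 i := fun i => hX2 i _ (hp2 i)
  have hlt : ∀ i, x0 i < x1 i := hp3
  have hmem : ∀ e, vx x0 x1 e ∈ Fintype.piFinset X := by
    intro e
    rw [Fintype.mem_piFinset]
    intro i
    unfold vx
    split_ifs
    · exact hp2 i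
    · exact hp1 i
  have hdat : ∀ s ∈ S, ∀ e, cs x0 x1 e + 2 ≤ s ∧ Even (s - cs x0 x1 e) ∧
      ((sig (s - cs x0 x1 e) (vx x0 x1 e) : ℝ) : ℂ) ∈ Y := by
    intro s hs e
    obtain ⟨a, ha2, hae, hsum, hY⟩ := hin _ (hmem e) s hs
    have hsum' : a + cs x0 x1 e = s := hsum
    have : s - cs x0 x1 e = a := by omega
    rw [this]
    exact ⟨by omega, hae, hY⟩
  set C : Finset ℕ := Finset.univ.image (cs x0 x1) with hC
  have hCcard : C.card ≤ 2 ^ n := by
    refine Finset.card_image_le.trans ?_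
    simp
  have hc0 : cs x0 x1 (fun _ => false) ∈ C := Finset.mem_image_of_mem _ (Finset.mem_univ _)
  -- the valuation
  obtain ⟨Γ, hΓ, v, hv, hvpi⟩ := exists_val
  have hVf := vals_finite v hv Y
  have hbad := bad_finite v hvpi (vals v Y) (vals v Y) hVf.1 hVf.1 (by
    rintro u ⟨y, _, hy0, rfl⟩
    exact (Valuation.ne_zero_iff v).2 hy0)
  have hcard : (bad v (vals v Y) (vals v Y)).ncard ≤ h * h :=
    hbad.2.trans (Nat.mul_le_mul (hVf.2.trans hdim) (hVf.2.trans hdim))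
  obtain ⟨S', hS'S, hS'card, hS'⟩ := select S _ hbad.1 (2 * C.card) (by
    refine le_trans ?_ hS
    exact Nat.mul_le_mul (Nat.mul_le_mul le_rfl hCcard) (by omega))
  obtain ⟨S1, hS1, hS1card⟩ := Finset.exists_subset_card_eq (s := S') (n := C.card) (by omega)
  have hS2card : (S' \ S1).card = C.card := by
    rw [Finset.card_sdiff_of_subset hS1]
    omega
  have hsolve : ∀ T : Finset ℕ, T ⊆ S' → T.card = C.card →
      ∃ s ∈ T, ∃ y ∈ Y, y ≠ 0 ∧ v (Hc x0 x1 (cs x0 x1 (fun _ => false))) =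
        v (((Real.pi : ℂ) ^ s)⁻¹ * y) := by
    intro T hT hTc
    obtain ⟨y, hy, hH⟩ := solve Y T C hTc (by
      intro s hs c hc
      obtain ⟨e, _, rfl⟩ := Finset.mem_image.1 hc
      have := hdat s (hS'S (hT hs)) e
      exact ⟨this.1, this.2.1⟩) (Hc x0 x1) (by
      intro s hs
      have hd := hdat s (hS'S (hT hs))
      refine ⟨_, ?_, Hc_sum x0 x1 h0 h1 s (fun e => (hd e).1)⟩
      apply Y.sum_mem
      intro e _
      rw [← zsmul_eq_mul]
      exact zsmul_mem (hd e).2.2 _) _ hc0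
    obtain ⟨s, hs, hys, hvs⟩ := v_of_sum v hvpi Y T y hy
      (fun s hs t ht hst => hS' s (hT hs) t (hT ht) hst) _ hH (Hc_zero_ne x0 x1 h0 hlt)
    exact ⟨s, hs, y s, hy s hs, hys, hvs⟩
  obtain ⟨s, hs, y, hy, hy0, hvs⟩ := hsolve S1 hS1 hS1card
  obtain ⟨t, ht, z, hz, hz0, hvt⟩ := hsolve (S' \ S1) Finset.sdiff_subset hS2card
  have hst : t ≠ s := by
    rintro rfl
    exact (Finset.mem_sdiff.1 ht).2 hs
  exact hS' t (Finset.sdiff_subset ht) s (hS1 hs) hst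
    (bad_of_eq v hvpi Y s t y z hy hz hy0 hz0 (hvs.symm.trans hvt))

end Pool.Agent.Work.MP_4d52ff_nt.R
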