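import Pool.Agent.Work.MP_4d52ff_nt.R.Unif

/-!
MODULE Half (size L).  At least a proportion 1/d of the multiple zeta values of depth d lies outside `Y`.

`idx d N` = admissible indices of depth `d` and weight at most `N` with at least one even entry (all of them if
`d = 2`).  We prove `#{k ∈ idx d N : mzv k ∈ Y} ≤ (1 - 1/d) #idx + C N^(d - η)`.

PROOF.  `n = d - 1`.  Let `P` be the set of `k ∈ idx d N` with all entries at least 2; the others are at most
`d (N+1)^(d-1)` in number (some entry is 1).  For an index `k` let `ev k` be the number of even entries.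
Even part: `P' = {k ∈ P : ev k ≥ 1}`, `Fam` = set of `(a, x)`, `a` even, all entries at least 2, weight at most `N`.
The pairs `(k, i)` with `k ∈ P'`, `k i` even correspond bijectively to `((a, x), i)`, `(a, x) ∈ Fam`,
`k = ins a x i` (`Fin.insertNth` / `Fin.removeNth`), and `ev k = 1 + ev x`.  So
`#P' = ∑_{k ∈ P'} ∑_{i : k i even} 1 / ev k = ∑_{(a,x) ∈ Fam} d / (1 + ev x)`, and
`#{k ∈ P' : mzv k ∉ Y} = ∑_{(a,x) ∈ Fam} ∑_i [mzv (ins a x i) ∉ Y] / (1 + ev x)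
   ≥ ∑_{(a,x) ∈ Fam, not in G} 1 / (1 + ev x) ≥ #P' / d - #G`
where `G = {(a,x) ∈ Fam : sig a x ∈ Y}` (if all insertions are in `Y` then `sig a x ∈ Y`), and
`#G ≤ C N^(d-η)` by `unif`.
Odd part (`d = 2`): for odd `a, b` the pairs `(a, b), (b, a)`: `#{(a,b) odd : mzv ![a,b] ∈ Y} =
#{(a,b) odd : mzv ![b,a] ∈ Y}`, and both at once only if `sig a ![b] ∈ Y`, at most `C N^(2-η)` pairs.
-/

set_option autoImplicit false

namespace Pool.Agent.Work.MP_4d52ff_nt.R

/-- the admissible indices of depth `d` and weight at most `N` with at least one even entry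
(all admissible indices of weight at most `N` if `d = 2`) -/
def idx (d N : ℕ) : Finset (Fin d → ℕ) :=
  (Fintype.piFinset fun _ => Finset.range (N + 1)).filter
    (fun k => (∀ i, 1 ≤ k i) ∧ (∀ h : 0 < d, 2 ≤ k ⟨0, h⟩) ∧ ∑ i, k i ≤ N ∧ (d = 2 ∨ ∃ i, Even (k i)))

/-- the indices with all entries at least two -/
private def halfP (n N : ℕ) : Finset (Fin (n + 1) → ℕ) :=
  (idx (n + 1) N).filter fun k => ∀ i, 2 ≤ k i

private lemma half_le_sum {m : ℕ} (k : Fin m → ℕ) (i : Fin m) : k i ≤ ∑ i, k i :=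
  Finset.single_le_sum (f := k) (fun _ _ => Nat.zero_le _) (Finset.mem_univ i)

private lemma mem_halfP {n N : ℕ} (k : Fin (n + 1) → ℕ) :
    k ∈ halfP n N ↔ (∀ i, 2 ≤ k i) ∧ ∑ i, k i ≤ N ∧ (n = 1 ∨ ∃ i, Even (k i)) := by
  rw [halfP, Finset.mem_filter, idx, Finset.mem_filter, Fintype.mem_piFinset]
  constructor
  · rintro ⟨⟨-, -, -, h1, h2⟩, h3⟩
    refine ⟨h3, h1, h2.imp (fun h => by omega) id⟩
  · rintro ⟨h1, h2, h3⟩
    refine ⟨⟨fun i => ?_, fun i => (by norm_num : (1 : ℕ) ≤ 2).trans (h1 i), fun _ => h1 _, h2,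
      h3.imp (fun h => by omega) id⟩, h1⟩
    rw [Finset.mem_range]
    have := half_le_sum k i
    omega

/-- the pairs `(a, x)` with `a` even -/
private def halfFam (n N : ℕ) : Finset (ℕ × (Fin n → ℕ)) :=
  ((Finset.Icc 2 N) ×ˢ (Fintype.piFinset fun _ => Finset.Icc 2 N)).filter
    fun p => Even p.1 ∧ p.1 + ∑ i, p.2 i ≤ N

private lemma mem_halfFam {n N : ℕ} (p : ℕ × (Fin n → ℕ)) :
    p ∈ halfFam n N ↔ 2 ≤ p.1 ∧ (∀ i, 2 ≤ p.2 i) ∧ Even p.1 ∧ p.1 + ∑ i, p.2 i ≤ N := by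
  rw [halfFam, Finset.mem_filter, Finset.mem_product, Fintype.mem_piFinset, Finset.mem_Icc]
  constructor
  · rintro ⟨⟨⟨h1, -⟩, h2⟩, h3, h4⟩
    exact ⟨h1, fun i => (Finset.mem_Icc.1 (h2 i)).1, h3, h4⟩
  · rintro ⟨h1, h2, h3, h4⟩
    refine ⟨⟨⟨h1, by omega⟩, fun i => Finset.mem_Icc.2 ⟨h2 i, ?_⟩⟩, h3, h4⟩
    have := half_le_sum p.2 i
    omega

/-- the number of even entries -/
private noncomputable def halfEv {m : ℕ} (k : Fin m → ℕ) : ℝ :=
  ∑ i, if Even (k i) then (1 : ℝ) else 0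

private lemma halfEv_nonneg {m : ℕ} (k : Fin m → ℕ) : 0 ≤ halfEv k :=
  Finset.sum_nonneg fun i _ => by split_ifs <;> norm_num

private lemma halfEv_split {n : ℕ} (k : Fin (n + 1) → ℕ) (i : Fin (n + 1)) (h : Even (k i)) :
    halfEv k = 1 + halfEv (i.removeNth k) := by
  unfold halfEv
  rw [Fin.sum_univ_succAbove _ i, if_pos h]
  rfl

private lemma half_ins_self {n : ℕ} (a : ℕ) (x : Fin n → ℕ) (i : Fin (n + 1)) :
    ins a x i i = a := by
  unfold ins
  exact Fin.insertNth_apply_same (α := fun _ => ℕ) i a x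

private lemma half_ins_succAbove {n : ℕ} (a : ℕ) (x : Fin n → ℕ) (i : Fin (n + 1)) (j : Fin n) :
    ins a x i (i.succAbove j) = x j := by
  unfold ins
  exact Fin.insertNth_apply_succAbove (α := fun _ => ℕ) i a x j

private lemma half_remove_ins {n : ℕ} (a : ℕ) (x : Fin n → ℕ) (i : Fin (n + 1)) :
    (i.removeNth (ins a x i) : Fin n → ℕ) = x := by
  funext j
  exact half_ins_succAbove a x i j

private lemma half_ins_remove {n : ℕ} (k : Fin (n + 1) → ℕ) (i : Fin (n + 1)) :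
    ins (k i) (i.removeNth k) i = k := by
  funext j
  rcases Fin.eq_self_or_eq_succAbove i j with rfl | ⟨j, rfl⟩
  · rw [half_ins_self]
  · rw [half_ins_succAbove]
    rfl

private lemma half_ins_sum {n : ℕ} (a : ℕ) (x : Fin n → ℕ) (i : Fin (n + 1)) :
    ∑ j, ins a x i j = a + ∑ j, x j := by
  rw [Fin.sum_univ_succAbove _ i, half_ins_self]
  simp only [half_ins_succAbove]

private lemma half_dc (n N : ℕ) (hn : n ≠ 1) (φ : (Fin (n + 1) → ℕ) → ℝ) :
    ∑ k ∈ halfP n N, φ k =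
      ∑ p ∈ halfFam n N, ∑ i : Fin (n + 1), φ (ins p.1 p.2 i) / (1 + halfEv p.2) := by
  classical
  have h1 : ∀ k ∈ halfP n N, φ k =
      ∑ i : Fin (n + 1), if Even (k i) then φ k / halfEv k else 0 := by
    intro k hk
    obtain ⟨-, -, h2⟩ := (mem_halfP k).1 hk
    obtain ⟨i, hi⟩ := h2.resolve_left hn
    have h3 : 0 < halfEv k := by
      rw [halfEv_split k i hi]
      have := halfEv_nonneg (i.removeNth k)
      linarith
    have h4 : ∀ i : Fin (n + 1), (if Even (k i) then φ k / halfEv k else 0) =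
        (if Even (k i) then (1 : ℝ) else 0) * (φ k / halfEv k) := by
      intro i
      split_ifs <;> simp
    rw [Finset.sum_congr rfl fun i _ => h4 i, ← Finset.sum_mul]
    show φ k = halfEv k * (φ k / halfEv k)
    field_simp
  rw [Finset.sum_congr rfl h1, ← Finset.sum_product', ← Finset.sum_product']
  rw [← Finset.sum_filter]
  refine Finset.sum_nbij' (fun q => ((q.1 q.2, q.2.removeNth q.1), q.2))
    (fun q => (ins q.1.1 q.1.2 q.2, q.2)) ?_ ?_ ?_ ?_ ?_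
  · rintro ⟨k, i⟩ hq
    rw [Finset.mem_filter, Finset.mem_product] at hq
    obtain ⟨⟨hk, -⟩, hi⟩ := hq
    obtain ⟨h2, h3, -⟩ := (mem_halfP k).1 hk
    refine Finset.mem_product.2 ⟨(mem_halfFam _).2 ⟨h2 i, fun j => h2 _, hi, ?_⟩,
      Finset.mem_univ _⟩
    rw [Fin.sum_univ_succAbove _ i] at h3
    exact h3
  · rintro ⟨⟨a, x⟩, i⟩ hq
    obtain ⟨hp, -⟩ := Finset.mem_product.1 hq
    obtain ⟨h2, h3, h4, h5⟩ := (mem_halfFam _).1 hp
    rw [Finset.mem_filter, Finset.mem_product]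
    refine ⟨⟨(mem_halfP _).2 ⟨fun j => ?_, ?_, Or.inr ⟨i, ?_⟩⟩, Finset.mem_univ _⟩, ?_⟩
    · rcases Fin.eq_self_or_eq_succAbove i j with rfl | ⟨j, rfl⟩
      · show 2 ≤ ins a x j j
        rw [half_ins_self]
        exact h2
      · show 2 ≤ ins a x i (i.succAbove j)
        rw [half_ins_succAbove]
        exact h3 j
    · show ∑ j, ins a x i j ≤ N
      rw [half_ins_sum]
      exact h5
    · show Even (ins a x i i)
      rw [half_ins_self]
      exact h4
    · show Even (ins a x i i)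
      rw [half_ins_self]
      exact h4
  · rintro ⟨k, i⟩ _
    exact Prod.ext (half_ins_remove k i) rfl
  · rintro ⟨⟨a, x⟩, i⟩ _
    exact Prod.ext (Prod.ext (half_ins_self a x i) (half_remove_ins a x i)) rfl
  · rintro ⟨k, i⟩ hq
    rw [Finset.mem_filter] at hq
    show φ k / halfEv k = φ (ins (k i) (i.removeNth k) i) / (1 + halfEv (i.removeNth k))
    rw [half_ins_remove, ← halfEv_split k i hq.2]

open Classical in
private lemma half_even (n h : ℕ) (hn : n ≠ 1) : ∃ C η : ℝ, 0 ≤ C ∧ 0 < η ∧ ∀ N : ℕ, 1 ≤ N →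
    ∀ Y : Submodule (algebraicClosure ℚ ℂ) ℂ, Module.Finite (algebraicClosure ℚ ℂ) Y →
    Module.finrank (algebraicClosure ℚ ℂ) Y ≤ h →
    (((halfP n N).filter (fun k => ((mzv k : ℝ) : ℂ) ∈ Y)).card : ℝ) ≤
      (1 - 1 / ((n : ℝ) + 1)) * ((halfP n N).card : ℝ) + C * (N : ℝ) ^ ((n : ℝ) + 1 - η) := by
  obtain ⟨C, η, hη, h1⟩ := unif n h
  refine ⟨|C|, η, abs_nonneg C, hη, ?_⟩
  intro N hN Y hY hYh
  let G := (halfFam n N).filter fun p => ((sig p.1 p.2 : ℝ) : ℂ) ∈ Y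
  have hG : (G.card : ℝ) ≤ |C| * (N : ℝ) ^ ((n : ℝ) + 1 - η) := by
    refine (h1 N hN Y hY hYh G fun p hp => ?_).trans
      (mul_le_mul_of_nonneg_right (le_abs_self C) (by positivity))
    obtain ⟨h2, h3⟩ := Finset.mem_filter.1 hp
    obtain ⟨h4, h5, h6, h7⟩ := (mem_halfFam p).1 h2
    refine ⟨Finset.mem_Icc.2 ⟨h4, by omega⟩, fun i => Finset.mem_Icc.2 ⟨h5 i, ?_⟩, Or.inl h6, h3⟩
    have := half_le_sum p.2 i
    omega
  have hn0 : (0 : ℝ) < (n : ℝ) + 1 := by positivity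
  -- the number of indices
  have e1 : ((halfP n N).card : ℝ) = ((n : ℝ) + 1) * ∑ p ∈ halfFam n N, 1 / (1 + halfEv p.2) := by
    have h2 := half_dc n N hn (fun _ => 1)
    rw [Finset.sum_const, nsmul_eq_mul, mul_one] at h2
    rw [h2, Finset.mul_sum]
    refine Finset.sum_congr rfl fun p _ => ?_
    rw [Finset.sum_const, Finset.card_univ, Fintype.card_fin, nsmul_eq_mul]
    push_cast
    rfl
  -- the number of good indices
  have e2 : ∑ p ∈ halfFam n N, 1 / (1 + halfEv p.2) - (G.card : ℝ) ≤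
      ∑ k ∈ halfP n N, if ((mzv k : ℝ) : ℂ) ∈ Y then (0 : ℝ) else 1 := by
    rw [half_dc n N hn]
    have h2 : (G.card : ℝ) = ∑ p ∈ halfFam n N, if ((sig p.1 p.2 : ℝ) : ℂ) ∈ Y then (1 : ℝ) else 0 := by
      rw [Finset.sum_ite, Finset.sum_const_zero, add_zero, Finset.sum_const, nsmul_eq_mul, mul_one]
    rw [h2, ← Finset.sum_sub_distrib]
    refine Finset.sum_le_sum fun p _ => ?_
    have h3 : (0 : ℝ) < 1 + halfEv p.2 := by
      have := halfEv_nonneg p.2
      linarith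
    have h4 : ∀ i : Fin (n + 1), 0 ≤ (if ((mzv (ins p.1 p.2 i) : ℝ) : ℂ) ∈ Y then (0 : ℝ) else 1) /
        (1 + halfEv p.2) := by
      intro i
      refine div_nonneg ?_ h3.le
      split_ifs <;> norm_num
    by_cases h5 : ((sig p.1 p.2 : ℝ) : ℂ) ∈ Y
    · rw [if_pos h5]
      have h6 : 1 / (1 + halfEv p.2) ≤ 1 := by
        rw [div_le_one h3]
        have := halfEv_nonneg p.2
        linarith
      have h7 := Finset.sum_nonneg fun i (_ : i ∈ Finset.univ) => h4 i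
      linarith
    · rw [if_neg h5, sub_zero]
      have h6 : ∃ i : Fin (n + 1), ((mzv (ins p.1 p.2 i) : ℝ) : ℂ) ∉ Y := by
        by_contra h7
        push Not at h7
        apply h5
        unfold sig
        rw [Complex.ofReal_sum]
        exact Submodule.sum_mem _ fun i _ => h7 i
      obtain ⟨i, hi⟩ := h6
      have h7 := Finset.single_le_sum (fun i _ => h4 i) (Finset.mem_univ i)
      rw [if_neg hi] at h7
      exact h7
  have e3 : (((halfP n N).filter (fun k => ((mzv k : ℝ) : ℂ) ∈ Y)).card : ℝ) =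
      ((halfP n N).card : ℝ) - ∑ k ∈ halfP n N, if ((mzv k : ℝ) : ℂ) ∈ Y then (0 : ℝ) else 1 := by
    have h2 : (((halfP n N).filter (fun k => ((mzv k : ℝ) : ℂ) ∈ Y)).card : ℝ) =
        ∑ k ∈ halfP n N, if ((mzv k : ℝ) : ℂ) ∈ Y then (1 : ℝ) else 0 := by
      rw [Finset.sum_ite, Finset.sum_const_zero, add_zero, Finset.sum_const, nsmul_eq_mul, mul_one]
    have h3 : ((halfP n N).card : ℝ) = ∑ k ∈ halfP n N, (1 : ℝ) := by simp
    rw [h2, h3, ← Finset.sum_sub_distrib]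
    refine Finset.sum_congr rfl fun k _ => ?_
    split_ifs <;> norm_num
  have e4 : (1 - 1 / ((n : ℝ) + 1)) * ((halfP n N).card : ℝ) =
      ((halfP n N).card : ℝ) - ∑ p ∈ halfFam n N, 1 / (1 + halfEv p.2) := by
    rw [sub_mul, one_mul]
    congr 1
    conv_lhs => rw [e1]
    field_simp
  rw [e3, e4]
  linarith

open Classical in
private lemma half_two (h : ℕ) : ∃ C η : ℝ, 0 ≤ C ∧ 0 < η ∧ ∀ N : ℕ, 1 ≤ N →
    ∀ Y : Submodule (algebraicClosure ℚ ℂ) ℂ, Module.Finite (algebraicClosure ℚ ℂ) Y →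
    Module.finrank (algebraicClosure ℚ ℂ) Y ≤ h →
    (((halfP 1 N).filter (fun k => ((mzv k : ℝ) : ℂ) ∈ Y)).card : ℝ) ≤
      (1 - 1 / (((1 : ℕ) : ℝ) + 1)) * ((halfP 1 N).card : ℝ) +
        C * (N : ℝ) ^ (((1 : ℕ) : ℝ) + 1 - η) := by
  obtain ⟨C, η, hη, h1⟩ := unif 1 h
  refine ⟨|C|, η, abs_nonneg C, hη, ?_⟩
  intro N hN Y hY hYh
  set B := (halfP 1 N).filter (fun k => ((mzv k : ℝ) : ℂ) ∈ Y) with hB
  let sw : (Fin 2 → ℕ) → (Fin 2 → ℕ) := fun k => ![k 1, k 0]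
  have hsw2 : ∀ k, sw (sw k) = k := by
    intro k
    funext i
    fin_cases i <;> rfl
  have hswinj : Function.Injective sw := fun k k' hk => by rw [← hsw2 k, hk, hsw2]
  have hswP : ∀ k ∈ halfP 1 N, sw k ∈ halfP 1 N := by
    intro k hk
    obtain ⟨h2, h3, -⟩ := (mem_halfP k).1 hk
    refine (mem_halfP _).2 ⟨fun i => ?_, ?_, Or.inl rfl⟩
    · fin_cases i
      · exact h2 1
      · exact h2 0
    · have h4 : ∑ i, k i = k 0 + k 1 := Fin.sum_univ_two k
      have h5 : ∑ i, sw k i = k 1 + k 0 := Fin.sum_univ_two (sw k)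
      have h6 : ∑ i, sw k i = ∑ i, k i := by rw [h4, h5, add_comm]
      rw [← h6] at h3
      exact h3
  have hc1 : (B.image sw).card = B.card := Finset.card_image_of_injective _ hswinj
  have hsub : B ∪ B.image sw ⊆ halfP 1 N := by
    intro k hk
    rcases Finset.mem_union.1 hk with h2 | h2
    · exact (Finset.mem_filter.1 h2).1
    · obtain ⟨k', hk', rfl⟩ := Finset.mem_image.1 h2
      exact hswP k' (Finset.mem_filter.1 hk').1
  let g : (Fin 2 → ℕ) → ℕ × (Fin 1 → ℕ) := fun k => (k 0, fun _ => k 1)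
  have hg : Function.Injective g := by
    intro k k' hk
    have h2 : k 0 = k' 0 := congrArg Prod.fst hk
    have h3 : k 1 = k' 1 := congrFun (congrArg Prod.snd hk) 0
    funext i
    fin_cases i
    · exact h2
    · exact h3
  have hc2 : ((B ∩ B.image sw).card : ℝ) ≤ |C| * (N : ℝ) ^ (((1 : ℕ) : ℝ) + 1 - η) := by
    rw [← Finset.card_image_of_injective _ hg]
    refine (h1 N hN Y hY hYh _ fun p hp => ?_).trans
      (mul_le_mul_of_nonneg_right (le_abs_self C) (by positivity))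
    obtain ⟨k, hk, rfl⟩ := Finset.mem_image.1 hp
    obtain ⟨hk1, hk2⟩ := Finset.mem_inter.1 hk
    obtain ⟨hk3, hk4⟩ := Finset.mem_filter.1 hk1
    obtain ⟨k', hk', hkk⟩ := Finset.mem_image.1 hk2
    obtain ⟨-, hk5⟩ := Finset.mem_filter.1 hk'
    obtain ⟨h2, h3, -⟩ := (mem_halfP k).1 hk3
    have h4 : ∑ i, k i = k 0 + k 1 := Fin.sum_univ_two k
    rw [h4] at h3
    have h5 : 2 ≤ k 0 := h2 0
    have h6 : 2 ≤ k 1 := h2 1
    refine ⟨Finset.mem_Icc.2 ⟨h5, by show k 0 ≤ N; omega⟩,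
      fun i => Finset.mem_Icc.2 ⟨h6, by show k 1 ≤ N; omega⟩, Or.inr rfl, ?_⟩
    rw [sig_one]
    have e1 : (![k 0, k 1] : Fin 2 → ℕ) = k := by
      funext i
      fin_cases i <;> rfl
    have e2 : (![k 1, k 0] : Fin 2 → ℕ) = k' := by
      rw [← hkk]
      funext i
      fin_cases i <;> rfl
    show ((mzv ![k 0, k 1] + mzv ![k 1, k 0] : ℝ) : ℂ) ∈ Y
    rw [e1, e2, Complex.ofReal_add]
    exact Y.add_mem hk4 hk5
  have hc3 : B.card + B.card ≤ (halfP 1 N).card + (B ∩ B.image sw).card := by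
    have h2 := Finset.card_union_add_card_inter B (B.image sw)
    have h3 := Finset.card_le_card hsub
    omega
  have hc4 : (B.card : ℝ) + (B.card : ℝ) ≤
      ((halfP 1 N).card : ℝ) + ((B ∩ B.image sw).card : ℝ) := by exact_mod_cast hc3
  have h2 : 0 ≤ |C| * (N : ℝ) ^ (((1 : ℕ) : ℝ) + 1 - η) := by positivity
  have h3 : (1 - 1 / (((1 : ℕ) : ℝ) + 1)) = 1 / 2 := by norm_num
  rw [h3]
  have h4 : (B.card : ℝ) + (B.card : ℝ) ≤
      ((halfP 1 N).card : ℝ) + |C| * (N : ℝ) ^ (((1 : ℕ) : ℝ) + 1 - η) :=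
    hc4.trans (add_le_add_right hc2 _)
  clear hc2 hc3 hc4
  generalize |C| * (N : ℝ) ^ (((1 : ℕ) : ℝ) + 1 - η) = x at h2 h4 ⊢
  linarith

open Classical in
theorem half (d h : ℕ) (hd : 2 ≤ d) : ∃ C η : ℝ, 0 < η ∧ ∀ N : ℕ, 1 ≤ N →
    ∀ Y : Submodule (algebraicClosure ℚ ℂ) ℂ, Module.Finite (algebraicClosure ℚ ℂ) Y →
    Module.finrank (algebraicClosure ℚ ℂ) Y ≤ h →
    (((idx d N).filter (fun k => ((mzv k : ℝ) : ℂ) ∈ Y)).card : ℝ) ≤
      (1 - 1 / (d : ℝ)) * ((idx d N).card : ℝ) + C * (N : ℝ) ^ ((d : ℝ) - η) := by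
  obtain ⟨n, rfl⟩ : ∃ n, d = n + 1 := ⟨d - 1, by omega⟩
  obtain ⟨C, η, hC, hη, h1⟩ : ∃ C η : ℝ, 0 ≤ C ∧ 0 < η ∧ ∀ N : ℕ, 1 ≤ N →
      ∀ Y : Submodule (algebraicClosure ℚ ℂ) ℂ, Module.Finite (algebraicClosure ℚ ℂ) Y →
      Module.finrank (algebraicClosure ℚ ℂ) Y ≤ h →
      (((halfP n N).filter (fun k => ((mzv k : ℝ) : ℂ) ∈ Y)).card : ℝ) ≤
        (1 - 1 / ((n : ℝ) + 1)) * ((halfP n N).card : ℝ) + C * (N : ℝ) ^ ((n : ℝ) + 1 - η) := by
    by_cases hn : n = 1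
    · subst hn
      exact half_two h
    · exact half_even n h hn
  refine ⟨C + ((n : ℝ) + 1) * 2 ^ n, min η 1, lt_min hη one_pos, ?_⟩
  intro N hN Y hY hYh
  have hN0 : (0 : ℝ) < (N : ℝ) := by exact_mod_cast hN
  have hN1 : (1 : ℝ) ≤ (N : ℝ) := by exact_mod_cast hN
  -- indices with an entry one
  let A := (idx (n + 1) N).filter fun k => ¬ ∀ i, 2 ≤ k i
  have hA : A.card ≤ (n + 1) * (N + 1) ^ n := by
    have h2 : A ⊆ ((Finset.univ : Finset (Fin (n + 1))) ×ˢ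
        (Fintype.piFinset fun _ : Fin n => Finset.range (N + 1))).image
          fun q => ins 1 q.2 q.1 := by
      intro k hk
      obtain ⟨h3, h4⟩ := Finset.mem_filter.1 hk
      rw [idx, Finset.mem_filter, Fintype.mem_piFinset] at h3
      push Not at h4
      obtain ⟨i, hi⟩ := h4
      have h5 : k i = 1 := by
        have := h3.2.1 i
        omega
      refine Finset.mem_image.2 ⟨(i, i.removeNth k), Finset.mem_product.2 ⟨Finset.mem_univ _,
        Fintype.mem_piFinset.2 fun j => h3.1 _⟩, ?_⟩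
      show ins 1 (i.removeNth k) i = k
      have h6 : ins 1 (i.removeNth k) i = ins (k i) (i.removeNth k) i := by
        congr 1
        exact h5.symm
      rw [h6]
      exact half_ins_remove k i
    refine (Finset.card_le_card h2).trans (Finset.card_image_le.trans (le_of_eq ?_))
    rw [Finset.card_product, Finset.card_univ, Fintype.card_fin, Fintype.card_piFinset,
      Finset.prod_const, Finset.card_univ, Fintype.card_fin, Finset.card_range]
  have hA' : (A.card : ℝ) ≤ ((n : ℝ) + 1) * 2 ^ n * (N : ℝ) ^ ((n : ℝ) + 1 - min η 1) := by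
    have h2 : (A.card : ℝ) ≤ ((n : ℝ) + 1) * ((N : ℝ) + 1) ^ n := by exact_mod_cast hA
    have h3 : ((N : ℝ) + 1) ^ n ≤ (2 * (N : ℝ)) ^ n :=
      pow_le_pow_left₀ (by positivity) (by linarith) n
    have h4 : (N : ℝ) ^ n ≤ (N : ℝ) ^ ((n : ℝ) + 1 - min η 1) := by
      rw [← Real.rpow_natCast]
      exact Real.rpow_le_rpow_of_exponent_le hN1 (by linarith [min_le_right η 1])
    rw [mul_pow] at h3
    calc (A.card : ℝ) ≤ ((n : ℝ) + 1) * ((N : ℝ) + 1) ^ n := h2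
      _ ≤ ((n : ℝ) + 1) * (2 ^ n * (N : ℝ) ^ n) := by gcongr
      _ ≤ ((n : ℝ) + 1) * (2 ^ n * (N : ℝ) ^ ((n : ℝ) + 1 - min η 1)) := by gcongr
      _ = _ := by ring
  have hsplit : ((idx (n + 1) N).filter (fun k => ((mzv k : ℝ) : ℂ) ∈ Y)) ⊆
      A ∪ (halfP n N).filter (fun k => ((mzv k : ℝ) : ℂ) ∈ Y) := by
    intro k hk
    obtain ⟨h2, h3⟩ := Finset.mem_filter.1 hk
    by_cases h4 : ∀ i, 2 ≤ k i
    · exact Finset.mem_union_right _ (Finset.mem_filter.2 ⟨Finset.mem_filter.2 ⟨h2, h4⟩, h3⟩)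
    · exact Finset.mem_union_left _ (Finset.mem_filter.2 ⟨h2, h4⟩)
  have hcard : (((idx (n + 1) N).filter (fun k => ((mzv k : ℝ) : ℂ) ∈ Y)).card : ℝ) ≤
      (A.card : ℝ) + (((halfP n N).filter (fun k => ((mzv k : ℝ) : ℂ) ∈ Y)).card : ℝ) := by
    exact_mod_cast (Finset.card_le_card hsplit).trans (Finset.card_union_le _ _)
  have hP : ((halfP n N).card : ℝ) ≤ ((idx (n + 1) N).card : ℝ) := by
    exact_mod_cast Finset.card_le_card (Finset.filter_subset _ _)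
  have hn0 : (0 : ℝ) < (n : ℝ) + 1 := by positivity
  have h2 : 0 ≤ 1 - 1 / ((n : ℝ) + 1) := by
    rw [sub_nonneg, div_le_one hn0]
    have : (0 : ℝ) ≤ (n : ℝ) := Nat.cast_nonneg n
    linarith
  have h3 := mul_le_mul_of_nonneg_left hP h2
  have h4 : C * (N : ℝ) ^ ((n : ℝ) + 1 - η) ≤ C * (N : ℝ) ^ ((n : ℝ) + 1 - min η 1) :=
    mul_le_mul_of_nonneg_left
      (Real.rpow_le_rpow_of_exponent_le hN1 (by linarith [min_le_left η 1])) hC
  have h5 := h1 N hN Y hY hYh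
  have h6 : ((n + 1 : ℕ) : ℝ) = (n : ℝ) + 1 := by push_cast; rfl
  rw [h6, add_mul]
  linarith

end Pool.Agent.Work.MP_4d52ff_nt.R
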