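import Pool.Agent.Work.MP_4d52ff_nt.R.Master
import Pool.Agent.Work.MP_4d52ff_nt.R.Half

/-!
MODULE HalfW (size L).  The statement for single weights: all but `C (h+1) / ε^(2^(d-1))` of the weights
`w ∈ [N, 2N]` have at least a proportion `1/d - ε` of their MZVs of depth `d` with an even entry outside `Y`.

PROOF.  `n = d - 1`, `idxw d w` = admissible indices of depth `d`, weight `w` with an even entry.
(1) For a weight `w` let `P` be the set of `k ∈ idxw d w` with all entries at least 2 and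
`G w = {x : Fin n → ℕ | all x i ≥ 2, w - ∑ x even and ≥ 2, sig (w - ∑ x) x ∈ Y}`.  The double counting of Half.lean
restricted to the weight `w` (pairs `(k, i)`, `k i` even  <->  pairs `(x, i)`, `k = ins (w - ∑ x) x i`) gives
`#{k ∈ P : mzv k ∉ Y} ≥ #P / d - #(G w)`, so
`#{k ∈ idxw : mzv k ∈ Y} ≤ (1 - 1/d) #idxw + #(idxw \ P) + #(G w)` and `#(idxw \ P) ≤ n w^(n-1)`
(some entry is 1; the others are determined by n - 1 of them; for n = 1 at most one index).
(2) `#idxw d w ≥ c w^n` for `w ≥ w0` (`k 0` even in `[2, w/4]`, `k 1, ..., k (n-1)` in `[1, w/(4n)]`, the last entry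
is the rest), constants `c, w0` depending only on `n`.
(3) If `w ∈ [N, 2N]` is exceptional for `ε` (then `ε ≤ 1/d ≤ 1`, since the left side is at most `#idxw`), and
`w ≥ max w0 (2n/(c ε))`, then `#(G w) ≥ (ε c / 2) w^n ≥ (ε c / 2) N^n`.  By `master_even` (with `2N` for `N`) the number `K`
of these weights satisfies `K ((ε c / 2) N^n)^(2^n) ≤ C (h+1) (2N)^(n 2^n)`, so `K ≤ C' (h+1) / ε^(2^n)`.
The number of weights below `max w0 (2n/(cε))` is at most `C''/ε ≤ C'' (h+1) / ε^(2^n)`.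
-/

set_option autoImplicit false

namespace Pool.Agent.Work.MP_4d52ff_nt.R

/-- the admissible indices of depth `d` and weight `w` with at least one even entry -/
def idxw (d w : ℕ) : Finset (Fin d → ℕ) :=
  (Fintype.piFinset fun _ => Finset.range (w + 1)).filter
    (fun k => (∀ i, 1 ≤ k i) ∧ (∀ h : 0 < d, 2 ≤ k ⟨0, h⟩) ∧ ∑ i, k i = w ∧ ∃ i, Even (k i))

/-- the indices with all entries at least two -/
private def hwP (n w : ℕ) : Finset (Fin (n + 1) → ℕ) :=
  (idxw (n + 1) w).filter fun k => ∀ i, 2 ≤ k i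

private lemma half_le_sum {m : ℕ} (k : Fin m → ℕ) (i : Fin m) : k i ≤ ∑ i, k i :=
  Finset.single_le_sum (f := k) (fun _ _ => Nat.zero_le _) (Finset.mem_univ i)

private lemma mem_hwP {n w : ℕ} (k : Fin (n + 1) → ℕ) :
    k ∈ hwP n w ↔ (∀ i, 2 ≤ k i) ∧ ∑ i, k i = w ∧ ∃ i, Even (k i) := by
  rw [hwP, Finset.mem_filter, idxw, Finset.mem_filter, Fintype.mem_piFinset]
  constructor
  · rintro ⟨⟨-, -, -, h1, h2⟩, h3⟩
    exact ⟨h3, h1, h2⟩
  · rintro ⟨h1, h2, h3⟩
    refine ⟨⟨fun i => ?_, fun i => (by norm_num : (1 : ℕ) ≤ 2).trans (h1 i), fun _ => h1 _, h2,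
      h3⟩, h1⟩
    rw [Finset.mem_range]
    have := half_le_sum k i
    omega

/-- the tuples `x` to be completed by an even number -/
private def hwFam (n w : ℕ) : Finset (Fin n → ℕ) :=
  (Fintype.piFinset fun _ => Finset.range (w + 1)).filter
    fun x => (∀ i, 2 ≤ x i) ∧ ∑ i, x i + 2 ≤ w ∧ Even (w - ∑ i, x i)

private lemma mem_hwFam {n w : ℕ} (x : Fin n → ℕ) :
    x ∈ hwFam n w ↔ (∀ i, 2 ≤ x i) ∧ ∑ i, x i + 2 ≤ w ∧ Even (w - ∑ i, x i) := by
  rw [hwFam, Finset.mem_filter, Fintype.mem_piFinset]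
  constructor
  · rintro ⟨-, h⟩
    exact h
  · rintro ⟨h1, h2, h3⟩
    refine ⟨fun i => ?_, h1, h2, h3⟩
    rw [Finset.mem_range]
    have := half_le_sum x i
    omega

/-- the number of even entries -/
private noncomputable def halfEv {m : ℕ} (k : Fin m → ℕ) : ℝ :=
  ∑ i, if Even (k i) then (1 : ℝ) else 0

private lemma halfEv_nonneg {m : ℕ} (k : Fin m → ℕ) : 0 ≤ halfEv k :=
  Finset.sum_nonneg fun i _ => by split_ifs <;> norm_num

private lemma halfEv_split {n : ℕ} (k : Fin (n + 1) → ℕ) (i : Fin (n + 1)) (h : Even (k i)) :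
    halfEv k = 1 + halfEv (i.removeNth k) := by
  unfold halfEv
  rw [Fin.sum_univ_succAbove _ i, if_pos h]
  rfl

private lemma half_ins_self {n : ℕ} (a : ℕ) (x : Fin n → ℕ) (i : Fin (n + 1)) :
    ins a x i i = a := by
  unfold ins
  exact Fin.insertNth_apply_same (α := fun _ => ℕ) i a x

private lemma half_ins_succAbove {n : ℕ} (a : ℕ) (x : Fin n → ℕ) (i : Fin (n + 1)) (j : Fin n) :
    ins a x i (i.succAbove j) = x j := by
  unfold ins
  exact Fin.insertNth_apply_succAbove (α := fun _ => ℕ) i a x j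

private lemma half_remove_ins {n : ℕ} (a : ℕ) (x : Fin n → ℕ) (i : Fin (n + 1)) :
    (i.removeNth (ins a x i) : Fin n → ℕ) = x := by
  funext j
  exact half_ins_succAbove a x i j

private lemma half_ins_remove {n : ℕ} (k : Fin (n + 1) → ℕ) (i : Fin (n + 1)) :
    ins (k i) (i.removeNth k) i = k := by
  funext j
  rcases Fin.eq_self_or_eq_succAbove i j with rfl | ⟨j, rfl⟩
  · rw [half_ins_self]
  · rw [half_ins_succAbove]
    rfl

private lemma half_ins_sum {n : ℕ} (a : ℕ) (x : Fin n → ℕ) (i : Fin (n + 1)) :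
    ∑ j, ins a x i j = a + ∑ j, x j := by
  rw [Fin.sum_univ_succAbove _ i, half_ins_self]
  simp only [half_ins_succAbove]

private lemma hw_dc (n w : ℕ) (φ : (Fin (n + 1) → ℕ) → ℝ) :
    ∑ k ∈ hwP n w, φ k =
      ∑ x ∈ hwFam n w, ∑ i : Fin (n + 1), φ (ins (w - ∑ j, x j) x i) / (1 + halfEv x) := by
  classical
  have h1 : ∀ k ∈ hwP n w, φ k =
      ∑ i : Fin (n + 1), if Even (k i) then φ k / halfEv k else 0 := by
    intro k hk
    obtain ⟨-, -, i, hi⟩ := (mem_hwP k).1 hk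
    have h3 : 0 < halfEv k := by
      rw [halfEv_split k i hi]
      have := halfEv_nonneg (i.removeNth k)
      linarith
    have h4 : ∀ i : Fin (n + 1), (if Even (k i) then φ k / halfEv k else 0) =
        (if Even (k i) then (1 : ℝ) else 0) * (φ k / halfEv k) := by
      intro i
      split_ifs <;> simp
    rw [Finset.sum_congr rfl fun i _ => h4 i, ← Finset.sum_mul]
    show φ k = halfEv k * (φ k / halfEv k)
    field_simp
  have hsub : ∀ k ∈ hwP n w, ∀ i : Fin (n + 1), w - ∑ j, (i.removeNth k : Fin n → ℕ) j = k i ∧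
      w = k i + ∑ j, (i.removeNth k : Fin n → ℕ) j := by
    intro k hk i
    obtain ⟨-, h3, -⟩ := (mem_hwP k).1 hk
    rw [Fin.sum_univ_succAbove _ i] at h3
    have h4 : ∑ j, (i.removeNth k : Fin n → ℕ) j = ∑ j, k (i.succAbove j) := rfl
    rw [h4]
    omega
  rw [Finset.sum_congr rfl h1, ← Finset.sum_product', ← Finset.sum_product']
  rw [← Finset.sum_filter]
  refine Finset.sum_nbij' (fun q => (q.2.removeNth q.1, q.2))
    (fun q => (ins (w - ∑ j, q.1 j) q.1 q.2, q.2)) ?_ ?_ ?_ ?_ ?_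
  · rintro ⟨k, i⟩ hq
    rw [Finset.mem_filter, Finset.mem_product] at hq
    obtain ⟨⟨hk, -⟩, hi⟩ := hq
    obtain ⟨h2, h3, -⟩ := (mem_hwP k).1 hk
    obtain ⟨h4, h5⟩ := hsub k hk i
    refine Finset.mem_product.2 ⟨(mem_hwFam _).2 ⟨fun j => h2 _, ?_, ?_⟩, Finset.mem_univ _⟩
    · have := h2 i
      show ∑ j, (i.removeNth k : Fin n → ℕ) j + 2 ≤ w
      omega
    · show Even (w - ∑ j, (i.removeNth k : Fin n → ℕ) j)
      rw [h4]
      exact hi
  · rintro ⟨x, i⟩ hq
    obtain ⟨hp, -⟩ := Finset.mem_product.1 hq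
    obtain ⟨h3, h5, h4⟩ := (mem_hwFam _).1 hp
    rw [Finset.mem_filter, Finset.mem_product]
    refine ⟨⟨(mem_hwP _).2 ⟨fun j => ?_, ?_, ⟨i, ?_⟩⟩, Finset.mem_univ _⟩, ?_⟩
    · rcases Fin.eq_self_or_eq_succAbove i j with rfl | ⟨j, rfl⟩
      · show 2 ≤ ins (w - ∑ j, x j) x j j
        rw [half_ins_self]
        show 2 ≤ w - ∑ j, x j
        have h6 : ∑ i, x i + 2 ≤ w := h5
        omega
      · show 2 ≤ ins (w - ∑ j, x j) x i (i.succAbove j)
        rw [half_ins_succAbove]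
        exact h3 j
    · show ∑ j, ins (w - ∑ j, x j) x i j = w
      rw [half_ins_sum]
      have h6 : ∑ i, x i + 2 ≤ w := h5
      omega
    · show Even (ins (w - ∑ j, x j) x i i)
      rw [half_ins_self]
      exact h4
    · show Even (ins (w - ∑ j, x j) x i i)
      rw [half_ins_self]
      exact h4
  · rintro ⟨k, i⟩ hq
    rw [Finset.mem_filter, Finset.mem_product] at hq
    obtain ⟨⟨hk, -⟩, hi⟩ := hq
    refine Prod.ext ?_ rfl
    show ins (w - ∑ j, (i.removeNth k : Fin n → ℕ) j) (i.removeNth k) i = k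
    rw [(hsub k hk i).1]
    exact half_ins_remove k i
  · rintro ⟨x, i⟩ _
    exact Prod.ext (half_remove_ins _ x i) rfl
  · rintro ⟨k, i⟩ hq
    rw [Finset.mem_filter, Finset.mem_product] at hq
    obtain ⟨⟨hk, -⟩, hi⟩ := hq
    show φ k / halfEv k = φ (ins (w - ∑ j, (i.removeNth k : Fin n → ℕ) j) (i.removeNth k) i) /
      (1 + halfEv (i.removeNth k))
    rw [(hsub k hk i).1, half_ins_remove, ← halfEv_split k i hi]

open Classical in
private lemma hw_count (n w : ℕ) (Y : Submodule (algebraicClosure ℚ ℂ) ℂ) :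
    (((hwP n w).filter (fun k => ((mzv k : ℝ) : ℂ) ∈ Y)).card : ℝ) ≤
      (1 - 1 / ((n : ℝ) + 1)) * ((hwP n w).card : ℝ) +
        (((hwFam n w).filter (fun x => ((sig (w - ∑ j, x j) x : ℝ) : ℂ) ∈ Y)).card : ℝ) := by
  obtain ⟨G, hGd⟩ : ∃ G, G = (hwFam n w).filter
    (fun x => ((sig (w - ∑ j, x j) x : ℝ) : ℂ) ∈ Y) := ⟨_, rfl⟩
  rw [← hGd]
  -- the number of indices
  have e1 : ((hwP n w).card : ℝ) = ((n : ℝ) + 1) * ∑ x ∈ hwFam n w, 1 / (1 + halfEv x) := by
    have h2 := hw_dc n w (fun _ => 1)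
    rw [Finset.sum_const, nsmul_eq_mul, mul_one] at h2
    rw [h2, Finset.mul_sum]
    refine Finset.sum_congr rfl fun p _ => ?_
    rw [Finset.sum_const, Finset.card_univ, Fintype.card_fin, nsmul_eq_mul]
    push_cast
    rfl
  -- the number of good indices
  have e2 : ∑ x ∈ hwFam n w, 1 / (1 + halfEv x) - (G.card : ℝ) ≤
      ∑ k ∈ hwP n w, if ((mzv k : ℝ) : ℂ) ∈ Y then (0 : ℝ) else 1 := by
    rw [hw_dc n w]
    have h2 : (G.card : ℝ) =
        ∑ x ∈ hwFam n w, if ((sig (w - ∑ j, x j) x : ℝ) : ℂ) ∈ Y then (1 : ℝ) else 0 := by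
      rw [Finset.sum_ite, Finset.sum_const_zero, add_zero, Finset.sum_const, nsmul_eq_mul, mul_one,
        hGd]
    rw [h2, ← Finset.sum_sub_distrib]
    refine Finset.sum_le_sum fun x _ => ?_
    have h3 : (0 : ℝ) < 1 + halfEv x := by
      have := halfEv_nonneg x
      linarith
    have h4 : ∀ i : Fin (n + 1), 0 ≤ (if ((mzv (ins (w - ∑ j, x j) x i) : ℝ) : ℂ) ∈ Y
        then (0 : ℝ) else 1) / (1 + halfEv x) := by
      intro i
      refine div_nonneg ?_ h3.le
      split_ifs <;> norm_num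
    by_cases h5 : ((sig (w - ∑ j, x j) x : ℝ) : ℂ) ∈ Y
    · rw [if_pos h5]
      have h6 : 1 / (1 + halfEv x) ≤ 1 := by
        rw [div_le_one h3]
        have := halfEv_nonneg x
        linarith
      have h7 := Finset.sum_nonneg fun i (_ : i ∈ Finset.univ) => h4 i
      linarith
    · rw [if_neg h5, sub_zero]
      have h6 : ∃ i : Fin (n + 1), ((mzv (ins (w - ∑ j, x j) x i) : ℝ) : ℂ) ∉ Y := by
        by_contra h7
        push Not at h7
        apply h5
        unfold sig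
        rw [Complex.ofReal_sum]
        exact Submodule.sum_mem _ fun i _ => h7 i
      obtain ⟨i, hi⟩ := h6
      have h7 := Finset.single_le_sum (fun i _ => h4 i) (Finset.mem_univ i)
      rw [if_neg hi] at h7
      exact h7
  have e3 : (((hwP n w).filter (fun k => ((mzv k : ℝ) : ℂ) ∈ Y)).card : ℝ) =
      ((hwP n w).card : ℝ) - ∑ k ∈ hwP n w, if ((mzv k : ℝ) : ℂ) ∈ Y then (0 : ℝ) else 1 := by
    have h2 : (((hwP n w).filter (fun k => ((mzv k : ℝ) : ℂ) ∈ Y)).card : ℝ) =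
        ∑ k ∈ hwP n w, if ((mzv k : ℝ) : ℂ) ∈ Y then (1 : ℝ) else 0 := by
      rw [Finset.sum_ite, Finset.sum_const_zero, add_zero, Finset.sum_const, nsmul_eq_mul, mul_one]
    have h3 : ((hwP n w).card : ℝ) = ∑ k ∈ hwP n w, (1 : ℝ) := by simp
    rw [h2, h3, ← Finset.sum_sub_distrib]
    refine Finset.sum_congr rfl fun k _ => ?_
    split_ifs <;> norm_num
  have e4 : (1 - 1 / ((n : ℝ) + 1)) * ((hwP n w).card : ℝ) =
      ((hwP n w).card : ℝ) - ∑ x ∈ hwFam n w, 1 / (1 + halfEv x) := by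
    rw [sub_mul, one_mul]
    congr 1
    conv_lhs => rw [e1]
    field_simp
  rw [e3, e4]
  linarith

/-- the number of tuples with given sum -/
private lemma hw_sumcard (n s w : ℕ) (S : Finset (Fin (n + 1) → ℕ))
    (hS : ∀ y ∈ S, (∀ i, y i ≤ w) ∧ ∑ i, y i = s) : S.card ≤ (w + 1) ^ n := by
  classical
  have h1 : (Fintype.piFinset fun _ : Fin n => Finset.range (w + 1)).card = (w + 1) ^ n := by
    rw [Fintype.card_piFinset, Finset.prod_const, Finset.card_univ, Fintype.card_fin,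
      Finset.card_range]
  rw [← h1]
  apply Finset.card_le_card_of_injOn (fun y => Fin.tail y)
  · intro y hy
    rw [Finset.mem_coe, Fintype.mem_piFinset]
    intro i
    rw [Finset.mem_range]
    have := (hS y hy).1 i.succ
    show y i.succ < w + 1
    omega
  · intro y hy y' hy' h
    have h' : Fin.tail y = Fin.tail y' := h
    have h2 := (hS y hy).2
    have h3 := (hS y' hy').2
    rw [Fin.sum_univ_succ] at h2 h3
    have h4 : ∑ i : Fin n, y i.succ = ∑ i : Fin n, y' i.succ :=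
      Finset.sum_congr rfl fun i _ => congrFun h' i
    have h5 : y 0 = y' 0 := by omega
    rw [← Fin.cons_self_tail y, ← Fin.cons_self_tail y', h5, h']

/-- the number of indices with an entry one -/
private lemma hw_rest (n w : ℕ) :
    ((idxw (n + 2) w).filter (fun k => ¬ ∀ i, 2 ≤ k i)).card ≤ (n + 2) * (w + 1) ^ n := by
  classical
  have h2 : (idxw (n + 2) w).filter (fun k => ¬ ∀ i, 2 ≤ k i) ⊆
      (Finset.univ : Finset (Fin (n + 2))).biUnion (fun i =>
        ((idxw (n + 2) w).filter (fun k => k i = 1))) := by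
    intro k hk
    obtain ⟨h3, h4⟩ := Finset.mem_filter.1 hk
    push Not at h4
    obtain ⟨i, hi⟩ := h4
    rw [Finset.mem_biUnion]
    refine ⟨i, Finset.mem_univ _, Finset.mem_filter.2 ⟨h3, ?_⟩⟩
    rw [idxw, Finset.mem_filter] at h3
    have := h3.2.1 i
    omega
  have h3 : ∀ i : Fin (n + 2), ((idxw (n + 2) w).filter (fun k => k i = 1)).card ≤
      (w + 1) ^ n := by
    intro i
    have h4 : ((idxw (n + 2) w).filter (fun k => k i = 1)).card ≤
        (((idxw (n + 2) w).filter (fun k => k i = 1)).image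
          (fun k => (i.removeNth k : Fin (n + 1) → ℕ))).card := by
      rw [Finset.card_image_of_injOn]
      intro k hk k' hk' h
      have e1 := (Finset.mem_filter.1 (Finset.mem_coe.1 hk)).2
      have e2 := (Finset.mem_filter.1 (Finset.mem_coe.1 hk')).2
      have h' : (i.removeNth k : Fin (n + 1) → ℕ) = i.removeNth k' := h
      rw [← half_ins_remove k i, ← half_ins_remove k' i, e1, e2, h']
    refine h4.trans (hw_sumcard n (w - 1) w _ ?_)
    intro y hy
    obtain ⟨k, hk, rfl⟩ := Finset.mem_image.1 hy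
    obtain ⟨h5, h6⟩ := Finset.mem_filter.1 hk
    rw [idxw, Finset.mem_filter, Fintype.mem_piFinset] at h5
    obtain ⟨h7, -, -, h8, -⟩ := h5
    refine ⟨fun j => ?_, ?_⟩
    · have := Finset.mem_range.1 (h7 (i.succAbove j))
      have e : (i.removeNth k : Fin (n + 1) → ℕ) j = k (i.succAbove j) := rfl
      omega
    · rw [Fin.sum_univ_succAbove _ i, h6] at h8
      have e : ∑ j, (i.removeNth k : Fin (n + 1) → ℕ) j = ∑ j, k (i.succAbove j) := rfl
      omega
  refine (Finset.card_le_card h2).trans (Finset.card_biUnion_le.trans ?_)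
  refine (Finset.sum_le_sum fun i _ => h3 i).trans (le_of_eq ?_)
  rw [Finset.sum_const, Finset.card_univ, Fintype.card_fin, smul_eq_mul]

/-- many indices -/
private lemma hw_many (n w : ℕ) (hw : 4 * (n + 1) ≤ w) :
    (w / (4 * (n + 1))) ^ (n + 1) ≤ (idxw (n + 2) w).card := by
  classical
  obtain ⟨m, hm⟩ : ∃ m, m = w / (4 * (n + 1)) := ⟨_, rfl⟩
  have hm1 : m * (4 * (n + 1)) ≤ w := by
    rw [hm]
    exact Nat.div_mul_le_self _ _
  have h1 : (Fintype.piFinset fun _ : Fin (n + 1) => Finset.Icc 1 m).card = m ^ (n + 1) := by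
    rw [Fintype.card_piFinset, Finset.prod_const, Finset.card_univ, Fintype.card_fin,
      Nat.card_Icc, Nat.add_sub_cancel]
  rw [← hm, ← h1]
  obtain ⟨y, hy⟩ : ∃ y : (Fin (n + 1) → ℕ) → Fin (n + 1) → ℕ, ∀ x i,
      y x i = if i = 0 then 2 * x i else x i := ⟨_, fun _ _ => rfl⟩
  have hyinj : Function.Injective y := by
    intro x x' h
    funext i
    have h2 := congrFun h i
    rw [hy, hy] at h2
    split_ifs at h2 <;> omega
  have hysum : ∀ x, (∀ i, x i ≤ m) → ∑ i, y x i ≤ (n + 2) * m := by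
    intro x hx
    rw [Fin.sum_univ_succ]
    have h2 : y x 0 ≤ 2 * m := by
      rw [hy, if_pos rfl]
      have := hx 0
      omega
    have h3 : ∑ i : Fin n, y x i.succ ≤ n * m := by
      have h4 : ∀ i ∈ (Finset.univ : Finset (Fin n)), y x i.succ ≤ m := by
        intro i _
        rw [hy, if_neg (Fin.succ_ne_zero i)]
        exact hx _
      refine (Finset.sum_le_sum h4).trans (le_of_eq ?_)
      rw [Finset.sum_const, Finset.card_univ, Fintype.card_fin, smul_eq_mul]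
    nlinarith
  apply Finset.card_le_card_of_injOn
    (fun x => (ins (w - ∑ i, y x i) (y x) (Fin.last (n + 1)) : Fin (n + 2) → ℕ))
  · intro x hx
    rw [Finset.mem_coe, Fintype.mem_piFinset] at hx
    have hx1 : ∀ i, 1 ≤ x i := fun i => (Finset.mem_Icc.1 (hx i)).1
    have hx2 : ∀ i, x i ≤ m := fun i => (Finset.mem_Icc.1 (hx i)).2
    have h2 := hysum x hx2
    have h3 : ∑ i, y x i + 1 ≤ w := by
      have h4 : 1 ≤ m := (hx1 0).trans (hx2 0)
      nlinarith
    have hy1 : ∀ i, 1 ≤ y x i := by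
      intro i
      rw [hy]
      have := hx1 i
      split_ifs <;> omega
    have hsum : ∑ j, ins (w - ∑ i, y x i) (y x) (Fin.last (n + 1)) j = w := by
      rw [half_ins_sum]
      omega
    have h0 : ins (w - ∑ i, y x i) (y x) (Fin.last (n + 1)) 0 = 2 * x 0 := by
      have e : (0 : Fin (n + 2)) = (Fin.last (n + 1)).succAbove 0 := by
        rw [Fin.succAbove_last]
        rfl
      rw [e, half_ins_succAbove, hy, if_pos rfl]
    show ins (w - ∑ i, y x i) (y x) (Fin.last (n + 1)) ∈ (idxw (n + 2) w : Set (Fin (n + 2) → ℕ))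
    rw [Finset.mem_coe, idxw, Finset.mem_filter, Fintype.mem_piFinset]
    refine ⟨fun j => ?_, fun j => ?_, fun _ => ?_, hsum, 0, ?_⟩
    · rw [Finset.mem_range]
      have := half_le_sum (ins (w - ∑ i, y x i) (y x) (Fin.last (n + 1))) j
      omega
    · rcases Fin.eq_self_or_eq_succAbove (Fin.last (n + 1)) j with rfl | ⟨j, rfl⟩
      · rw [half_ins_self]
        omega
      · rw [half_ins_succAbove]
        exact hy1 j
    · show 2 ≤ ins (w - ∑ i, y x i) (y x) (Fin.last (n + 1)) 0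
      rw [h0]
      have := hx1 0
      omega
    · rw [h0]
      exact even_two_mul _
  · intro x _ x' _ h
    have h2 := congrArg (fun k => ((Fin.last (n + 1)).removeNth k : Fin (n + 1) → ℕ)) h
    simp only at h2
    rw [half_remove_ins, half_remove_ins] at h2
    exact hyinj h2

open Classical in
theorem halfW (d : ℕ) (hd : 2 ≤ d) : ∃ C : ℝ, 0 < C ∧ ∀ N h : ℕ, 1 ≤ N → ∀ ε : ℝ, 0 < ε →
    ∀ Y : Submodule (algebraicClosure ℚ ℂ) ℂ, Module.Finite (algebraicClosure ℚ ℂ) Y →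
    Module.finrank (algebraicClosure ℚ ℂ) Y ≤ h →
    (((Finset.Icc N (2 * N)).filter (fun w =>
      (1 - 1 / (d : ℝ) + ε) * ((idxw d w).card : ℝ) <
        (((idxw d w).filter (fun k => ((mzv k : ℝ) : ℂ) ∈ Y)).card : ℝ))).card : ℝ) ≤
      C * ((h : ℝ) + 1) / ε ^ (2 ^ (d - 1)) := by
  obtain ⟨n, rfl⟩ : ∃ n, d = n + 2 := ⟨d - 2, by omega⟩
  obtain ⟨C0, hC0, hmas⟩ := master_even (n + 1)
  obtain ⟨c, hc⟩ : ∃ c : ℝ, c = (1 / (8 * ((n : ℝ) + 1))) ^ (n + 1) := ⟨_, rfl⟩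
  have hc0 : 0 < c := by
    rw [hc]
    positivity
  obtain ⟨A, hA⟩ : ∃ A : ℝ, A = ((n : ℝ) + 2) * 2 ^ (n + 1) / c := ⟨_, rfl⟩
  have hA0 : 0 < A := by
    rw [hA]
    positivity
  obtain ⟨D, hD⟩ : ∃ D : ℝ, D = 4 * ((n : ℝ) + 1) + A + 2 := ⟨_, rfl⟩
  have hD0 : 0 < D := by
    rw [hD]
    positivity
  obtain ⟨q, hq⟩ : ∃ q : ℕ, q = 2 ^ (n + 1) := ⟨_, rfl⟩
  have hq1 : 1 ≤ q := by
    rw [hq]
    exact Nat.one_le_two_pow
  obtain ⟨E, hE⟩ : ∃ E : ℝ, E = C0 * 2 ^ ((n + 1) * q) / (c / 2) ^ q := ⟨_, rfl⟩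
  have hE0 : 0 < E := by
    rw [hE]
    positivity
  refine ⟨D + E, by positivity, ?_⟩
  intro N h hN ε hε Y hY hYh
  have hN0 : (0 : ℝ) < N := by exact_mod_cast hN
  have hq' : 2 ^ (n + 2 - 1) = q := by
    rw [hq]
    rfl
  rw [hq']
  obtain ⟨X, hX⟩ : ∃ X : Finset ℕ, X = (Finset.Icc N (2 * N)).filter (fun w =>
      (1 - 1 / ((n + 2 : ℕ) : ℝ) + ε) * ((idxw (n + 2) w).card : ℝ) <
        (((idxw (n + 2) w).filter (fun k => ((mzv k : ℝ) : ℂ) ∈ Y)).card : ℝ)) := ⟨_, rfl⟩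
  rw [← hX]
  rcases X.eq_empty_or_nonempty with hXe | hXne
  · rw [hXe, Finset.card_empty, Nat.cast_zero]
    positivity
  have hdn : ((n + 2 : ℕ) : ℝ) = ((n + 1 : ℕ) : ℝ) + 1 := by
    push_cast
    ring
  have hXm : ∀ w ∈ X, N ≤ w ∧ w ≤ 2 * N ∧
      (1 - 1 / ((n + 2 : ℕ) : ℝ) + ε) * ((idxw (n + 2) w).card : ℝ) <
        (((idxw (n + 2) w).filter (fun k => ((mzv k : ℝ) : ℂ) ∈ Y)).card : ℝ) := by
    intro w hw
    rw [hX] at hw
    obtain ⟨h1, h2⟩ := Finset.mem_filter.1 hw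
    exact ⟨(Finset.mem_Icc.1 h1).1, (Finset.mem_Icc.1 h1).2, h2⟩
  have hε1 : ε ≤ 1 := by
    obtain ⟨w, hw⟩ := hXne
    obtain ⟨-, -, h1⟩ := hXm w hw
    have h2 : (((idxw (n + 2) w).filter (fun k => ((mzv k : ℝ) : ℂ) ∈ Y)).card : ℝ) ≤
        ((idxw (n + 2) w).card : ℝ) := by
      exact_mod_cast Finset.card_le_card (Finset.filter_subset _ _)
    have h3 := h1.trans_le h2
    have h4 : (0 : ℝ) ≤ ((idxw (n + 2) w).card : ℝ) := Nat.cast_nonneg _
    have h5 : 1 / ((n + 2 : ℕ) : ℝ) ≤ 1 := by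
      rw [div_le_one (by positivity)]
      exact_mod_cast (by omega : 1 ≤ n + 2)
    by_contra h6
    rw [not_le] at h6
    nlinarith
  -- the sets of the exceptional sums
  obtain ⟨G, hG⟩ : ∃ G : ℕ → Finset (Fin (n + 1) → ℕ), ∀ w, G w = (hwFam (n + 1) w).filter
      (fun x => ((sig (w - ∑ j, x j) x : ℝ) : ℂ) ∈ Y) := ⟨_, fun _ => rfl⟩
  have hmaster := hmas (2 * N) h (by omega) Y hY hYh G (by
    intro s _ x hx
    rw [hG] at hx
    obtain ⟨h1, h2⟩ := Finset.mem_filter.1 hx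
    obtain ⟨h3, h4, h5⟩ := (mem_hwFam x).1 h1
    exact ⟨h3, h4, h5, h2⟩)
  rw [← hq] at hmaster
  have hlow : ∀ w ∈ X, 4 * ((n : ℝ) + 1) ≤ w → A / ε ≤ w → ε * c / 2 * (N : ℝ) ^ (n + 1) ≤
      ((G w).card : ℝ) := by
    intro w hw hw4 hwA
    obtain ⟨hNw, hw2, hbad⟩ := hXm w hw
    have hw0 : (0 : ℝ) < w := by
      have : (0 : ℝ) ≤ n := Nat.cast_nonneg n
      linarith
    have hw1 : (1 : ℝ) ≤ w := by
      have : (0 : ℝ) ≤ n := Nat.cast_nonneg n
      linarith
    have hw4' : 4 * (n + 1) ≤ w := by exact_mod_cast hw4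
    -- many indices
    have h1 : c * (w : ℝ) ^ (n + 1) ≤ ((idxw (n + 2) w).card : ℝ) := by
      have h2 : ((w / (4 * (n + 1)) : ℕ) : ℝ) ^ (n + 1) ≤ ((idxw (n + 2) w).card : ℝ) := by
        exact_mod_cast hw_many n w hw4'
      refine le_trans ?_ h2
      rw [hc, ← mul_pow]
      apply pow_le_pow_left₀ (by positivity)
      have h3 : (w : ℝ) < 4 * ((n : ℝ) + 1) * (((w / (4 * (n + 1)) : ℕ) : ℝ) + 1) := by
        have h4 : w < 4 * (n + 1) * (w / (4 * (n + 1)) + 1) :=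
          Nat.lt_mul_div_succ w (by omega)
        exact_mod_cast h4
      have h5 : (1 : ℝ) ≤ ((w / (4 * (n + 1)) : ℕ) : ℝ) := by
        have : 1 ≤ w / (4 * (n + 1)) := (Nat.one_le_div_iff (by omega)).2 hw4'
        exact_mod_cast this
      rw [div_mul_eq_mul_div, div_le_iff₀ (by positivity), one_mul]
      have h6 : (0 : ℝ) < (n : ℝ) + 1 := by positivity
      nlinarith
    -- the indices with an entry one
    have h2 : (((idxw (n + 2) w).filter (fun k => ¬ ∀ i, 2 ≤ k i)).card : ℝ) ≤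
        ε * c / 2 * (w : ℝ) ^ (n + 1) := by
      have h3 : (((idxw (n + 2) w).filter (fun k => ¬ ∀ i, 2 ≤ k i)).card : ℝ) ≤
          ((n : ℝ) + 2) * ((w : ℝ) + 1) ^ n := by
        exact_mod_cast hw_rest n w
      have h4 : ((w : ℝ) + 1) ^ n ≤ (2 * (w : ℝ)) ^ n :=
        pow_le_pow_left₀ (by positivity) (by linarith) n
      have h5 : A ≤ ε * w := by
        rw [div_le_iff₀ hε] at hwA
        linarith
      have h6 : ((n : ℝ) + 2) * 2 ^ (n + 1) ≤ ε * w * c := by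
        have := mul_le_mul_of_nonneg_right h5 hc0.le
        rw [hA, div_mul_cancel₀ _ hc0.ne'] at this
        exact this
      calc (((idxw (n + 2) w).filter (fun k => ¬ ∀ i, 2 ≤ k i)).card : ℝ)
          ≤ ((n : ℝ) + 2) * ((w : ℝ) + 1) ^ n := h3
        _ ≤ ((n : ℝ) + 2) * (2 * (w : ℝ)) ^ n := mul_le_mul_of_nonneg_left h4 (by positivity)
        _ = ((n : ℝ) + 2) * 2 ^ (n + 1) / 2 * (w : ℝ) ^ n := by
            rw [mul_pow, pow_succ]
            ring
        _ ≤ ε * w * c / 2 * (w : ℝ) ^ n := by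
            apply mul_le_mul_of_nonneg_right _ (by positivity)
            linarith
        _ = ε * c / 2 * (w : ℝ) ^ (n + 1) := by
            rw [pow_succ]
            ring
    have h3 := hw_count (n + 1) w Y
    rw [← hG w] at h3
    have h4 : (((idxw (n + 2) w).filter (fun k => ((mzv k : ℝ) : ℂ) ∈ Y)).card : ℝ) ≤
        (((idxw (n + 2) w).filter (fun k => ¬ ∀ i, 2 ≤ k i)).card : ℝ) +
          (((hwP (n + 1) w).filter (fun k => ((mzv k : ℝ) : ℂ) ∈ Y)).card : ℝ) := by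
      have h5 : ((idxw (n + 2) w).filter (fun k => ((mzv k : ℝ) : ℂ) ∈ Y)) ⊆
          ((idxw (n + 2) w).filter (fun k => ¬ ∀ i, 2 ≤ k i)) ∪
            (hwP (n + 1) w).filter (fun k => ((mzv k : ℝ) : ℂ) ∈ Y) := by
        intro k hk
        obtain ⟨h6, h7⟩ := Finset.mem_filter.1 hk
        by_cases h8 : ∀ i, 2 ≤ k i
        · exact Finset.mem_union_right _ (Finset.mem_filter.2 ⟨Finset.mem_filter.2 ⟨h6, h8⟩, h7⟩)
        · exact Finset.mem_union_left _ (Finset.mem_filter.2 ⟨h6, h8⟩)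
      exact_mod_cast (Finset.card_le_card h5).trans (Finset.card_union_le _ _)
    have h5 : ((hwP (n + 1) w).card : ℝ) ≤ ((idxw (n + 2) w).card : ℝ) := by
      exact_mod_cast Finset.card_le_card (Finset.filter_subset _ _)
    have h6 : 0 ≤ 1 - 1 / (((n + 1 : ℕ) : ℝ) + 1) := by
      rw [sub_nonneg, div_le_one (by positivity)]
      have : (0 : ℝ) ≤ ((n + 1 : ℕ) : ℝ) := Nat.cast_nonneg _
      linarith
    have h7 := mul_le_mul_of_nonneg_left h5 h6
    rw [hdn] at hbad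
    have h8 : ε * ((idxw (n + 2) w).card : ℝ) < ε * c / 2 * (w : ℝ) ^ (n + 1) +
        ((G w).card : ℝ) := by
      have e : (1 - 1 / (((n + 1 : ℕ) : ℝ) + 1) + ε) * ((idxw (n + 2) w).card : ℝ) =
        (1 - 1 / (((n + 1 : ℕ) : ℝ) + 1)) * ((idxw (n + 2) w).card : ℝ) +
          ε * ((idxw (n + 2) w).card : ℝ) := by ring
      rw [e] at hbad
      linarith
    have h9 : ε * (c * (w : ℝ) ^ (n + 1)) ≤ ε * ((idxw (n + 2) w).card : ℝ) :=
      mul_le_mul_of_nonneg_left h1 hε.le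
    have h10 : (N : ℝ) ^ (n + 1) ≤ (w : ℝ) ^ (n + 1) :=
      pow_le_pow_left₀ hN0.le (by exact_mod_cast hNw) _
    have h11 : ε * c / 2 * (N : ℝ) ^ (n + 1) ≤ ε * c / 2 * (w : ℝ) ^ (n + 1) :=
      mul_le_mul_of_nonneg_left h10 (by positivity)
    linarith
  -- the large exceptional weights
  obtain ⟨X1, hX1⟩ : ∃ X1 : Finset ℕ, X1 = X.filter (fun w : ℕ =>
      4 * ((n : ℝ) + 1) ≤ w ∧ A / ε ≤ w) := ⟨_, rfl⟩
  obtain ⟨X2, hX2⟩ : ∃ X2 : Finset ℕ, X2 = X.filter (fun w : ℕ =>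
      ¬ (4 * ((n : ℝ) + 1) ≤ w ∧ A / ε ≤ w)) := ⟨_, rfl⟩
  have hXX : (X.card : ℝ) = (X1.card : ℝ) + (X2.card : ℝ) := by
    rw [hX1, hX2]
    exact_mod_cast (Finset.card_filter_add_card_filter_not _).symm
  have hεq : ε ^ q ≤ ε := by
    calc ε ^ q ≤ ε ^ 1 := pow_le_pow_of_le_one hε.le hε1 hq1
      _ = ε := pow_one ε
  have hεq0 : 0 < ε ^ q := by positivity
  have hX2c : (X2.card : ℝ) ≤ D / ε ^ q := by
    have h1 : X2 ⊆ Finset.range (⌊4 * ((n : ℝ) + 1) + A / ε⌋₊ + 1) := by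
      intro w hw
      rw [hX2] at hw
      have h2 := (Finset.mem_filter.1 hw).2
      rw [Finset.mem_range, Nat.lt_succ_iff]
      apply Nat.le_floor
      have h3 : (0 : ℝ) < A / ε := by positivity
      have h4 : (0 : ℝ) ≤ n := Nat.cast_nonneg n
      rw [not_and_or, not_le, not_le] at h2
      rcases h2 with h2 | h2 <;> linarith
    have h2 : (X2.card : ℝ) ≤ ⌊4 * ((n : ℝ) + 1) + A / ε⌋₊ + 1 := by
      have := Finset.card_le_card h1
      rw [Finset.card_range] at this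
      exact_mod_cast this
    have h3 : (⌊4 * ((n : ℝ) + 1) + A / ε⌋₊ : ℝ) ≤ 4 * ((n : ℝ) + 1) + A / ε :=
      Nat.floor_le (by positivity)
    have h4 : 4 * ((n : ℝ) + 1) + A / ε + 1 ≤ D / ε := by
      rw [hD, le_div_iff₀ hε]
      have h5 : (4 * ((n : ℝ) + 1) + A / ε + 1) * ε = (4 * ((n : ℝ) + 1) + 1) * ε + A := by
        field_simp
        ring
      rw [h5]
      have h6 : (4 * ((n : ℝ) + 1) + 1) * ε ≤ (4 * ((n : ℝ) + 1) + 1) * 1 :=
        mul_le_mul_of_nonneg_left hε1 (by positivity)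
      linarith
    have h5 : D / ε ≤ D / ε ^ q := div_le_div_of_nonneg_left hD0.le hεq0 hεq
    linarith
  have hX1c : (X1.card : ℝ) ≤ E * ((h : ℝ) + 1) / ε ^ q := by
    have h1 : (X1.card : ℝ) * (ε * c / 2 * (N : ℝ) ^ (n + 1)) ^ q ≤
        C0 * ((h : ℝ) + 1) * ((2 * N : ℕ) : ℝ) ^ ((n + 1) * q) := by
      refine le_trans ?_ hmaster
      rw [← nsmul_eq_mul, ← Finset.sum_const]
      refine le_trans (Finset.sum_le_sum (g := fun w => ((G w).card : ℝ) ^ q) ?_)
        (Finset.sum_le_sum_of_subset_of_nonneg ?_ ?_)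
      · intro w hw
        rw [hX1] at hw
        obtain ⟨h2, h3, h4⟩ := Finset.mem_filter.1 hw
        exact pow_le_pow_left₀ (by positivity) (hlow w h2 h3 h4) q
      · intro w hw
        rw [hX1] at hw
        obtain ⟨h2, -⟩ := Finset.mem_filter.1 hw
        obtain ⟨h3, h4, -⟩ := hXm w h2
        rw [Finset.mem_Icc]
        omega
      · intro w _ _
        positivity
    have h2 : (ε * c / 2 * (N : ℝ) ^ (n + 1)) ^ q =
        ε ^ q * (c / 2) ^ q * (N : ℝ) ^ ((n + 1) * q) := by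
      rw [show ε * c / 2 * (N : ℝ) ^ (n + 1) = ε * (c / 2) * (N : ℝ) ^ (n + 1) by ring, mul_pow,
        mul_pow, ← pow_mul]
    have h3 : ((2 * N : ℕ) : ℝ) ^ ((n + 1) * q) =
        2 ^ ((n + 1) * q) * (N : ℝ) ^ ((n + 1) * q) := by
      push_cast
      rw [mul_pow]
    rw [h2, h3] at h1
    have hNp : 0 < (N : ℝ) ^ ((n + 1) * q) := by positivity
    have hcq : 0 < (c / 2) ^ q := by positivity
    rw [hE, le_div_iff₀ hεq0, div_mul_eq_mul_div, le_div_iff₀ hcq]
    have h4 : (X1.card : ℝ) * ε ^ q * (c / 2) ^ q * (N : ℝ) ^ ((n + 1) * q) ≤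
        C0 * 2 ^ ((n + 1) * q) * ((h : ℝ) + 1) * (N : ℝ) ^ ((n + 1) * q) := by
      calc (X1.card : ℝ) * ε ^ q * (c / 2) ^ q * (N : ℝ) ^ ((n + 1) * q) =
          (X1.card : ℝ) * (ε ^ q * (c / 2) ^ q * (N : ℝ) ^ ((n + 1) * q)) := by ring
        _ ≤ C0 * ((h : ℝ) + 1) * (2 ^ ((n + 1) * q) * (N : ℝ) ^ ((n + 1) * q)) := h1
        _ = _ := by ring
    exact le_of_mul_le_mul_right h4 hNp
  have hfin : D / ε ^ q ≤ D * ((h : ℝ) + 1) / ε ^ q := by
    apply div_le_div_of_nonneg_right _ hεq0.le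
    have : (0 : ℝ) ≤ h := Nat.cast_nonneg h
    nlinarith
  rw [hXX, add_mul, add_div]
  linarith

end Pool.Agent.Work.MP_4d52ff_nt.R
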