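import Pool.Agent.Work.MP_4d52ff_nt.R.Defs

/-!
MODULE Ins (size M).  The stuffle product of a single zeta value with a multiple zeta value.

PROOF.  `zetaL_mul [a] l` (file MZV.lean) gives `zetaL [a] * zetaL l = ((stuffle [a] l).map zetaL).sum`.
By induction on the list `l` (use `stuffle_cons_cons`, `stuffle_nil`, `stuffle_cons_nil`):
for every function `f` on lists,
`((stuffle [a] l).map f).sum = sum over i <= l.length of f (l with a inserted at position i)
   + sum over i < l.length of f (l with its i-th entry increased by a)`.
It is easiest to do the induction directly with tuples: for `x : Fin n -> ℕ` and all `f`,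
`((stuffle [a] (List.ofFn x)).map f).sum
   = ∑ i : Fin (n+1), f (List.ofFn (ins a x i)) + ∑ i : Fin n, f (List.ofFn (Function.update x i (x i + a)))`,
induction on `n` with `Fin.sum_univ_succ` and `List.ofFn_succ` (insertion at 0 is `Fin.cons a x`, insertion
at `i.succ` into `Fin.cons b x'` is `Fin.cons b (ins a x' i)`; same for `Function.update`).
Then translate `zetaL` to `mzv` by `mzv_eq'` (all entries are at least 2).
-/

set_option autoImplicit false

namespace Pool.Agent.Work.MP_4d52ff_nt.R

open Finset

private lemma ins_zero {n : ℕ} (a : ℕ) (x : Fin n → ℕ) : ins a x 0 = Fin.cons a x := by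
  unfold ins
  exact Fin.insertNth_zero' a x

private lemma ins_succ {n : ℕ} (a : ℕ) (x : Fin (n + 1) → ℕ) (i : Fin (n + 1)) :
    ins a x i.succ = Fin.cons (x 0) (ins a (fun j => x j.succ) i) := by
  unfold ins
  rw [Fin.insertNth_eq_iff]
  constructor
  · rw [Fin.cons_succ, Fin.insertNth_apply_same]
  · funext j
    refine Fin.cases ?_ (fun j => ?_) j
    · simp [Fin.removeNth]
    · simp only [Fin.removeNth, Fin.succ_succAbove_succ, Fin.cons_succ, Fin.insertNth_apply_succAbove]

private lemma stuffle_single {n : ℕ} (a : ℕ) (x : Fin n → ℕ) (f : List ℕ → ℝ) :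
    ((stuffle [a] (List.ofFn x)).map f).sum = ∑ i : Fin (n + 1), f (List.ofFn (ins a x i)) +
      ∑ i : Fin n, f (List.ofFn (Function.update x i (x i + a))) := by
  induction n generalizing f with
  | zero =>
    simp [stuffle_cons_nil, ins_zero, List.ofFn_succ]
  | succ n ih =>
    rw [List.ofFn_succ, stuffle_cons_cons, stuffle_nil, stuffle_nil]
    rw [List.map_append, List.map_append, List.sum_append, List.sum_append]
    simp only [List.map_map]
    rw [ih (fun j => x j.succ) (f ∘ fun m => x 0 :: m)]
    rw [Fin.sum_univ_succ (fun i : Fin (n + 1 + 1) => f (List.ofFn (ins a x i))),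
      Fin.sum_univ_succ (fun i : Fin (n + 1) => f (List.ofFn (Function.update x i (x i + a))))]
    have e1 : List.ofFn (ins a x 0) = a :: x 0 :: List.ofFn (fun j => x j.succ) := by
      rw [ins_zero, List.ofFn_succ, Fin.cons_zero]
      simp only [Fin.cons_succ]
      rw [List.ofFn_succ]
    have e2 : ∀ i : Fin (n + 1), List.ofFn (ins a x i.succ) =
        x 0 :: List.ofFn (ins a (fun j => x j.succ) i) := by
      intro i
      rw [ins_succ, List.ofFn_succ, Fin.cons_zero]
      simp only [Fin.cons_succ]
    have e3 : List.ofFn (Function.update x 0 (x 0 + a)) = (a + x 0) :: List.ofFn (fun j => x j.succ) := by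
      rw [List.ofFn_succ, Function.update_self, add_comm]
      congr 2
    have e4 : ∀ i : Fin n, List.ofFn (Function.update x i.succ (x i.succ + a)) =
        x 0 :: List.ofFn (Function.update (fun j => x j.succ) i (x i.succ + a)) := by
      intro i
      rw [List.ofFn_succ, Function.update_of_ne (Fin.succ_ne_zero i).symm]
      congr 2
      funext j
      by_cases h : j = i
      · subst h; simp
      · rw [Function.update_of_ne h, Function.update_of_ne (fun h' => h (Fin.succ_injective _ h'))]
    rw [e1, e3]
    simp only [e2, e4, List.map_cons, List.map_nil, List.sum_cons, List.sum_nil, Function.comp_apply]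
    abel

theorem mul_mzv {n : ℕ} (a : ℕ) (ha : 2 ≤ a) (x : Fin n → ℕ) (hx : ∀ i, 2 ≤ x i) :
    zetaL [a] * mzv x = sig a x + ∑ i : Fin n, mzv (Function.update x i (x i + a)) := by
  have hA : Adm [a] := by rw [Adm_cons]; exact ⟨ha, by simp⟩
  have hX : Adm (List.ofFn x) :=
    adm_ofFn (fun i => (by norm_num : (1 : ℕ) ≤ 2).trans (hx i)) (fun _ => hx _)
  rw [mzv_eq' x hx, zetaL_mul _ _ hA hX, stuffle_single, sig]
  congr 1
  · refine Finset.sum_congr rfl fun i _ => ?_
    rw [mzv_eq']
    intro j
    unfold ins
    refine Fin.succAboveCases i ?_ (fun j => ?_) j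
    · rw [Fin.insertNth_apply_same]; exact ha
    · rw [Fin.insertNth_apply_succAbove]; exact hx j
  · refine Finset.sum_congr rfl fun i _ => ?_
    rw [mzv_eq']
    intro j
    by_cases h : j = i
    · subst h; rw [Function.update_self]; have := hx j; omega
    · rw [Function.update_of_ne h]; exact hx j

end Pool.Agent.Work.MP_4d52ff_nt.R
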