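import Pool.Agent.Work.MP_4d52ff_nt.R.OddBox
import Pool.Agent.Work.MP_4d52ff_nt.R.Even2

/-!
MODULE Odd2 (helper18).  Improved odd case: linear in the dimension of `Y`.
With `f a = zetaL [a]`, `D a b = mzv ![a, b] + mzv ![b, a]`, `f (a + b) = r pi^(a+b)`:
`f b2 * D a b1 - f b1 * D a b2 = pi^a (r(a+b2) α - r(a+b1) β)`, `α = f b1 pi^b2`, `β = f b2 pi^b1`.
-/

set_option autoImplicit false

namespace Pool.Agent.Work.MP_4d52ff_nt.R

lemma f_mul2 (a b : ℕ) (ha : 2 ≤ a) (hb : 2 ≤ b) :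
    zetaL [a] * zetaL [b] = (mzv ![a, b] + mzv ![b, a]) + zetaL [a + b] := by
  have h := mul_mzv (n := 1) a ha ![b] (by intro i; fin_cases i; exact hb)
  have e1 : mzv ![b] = zetaL [b] := by
    rw [mzv_eq' ![b] (by intro i; fin_cases i; exact hb)]
    rfl
  have e2 : ins a ![b] 0 = ![a, b] := by
    funext i
    fin_cases i <;> rfl
  have e3 : ins a ![b] 1 = ![b, a] := by
    funext i
    fin_cases i <;> rfl
  have e4 : mzv (Function.update ![b] 0 (![b] 0 + a)) = zetaL [a + b] := by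
    have : Function.update ![b] 0 (![b] 0 + a) = ![a + b] := by
      funext i
      fin_cases i
      simp [add_comm]
    rw [this, mzv_eq' ![a + b] (by intro i; fin_cases i; show 2 ≤ a + b; omega)]
    rfl
  rw [e1] at h
  rw [h, sig, Fin.sum_univ_two, e2, e3, Fin.sum_univ_one, e4]

lemma zetaL_pos1 (a : ℕ) (ha : 2 ≤ a) : 0 < zetaL [a] := by
  have e1 : mzv ![a] = zetaL [a] := by
    rw [mzv_eq' ![a] (by intro i; fin_cases i; exact ha)]
    rfl
  rw [← e1]
  exact mzv_pos ![a] (by intro i; fin_cases i; exact ha)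

/-- the determinant is nonzero -/
lemma cross_ne (b1 b2 a a' : ℕ) (hb1 : 2 ≤ b1) (hb2 : 2 ≤ b2) (ha : 2 ≤ a) (ha' : 2 ≤ a')
    (hb : b1 ≠ b2) (haa : a ≠ a') :
    zetaL [a + b2] * zetaL [a' + b1] ≠ zetaL [a + b1] * zetaL [a' + b2] := by
  rcases lt_or_gt_of_ne hb with h1 | h1 <;> rcases lt_or_gt_of_ne haa with h2 | h2
  · have := zetaL_cross a a' b1 b2 ha hb1 h2 h1
    exact this.ne
  · have := zetaL_cross a' a b1 b2 ha' hb1 h2 h1
    intro h3
    nlinarith
  · have := zetaL_cross a a' b2 b1 ha hb2 h2 h1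
    intro h3
    nlinarith
  · have := zetaL_cross a' a b2 b1 ha' hb2 h2 h1
    intro h3
    nlinarith

theorem odd_box2 (Y : Submodule (algebraicClosure ℚ ℂ) ℂ)
    (hfin : Module.Finite (algebraicClosure ℚ ℂ) Y) (b1 b2 : ℕ) (hb1 : 2 ≤ b1) (hb2 : 2 ≤ b2)
    (ho1 : Odd b1) (ho2 : Odd b2) (hne : b1 ≠ b2) (S : Finset ℕ)
    (hS : ∀ a ∈ S, 2 ≤ a ∧ Odd a ∧ ((mzv ![a, b1] + mzv ![b1, a] : ℝ) : ℂ) ∈ Y ∧
      ((mzv ![a, b2] + mzv ![b2, a] : ℝ) : ℂ) ∈ Y) :
    S.card ≤ 2 * Module.finrank (algebraicClosure ℚ ℂ) Y + 1 := by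
  classical
  -- the space Z
  let m1 : ℂ →ₗ[algebraicClosure ℚ ℂ] ℂ := LinearMap.mulLeft (algebraicClosure ℚ ℂ) ((zetaL [b1] : ℝ) : ℂ)
  let m2 : ℂ →ₗ[algebraicClosure ℚ ℂ] ℂ := LinearMap.mulLeft (algebraicClosure ℚ ℂ) ((zetaL [b2] : ℝ) : ℂ)
  let Z : Submodule (algebraicClosure ℚ ℂ) ℂ := Y.map m2 ⊔ Y.map m1
  have hZfin : Module.Finite (algebraicClosure ℚ ℂ) Z := by
    have := hfin
    infer_instance
  have hZdim : Module.finrank (algebraicClosure ℚ ℂ) Z ≤ 2 * Module.finrank (algebraicClosure ℚ ℂ) Y := by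
    have := hfin
    have h1 := Submodule.finrank_add_le_finrank_add_finrank (Y.map m2) (Y.map m1)
    have h2 := Submodule.finrank_map_le m2 Y
    have h3 := Submodule.finrank_map_le m1 Y
    exact h1.trans (by omega)
  obtain ⟨Γ, hΓ, v, hv, hvpi⟩ := exists_val
  have hp : v (Real.pi : ℂ) ≠ 0 := (zero_lt_one.trans hvpi).ne'
  have hpi : (Real.pi : ℂ) ≠ 0 := by exact_mod_cast Real.pi_ne_zero
  set al : ℂ := ((zetaL [b1] : ℝ) : ℂ) * (Real.pi : ℂ) ^ b2 with hal
  set be : ℂ := ((zetaL [b2] : ℝ) : ℂ) * (Real.pi : ℂ) ^ b1 with hbe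
  have hal0 : al ≠ 0 := mul_ne_zero (by exact_mod_cast (zetaL_pos1 b1 hb1).ne') (pow_ne_zero _ hpi)
  set v0 := max (v al) (v be) with hv0
  have hv0pos : v0 ≠ 0 := by
    have h1 : v al ≠ 0 := (Valuation.ne_zero_iff v).2 hal0
    intro h2
    have h3 := le_max_left (v al) (v be)
    rw [← hv0, h2] at h3
    exact h1 (le_zero_iff.1 h3)
  -- rational numbers
  have hr : ∀ a b : ℕ, ∃ r : ℚ, 2 ≤ a → Odd a → Odd b → zetaL [a + b] = (r : ℝ) * Real.pi ^ (a + b) := by
    intro a b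
    by_cases h : 2 ≤ a ∧ Odd a ∧ Odd b
    · obtain ⟨r, hr⟩ := zetaL_even (a + b) (h.2.1.add_odd h.2.2) (by omega)
      exact ⟨r, fun _ _ _ => hr⟩
    · exact ⟨0, fun h1 h2 h3 => absurd ⟨h1, h2, h3⟩ h⟩
  choose r hr using hr
  set w : ℕ → ℂ := fun a => (r a b2 : ℂ) * al - (r a b1 : ℂ) * be with hw
  set yy : ℕ → ℂ := fun a => ((zetaL [b2] : ℝ) : ℂ) * ((mzv ![a, b1] + mzv ![b1, a] : ℝ) : ℂ) -
    ((zetaL [b1] : ℝ) : ℂ) * ((mzv ![a, b2] + mzv ![b2, a] : ℝ) : ℂ) with hyy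
  have hyZ : ∀ a ∈ S, yy a ∈ Z := by
    intro a ha
    obtain ⟨h2, h3, h4, h5⟩ := hS a ha
    apply Z.sub_mem
    · exact Submodule.mem_sup_left ⟨_, h4, rfl⟩
    · exact Submodule.mem_sup_right ⟨_, h5, rfl⟩
  have hyw : ∀ a ∈ S, yy a = (Real.pi : ℂ) ^ a * w a := by
    intro a ha
    obtain ⟨h2, h3, h4, h5⟩ := hS a ha
    have e1 := f_mul2 a b1 h2 hb1
    have e2 := f_mul2 a b2 h2 hb2
    have e3 := hr a b1 h2 h3 ho1
    have e4 := hr a b2 h2 h3 ho2
    rw [e3] at e1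
    rw [e4] at e2
    have e5 : mzv ![a, b1] + mzv ![b1, a] = zetaL [a] * zetaL [b1] - (r a b1 : ℝ) * Real.pi ^ (a + b1) := by
      linarith
    have e6 : mzv ![a, b2] + mzv ![b2, a] = zetaL [a] * zetaL [b2] - (r a b2 : ℝ) * Real.pi ^ (a + b2) := by
      linarith
    simp only [hyy, hw, hal, hbe]
    rw [e5, e6]
    push_cast
    ring
  have hwle : ∀ a, v (w a) ≤ v0 := by
    intro a
    refine (Valuation.map_sub v _ _).trans (max_le ?_ ?_)
    · rw [map_mul]
      calc v ((r a b2 : ℚ) : ℂ) * v al ≤ 1 * v0 := mul_le_mul' (rat_v_le v hv _) (le_max_left _ _)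
        _ = v0 := one_mul _
    · rw [map_mul]
      calc v ((r a b1 : ℚ) : ℂ) * v be ≤ 1 * v0 := mul_le_mul' (rat_v_le v hv _) (le_max_right _ _)
        _ = v0 := one_mul _
  -- at most one element of small valuation
  have hlow : (S.filter fun a => v (w a) < v0).card ≤ 1 := by
    rw [Finset.card_le_one]
    intro a ha a' ha'
    by_contra haa
    obtain ⟨ha1, ha2⟩ := Finset.mem_filter.1 ha
    obtain ⟨ha3, ha4⟩ := Finset.mem_filter.1 ha'
    obtain ⟨h2, h3, -, -⟩ := hS a ha1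
    obtain ⟨h4, h5, -, -⟩ := hS a' ha3
    have hd : zetaL [a + b2] * zetaL [a' + b1] ≠ zetaL [a + b1] * zetaL [a' + b2] :=
      cross_ne b1 b2 a a' hb1 hb2 h2 h4 hne haa
    have hdet : r a b2 * r a' b1 - r a b1 * r a' b2 ≠ 0 := by
      intro h6
      apply hd
      rw [hr a b2 h2 h3 ho2, hr a' b1 h4 h5 ho1, hr a b1 h2 h3 ho1, hr a' b2 h4 h5 ho2]
      have h7 : ((r a b2 : ℝ) * (r a' b1 : ℝ)) = (r a b1 : ℝ) * (r a' b2 : ℝ) := by
        have : r a b2 * r a' b1 = r a b1 * r a' b2 := sub_eq_zero.1 h6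
        exact_mod_cast this
      have h8 : Real.pi ^ (a + b2) * Real.pi ^ (a' + b1) = Real.pi ^ (a + b1) * Real.pi ^ (a' + b2) := by
        rw [← pow_add, ← pow_add]
        congr 1
        omega
      calc (r a b2 : ℝ) * Real.pi ^ (a + b2) * ((r a' b1 : ℝ) * Real.pi ^ (a' + b1))
          = ((r a b2 : ℝ) * (r a' b1 : ℝ)) * (Real.pi ^ (a + b2) * Real.pi ^ (a' + b1)) := by ring
        _ = ((r a b1 : ℝ) * (r a' b2 : ℝ)) * (Real.pi ^ (a + b1) * Real.pi ^ (a' + b2)) := by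
            rw [h7, h8]
        _ = (r a b1 : ℝ) * Real.pi ^ (a + b1) * ((r a' b2 : ℝ) * Real.pi ^ (a' + b2)) := by ring
    set dd : ℚ := r a b2 * r a' b1 - r a b1 * r a' b2 with hdd
    have hddv : v (dd : ℂ) = 1 := by
      refine le_antisymm (rat_v_le v hv _) ?_
      have h6 := rat_v_le v hv dd⁻¹
      rw [Rat.cast_inv, map_inv₀] at h6
      have h7 : v (dd : ℂ) ≠ 0 := (Valuation.ne_zero_iff v).2 (by exact_mod_cast hdet)
      exact (inv_le_one₀ (zero_lt_iff.2 h7)).1 h6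
    have eal : (dd : ℂ) * al = (r a' b1 : ℂ) * w a - (r a b1 : ℂ) * w a' := by
      simp only [hw, hdd]
      push_cast
      ring
    have ebe : (dd : ℂ) * be = (r a' b2 : ℂ) * w a - (r a b2 : ℂ) * w a' := by
      simp only [hw, hdd]
      push_cast
      ring
    have hlt1 : v al < v0 := by
      have h6 : v ((dd : ℂ) * al) = v al := by rw [map_mul, hddv, one_mul]
      rw [← h6, eal]
      refine lt_of_le_of_lt (Valuation.map_sub v _ _) (max_lt ?_ ?_)
      · rw [map_mul]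
        calc v ((r a' b1 : ℚ) : ℂ) * v (w a) ≤ 1 * v (w a) :=
              mul_le_mul' (rat_v_le v hv _) le_rfl
          _ = v (w a) := one_mul _
          _ < v0 := ha2
      · rw [map_mul]
        calc v ((r a b1 : ℚ) : ℂ) * v (w a') ≤ 1 * v (w a') :=
              mul_le_mul' (rat_v_le v hv _) le_rfl
          _ = v (w a') := one_mul _
          _ < v0 := ha4
    have hlt2 : v be < v0 := by
      have h6 : v ((dd : ℂ) * be) = v be := by rw [map_mul, hddv, one_mul]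
      rw [← h6, ebe]
      refine lt_of_le_of_lt (Valuation.map_sub v _ _) (max_lt ?_ ?_)
      · rw [map_mul]
        calc v ((r a' b2 : ℚ) : ℂ) * v (w a) ≤ 1 * v (w a) :=
              mul_le_mul' (rat_v_le v hv _) le_rfl
          _ = v (w a) := one_mul _
          _ < v0 := ha2
      · rw [map_mul]
        calc v ((r a b2 : ℚ) : ℂ) * v (w a') ≤ 1 * v (w a') :=
              mul_le_mul' (rat_v_le v hv _) le_rfl
          _ = v (w a') := one_mul _
          _ < v0 := ha4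
    exact lt_irrefl _ (max_lt hlt1 hlt2)
  -- the others give different valuations
  have hVf := vals_finite v hv Z
  have hhigh : (S.filter fun a => ¬ v (w a) < v0).card ≤ Module.finrank (algebraicClosure ℚ ℂ) Z := by
    refine le_trans ?_ hVf.2
    rw [Set.ncard_eq_toFinset_card _ hVf.1]
    have hval : ∀ a ∈ S.filter (fun a => ¬ v (w a) < v0), v (yy a) = v (Real.pi : ℂ) ^ a * v0 := by
      intro a ha
      obtain ⟨h2, h3⟩ := Finset.mem_filter.1 ha
      have h4 : v (w a) = v0 := le_antisymm (hwle a) (not_lt.1 h3)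
      rw [hyw a h2, map_mul, map_pow, h4]
    refine Finset.card_le_card_of_injOn (fun a => v (yy a)) ?_ ?_
    · intro a ha
      have ha' : a ∈ S.filter (fun a => ¬ v (w a) < v0) := ha
      refine Finset.mem_coe.2 (hVf.1.mem_toFinset.2 ⟨yy a, hyZ a (Finset.mem_filter.1 ha').1, ?_, rfl⟩)
      intro h2
      have h3 := hval a ha'
      rw [h2, map_zero] at h3
      exact mul_ne_zero (pow_ne_zero _ hp) hv0pos h3.symm
    · intro s hs t ht hst
      have h2 := hval s hs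
      have h3 := hval t ht
      have h4 : v (Real.pi : ℂ) ^ s * v0 = v (Real.pi : ℂ) ^ t * v0 := by
        rw [← h2, ← h3]
        exact hst
      have h5 := mul_right_cancel₀ hv0pos h4
      exact pow_right_injective₀ (zero_lt_one.trans hvpi) hvpi.ne' h5
  have hsplit := Finset.card_filter_add_card_filter_not (s := S) (fun a => v (w a) < v0)
  omega

end Pool.Agent.Work.MP_4d52ff_nt.R
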