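import Pool.Agent.Work.MP_4d52ff_nt.R.Comb
import Pool.Agent.Work.MP_4d52ff_nt.R.Even2
import Pool.Agent.Work.MP_4d52ff_nt.R.Odd2

/-!
MODULE Master (helper18).  The master inequality: `comb` with `M = N + 1`, `I = [1, N]`, `T = h + 2^n`
(resp. `T = 2 h + 1`).
-/

set_option autoImplicit false

namespace Pool.Agent.Work.MP_4d52ff_nt.R

/-- the arithmetic of the exponents -/
lemma comb_bound (n N T : ℕ) (hN : 1 ≤ N) :
    ((N + 1 : ℕ) : ℝ) ^ (n * (2 ^ n - 2)) *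
      ((T : ℝ) * ((N + 1 : ℕ) : ℝ) ^ (2 * n) + (n : ℝ) * (N : ℝ) * ((N + 1 : ℕ) : ℝ) ^ (2 * n - 1)) ≤
      (2 : ℝ) ^ (n * 2 ^ n) * ((T : ℝ) + n) * (N : ℝ) ^ (n * 2 ^ n) := by
  have hN1 : ((N + 1 : ℕ) : ℝ) ≤ 2 * (N : ℝ) := by
    have : (1 : ℝ) ≤ (N : ℝ) := by exact_mod_cast hN
    push_cast
    linarith
  have hpos : (0 : ℝ) ≤ ((N + 1 : ℕ) : ℝ) := Nat.cast_nonneg _
  have h1 : (n : ℝ) * (N : ℝ) * ((N + 1 : ℕ) : ℝ) ^ (2 * n - 1) ≤ (n : ℝ) * ((N + 1 : ℕ) : ℝ) ^ (2 * n) := by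
    rcases Nat.eq_zero_or_pos n with hn | hn
    · subst hn
      simp
    · have e : 2 * n = (2 * n - 1) + 1 := by omega
      have h2 : ((N + 1 : ℕ) : ℝ) ^ (2 * n) = ((N + 1 : ℕ) : ℝ) ^ (2 * n - 1) * ((N + 1 : ℕ) : ℝ) := by
        rw [← pow_succ, ← e]
      rw [h2, mul_assoc]
      apply mul_le_mul_of_nonneg_left _ (Nat.cast_nonneg _)
      rw [mul_comm]
      apply mul_le_mul_of_nonneg_left _ (pow_nonneg hpos _)
      push_cast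
      linarith
  have h2 : ((N + 1 : ℕ) : ℝ) ^ (n * (2 ^ n - 2)) *
      ((T : ℝ) * ((N + 1 : ℕ) : ℝ) ^ (2 * n) + (n : ℝ) * (N : ℝ) * ((N + 1 : ℕ) : ℝ) ^ (2 * n - 1)) ≤
      ((T : ℝ) + n) * ((N + 1 : ℕ) : ℝ) ^ (n * 2 ^ n) := by
    have e : n * 2 ^ n = n * (2 ^ n - 2) + 2 * n := by
      rcases Nat.eq_zero_or_pos n with hn | hn
      · subst hn
        simp
      · have h3 : 2 ≤ 2 ^ n := by
          calc 2 = 2 ^ 1 := (pow_one 2).symm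
            _ ≤ 2 ^ n := Nat.pow_le_pow_right (by norm_num) hn
        obtain ⟨m, hm⟩ := Nat.exists_eq_add_of_le h3
        rw [hm]
        have : 2 + m - 2 = m := by omega
        rw [this]
        ring
    rw [e, pow_add]
    calc ((N + 1 : ℕ) : ℝ) ^ (n * (2 ^ n - 2)) *
        ((T : ℝ) * ((N + 1 : ℕ) : ℝ) ^ (2 * n) + (n : ℝ) * (N : ℝ) * ((N + 1 : ℕ) : ℝ) ^ (2 * n - 1))
        ≤ ((N + 1 : ℕ) : ℝ) ^ (n * (2 ^ n - 2)) *
        ((T : ℝ) * ((N + 1 : ℕ) : ℝ) ^ (2 * n) + (n : ℝ) * ((N + 1 : ℕ) : ℝ) ^ (2 * n)) := by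
          apply mul_le_mul_of_nonneg_left _ (pow_nonneg hpos _)
          linarith
      _ = ((T : ℝ) + n) * (((N + 1 : ℕ) : ℝ) ^ (n * (2 ^ n - 2)) * ((N + 1 : ℕ) : ℝ) ^ (2 * n)) := by
          ring
  refine h2.trans ?_
  have h3 : ((N + 1 : ℕ) : ℝ) ^ (n * 2 ^ n) ≤ (2 : ℝ) ^ (n * 2 ^ n) * (N : ℝ) ^ (n * 2 ^ n) := by
    rw [← mul_pow]
    exact pow_le_pow_left₀ hpos hN1 _
  calc ((T : ℝ) + n) * ((N + 1 : ℕ) : ℝ) ^ (n * 2 ^ n)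
      ≤ ((T : ℝ) + n) * ((2 : ℝ) ^ (n * 2 ^ n) * (N : ℝ) ^ (n * 2 ^ n)) :=
        mul_le_mul_of_nonneg_left h3 (by positivity)
    _ = (2 : ℝ) ^ (n * 2 ^ n) * ((T : ℝ) + n) * (N : ℝ) ^ (n * 2 ^ n) := by ring

theorem master_even (n : ℕ) : ∃ C : ℝ, 0 < C ∧ ∀ N h : ℕ, 1 ≤ N →
    ∀ Y : Submodule (algebraicClosure ℚ ℂ) ℂ, Module.Finite (algebraicClosure ℚ ℂ) Y →
    Module.finrank (algebraicClosure ℚ ℂ) Y ≤ h → ∀ G : ℕ → Finset (Fin n → ℕ),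
    (∀ s ∈ Finset.Icc 1 N, ∀ x ∈ G s, (∀ i, 2 ≤ x i) ∧ ∑ i, x i + 2 ≤ s ∧ Even (s - ∑ i, x i) ∧
      ((sig (s - ∑ i, x i) x : ℝ) : ℂ) ∈ Y) →
    ∑ s ∈ Finset.Icc 1 N, ((G s).card : ℝ) ^ (2 ^ n) ≤ C * ((h : ℝ) + 1) * (N : ℝ) ^ (n * 2 ^ n) := by
  classical
  refine ⟨(2 : ℝ) ^ (n * 2 ^ n) * ((2 : ℝ) ^ n + n + 1), by positivity, ?_⟩
  intro N h hN Y hfin hdim G hG
  have hlt : ∀ s ∈ Finset.Icc 1 N, ∀ x ∈ G s, ∀ i, x i < N + 1 := by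
    intro s hs x hx i
    obtain ⟨h1, h2, -, -⟩ := hG s hs x hx
    have h3 : x i ≤ ∑ i, x i :=
      Finset.single_le_sum (f := x) (fun _ _ => Nat.zero_le _) (Finset.mem_univ i)
    have h4 := (Finset.mem_Icc.1 hs).2
    omega
  have key := comb n (N + 1) (h + 2 ^ n) (Finset.Icc 1 N) G hlt (by
    intro x0 x1 hne
    rcases Finset.eq_empty_or_nonempty
      ((Finset.Icc 1 N).filter fun s => ∀ e : Fin n → Bool, vx x0 x1 e ∈ G s) with hem | ⟨s0, hs0⟩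
    · rw [hem]
      simp
    · obtain ⟨hs1, hs2⟩ := Finset.mem_filter.1 hs0
      have h0 : ∀ i, 2 ≤ x0 i := by
        intro i
        have h3 := (hG s0 hs1 _ (hs2 (fun _ => false))).1 i
        simpa [vx] using h3
      have h1 : ∀ i, 2 ≤ x1 i := by
        intro i
        have h3 := (hG s0 hs1 _ (hs2 (fun _ => true))).1 i
        simpa [vx] using h3
      have h4 := even_box2 n Y hfin x0 x1 h0 h1 hne
        ((Finset.Icc 1 N).filter fun s => ∀ e : Fin n → Bool, vx x0 x1 e ∈ G s) (by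
          intro s hs e
          obtain ⟨hs3, hs4⟩ := Finset.mem_filter.1 hs
          exact (hG s hs3 _ (hs4 e)).2)
      omega)
  refine key.trans ?_
  rw [Nat.card_Icc]
  have e1 : ((N + 1 - 1 : ℕ) : ℝ) = (N : ℝ) := by
    rw [Nat.add_sub_cancel]
  rw [e1]
  refine (comb_bound n N (h + 2 ^ n) hN).trans ?_
  have h5 : (((h + 2 ^ n : ℕ) : ℝ) + n) ≤ ((2 : ℝ) ^ n + n + 1) * ((h : ℝ) + 1) := by
    push_cast
    have h6 : (0 : ℝ) ≤ (h : ℝ) := Nat.cast_nonneg _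
    have h7 : (0 : ℝ) ≤ ((2 : ℝ) ^ n + n) * (h : ℝ) := by positivity
    nlinarith
  have h8 : (0 : ℝ) ≤ (N : ℝ) ^ (n * 2 ^ n) := by positivity
  have h9 : (0 : ℝ) ≤ (2 : ℝ) ^ (n * 2 ^ n) := by positivity
  calc (2 : ℝ) ^ (n * 2 ^ n) * (((h + 2 ^ n : ℕ) : ℝ) + n) * (N : ℝ) ^ (n * 2 ^ n)
      ≤ (2 : ℝ) ^ (n * 2 ^ n) * (((2 : ℝ) ^ n + n + 1) * ((h : ℝ) + 1)) * (N : ℝ) ^ (n * 2 ^ n) := by
        apply mul_le_mul_of_nonneg_right _ h8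
        exact mul_le_mul_of_nonneg_left h5 h9
    _ = (2 : ℝ) ^ (n * 2 ^ n) * ((2 : ℝ) ^ n + n + 1) * ((h : ℝ) + 1) * (N : ℝ) ^ (n * 2 ^ n) := by
        ring

theorem master_odd : ∃ C : ℝ, 0 < C ∧ ∀ N h : ℕ, 1 ≤ N →
    ∀ Y : Submodule (algebraicClosure ℚ ℂ) ℂ, Module.Finite (algebraicClosure ℚ ℂ) Y →
    Module.finrank (algebraicClosure ℚ ℂ) Y ≤ h → ∀ G : ℕ → Finset ℕ,
    (∀ b ∈ Finset.Icc 1 N, ∀ a ∈ G b, 2 ≤ a ∧ a ≤ N ∧ Odd a ∧ 2 ≤ b ∧ Odd b ∧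
      ((mzv ![a, b] + mzv ![b, a] : ℝ) : ℂ) ∈ Y) →
    ∑ b ∈ Finset.Icc 1 N, ((G b).card : ℝ) ^ 2 ≤ C * ((h : ℝ) + 1) * (N : ℝ) ^ 2 := by
  classical
  refine ⟨12, by norm_num, ?_⟩
  intro N h hN Y hfin hdim G hG
  -- roles: `s = b`, `x = a`
  let G' : ℕ → Finset (Fin 1 → ℕ) := fun b => (G b).image (fun a => (fun _ : Fin 1 => a))
  have hcard : ∀ b, (G' b).card = (G b).card := by
    intro b
    apply Finset.card_image_of_injective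
    intro a a' haa
    exact congrFun haa 0
  have hmem : ∀ b (x : Fin 1 → ℕ), x ∈ G' b → x 0 ∈ G b := by
    intro b x hx
    obtain ⟨a, ha, rfl⟩ := Finset.mem_image.1 hx
    exact ha
  have key := comb 1 (N + 1) (2 * h + 1) (Finset.Icc 1 N) G' (by
    intro b hb x hx i
    have h1 := (hG b hb _ (hmem b x hx)).2.1
    rw [Subsingleton.elim i 0]
    omega) (by
    intro x0 x1 hne
    rcases Finset.eq_empty_or_nonempty
      ((Finset.Icc 1 N).filter fun s => ∀ e : Fin 1 → Bool, vx x0 x1 e ∈ G' s) with hem | ⟨s0, hs0⟩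
    · rw [hem]
      simp
    · have hx : ∀ s ∈ (Finset.Icc 1 N).filter (fun s => ∀ e : Fin 1 → Bool, vx x0 x1 e ∈ G' s),
          s ∈ Finset.Icc 1 N ∧ x0 0 ∈ G s ∧ x1 0 ∈ G s := by
        intro s hs
        obtain ⟨h1, h2⟩ := Finset.mem_filter.1 hs
        have h3 := hmem s _ (h2 (fun _ => false))
        have h4 := hmem s _ (h2 (fun _ => true))
        exact ⟨h1, by simpa [vx] using h3, by simpa [vx] using h4⟩
      obtain ⟨h1, h2, h3⟩ := hx s0 hs0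
      have g2 := hG s0 h1 _ h2
      have g3 := hG s0 h1 _ h3
      have h4 := odd_box2 Y hfin (x0 0) (x1 0) g2.1 g3.1 g2.2.2.1 g3.2.2.1 (hne 0)
        ((Finset.Icc 1 N).filter fun s => ∀ e : Fin 1 → Bool, vx x0 x1 e ∈ G' s) (by
          intro s hs
          obtain ⟨k1, k2, k3⟩ := hx s hs
          have f2 := hG s k1 _ k2
          have f3 := hG s k1 _ k3
          refine ⟨f2.2.2.2.1, f2.2.2.2.2.1, ?_, ?_⟩
          · rw [add_comm]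
            exact f2.2.2.2.2.2
          · rw [add_comm]
            exact f3.2.2.2.2.2)
      omega)
  simp only [hcard, pow_one] at key
  refine key.trans ?_
  rw [Nat.card_Icc]
  have e1 : ((N + 1 - 1 : ℕ) : ℝ) = (N : ℝ) := by
    rw [Nat.add_sub_cancel]
  rw [e1]
  have h5 := comb_bound 1 N (2 * h + 1) hN
  simp only [pow_one] at h5
  refine h5.trans ?_
  norm_num
  have h6 : (0 : ℝ) ≤ (h : ℝ) := Nat.cast_nonneg _
  have h8 : (0 : ℝ) ≤ (N : ℝ) ^ 2 := by positivity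
  nlinarith

end Pool.Agent.Work.MP_4d52ff_nt.R
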