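import Pool.Agent.Work.MP_4d52ff_nt.R.Ins
import Pool.Agent.Work.MP_4d52ff_nt.R.EvenZ
import Pool.Agent.Work.MP_4d52ff_nt.R.Val

/-!
MODULE OddBox (size M-L).  The case of two odd arguments.

PROOF.  Write `f a = zetaL [a]`, `D a b = mzv ![a, b] + mzv ![b, a]`, so `f a * f b = D a b + f (a + b)`
(`zetaL_mul`, `stuffle`), and `f (a + b) = r (a + b) pi^(a + b)` with `r` rational (`zetaL_even`) for odd `a, b`.
For `a1 < a2` in `X1`, `b1 < b2` in `X2` (or any order) put `e_ij = a_i + b_j`, `A = a1 + a2 + b1 + b2`.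
From `(f a1 f b1)(f a2 f b2) = (f a1 f b2)(f a2 f b1)`:
`Delta pi^A + r11 pi^e11 D22 + r22 pi^e22 D11 - r12 pi^e12 D21 - r21 pi^e21 D12 + (D11 D22 - D12 D21) = 0`
with `Delta = r11 r22 - r12 r21 ≠ 0` (`zetaL_cross`).
`v` from `exists_val`; `U = vals v Y` (at most `h`), `U2 = vals v (Y * Y)` where `Y * Y` is the span of the products
(`Submodule.mul`, finite dimension at most `h^2`: spanned by the products of basis elements), at most `h^2` values.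
Let `BB` be the finite set of integers: `bad v U U`, `bad v {1} U`, `bad v {1} U2`, `bad v U U2` and their
negatives (at most `8 (h+1)^3` elements).  The six terms (with `D11 D22 - D12 D21 ∈ Y * Y` as one term) have
pairwise different valuations if none of
`b1 - b2, a1 - a2, (a1 - a2) + (b1 - b2), (a1 - a2) - (b1 - b2), e_ij, A` is in `BB`; then `sum_ne` gives a
contradiction since the first term is nonzero.  Choose `a1, a2 ∈ X1` with `a1 - a2 ∉ BB`, then `b1 ∈ X2` with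
`a_i + b1 ∉ BB`, then `b2 ∈ X2` outside finitely many forbidden values (at most 10 translates of `BB`):
`B = 20 * |BB| + 20` is enough, e.g. `B = 200 * (h + 1)^3 + 20`; any explicit `B` depending only on `h` will do.
-/

set_option autoImplicit false

namespace Pool.Agent.Work.MP_4d52ff_nt.R

open Finset

private theorem f_mul (a b : ℕ) (ha : 2 ≤ a) (hb : 2 ≤ b) :
    zetaL [a] * zetaL [b] = (mzv ![a, b] + mzv ![b, a]) + zetaL [a + b] := by
  have h := mul_mzv (n := 1) a ha ![b] (by intro i; fin_cases i; exact hb)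
  have e1 : mzv ![b] = zetaL [b] := by
    rw [mzv_eq' ![b] (by intro i; fin_cases i; exact hb)]
    rfl
  have e2 : ins a ![b] 0 = ![a, b] := by
    funext i
    fin_cases i <;> rfl
  have e3 : ins a ![b] 1 = ![b, a] := by
    funext i
    fin_cases i <;> rfl
  have e4 : mzv (Function.update ![b] 0 (![b] 0 + a)) = zetaL [a + b] := by
    have : Function.update ![b] 0 (![b] 0 + a) = ![a + b] := by
      funext i
      fin_cases i
      simp [add_comm]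
    rw [this, mzv_eq' ![a + b] (by intro i; fin_cases i; show 2 ≤ a + b; omega)]
    rfl
  rw [e1] at h
  rw [h, sig, Fin.sum_univ_two, e2, e3, Fin.sum_univ_one, e4]

variable {Γ : Type} [LinearOrderedCommGroupWithZero Γ]

private theorem pick (X : Finset ℕ) (B : Set ℤ) (hB : B.Finite) (k : ℕ) (φ : Fin k → ℕ → ℤ)
    (hφ : ∀ i, Function.Injective (φ i)) (hX : k * B.ncard < X.card) :
    ∃ b ∈ X, ∀ i, φ i b ∉ B := by
  classical
  by_contra hcon
  have h1 : X ⊆ Finset.univ.biUnion fun i => X.filter fun b => φ i b ∈ B := by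
    intro b hb
    by_contra h2
    apply hcon
    refine ⟨b, hb, fun i hi => h2 ?_⟩
    exact Finset.mem_biUnion.2 ⟨i, Finset.mem_univ _, Finset.mem_filter.2 ⟨hb, hi⟩⟩
  have h2 : ∀ i ∈ (Finset.univ : Finset (Fin k)),
      (X.filter fun b => φ i b ∈ B).card ≤ B.ncard := by
    intro i _
    rw [Set.ncard_eq_toFinset_card B hB]
    refine Finset.card_le_card_of_injOn (φ i) ?_ (fun a _ b _ hab => hφ i hab)
    intro b hb
    have : φ i b ∈ B := (Finset.mem_filter.1 (Finset.mem_coe.1 hb)).2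
    exact Finset.mem_coe.2 (hB.mem_toFinset.2 this)
  have h3 := (Finset.card_le_card h1).trans (Finset.card_biUnion_le_card_mul _ _ _ h2)
  rw [Finset.card_univ, Fintype.card_fin] at h3
  omega

private theorem six (v : Valuation ℂ Γ) (hpi : 1 < v (Real.pi : ℂ)) (t : Fin 6 → ℂ)
    (E : Fin 6 → ℤ) (W : Fin 6 → Set Γ)
    (h : ∀ i, t i ≠ 0 → ∃ g ∈ W i, v (t i) = v (Real.pi : ℂ) ^ E i * g)
    (hE : ∀ i j, i < j → E i - E j ∉ bad v (W i) (W j)) (h0 : t 0 ≠ 0)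
    (hsum : ∑ i, t i = 0) : False := by
  have hp : v (Real.pi : ℂ) ≠ 0 := (zero_lt_one.trans hpi).ne'
  have key : ∀ i j, i < j → t i ≠ 0 → t j ≠ 0 → v (t i) ≠ v (t j) := by
    intro i j hij hi hj heq
    obtain ⟨g, hg, h1⟩ := h i hi
    obtain ⟨g', hg', h2⟩ := h j hj
    apply hE i j hij
    refine ⟨g, hg, g', hg', ?_⟩
    rw [h1, h2] at heq
    rw [zpow_sub₀ hp, div_mul_eq_mul_div, heq, mul_comm, mul_div_assoc,
      div_self (zpow_ne_zero _ hp), mul_one]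
  refine (sum_ne v Finset.univ t ⟨0, Finset.mem_univ _, h0⟩ ?_).1 hsum
  intro i _ j _ hij hi hj
  rcases lt_or_gt_of_ne hij with h3 | h3
  · exact key i j h3 hi hj
  · exact (key j i h3 hj hi).symm

theorem odd_box (h : ℕ) : ∃ B : ℕ, ∀ Y : Submodule (algebraicClosure ℚ ℂ) ℂ,
    Module.Finite (algebraicClosure ℚ ℂ) Y → Module.finrank (algebraicClosure ℚ ℂ) Y ≤ h →
    ∀ X1 X2 : Finset ℕ, B ≤ X1.card → B ≤ X2.card →
    (∀ a ∈ X1, 2 ≤ a ∧ Odd a) → (∀ b ∈ X2, 2 ≤ b ∧ Odd b) →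
    (∀ a ∈ X1, ∀ b ∈ X2, ((mzv ![a, b] + mzv ![b, a] : ℝ) : ℂ) ∈ Y) → False := by
  classical
  let M : ℕ := h * h + h + h * h + h * (h * h) + 1
  refine ⟨10 * M + 10, fun Y hfin hrank X1 X2 hX1 hX2 hodd1 hodd2 hmem => ?_⟩
  have := hfin
  obtain ⟨Γ, inst, v, hv, hpi⟩ := exists_val
  have hp : v (Real.pi : ℂ) ≠ 0 := (zero_lt_one.trans hpi).ne'
  -- the product space
  have hfin2 : Module.Finite (algebraicClosure ℚ ℂ) (Y * Y : Submodule (algebraicClosure ℚ ℂ) ℂ) :=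
    Module.Finite.iff_fg.2 (Submodule.FG.mul (Module.Finite.iff_fg.1 hfin)
      (Module.Finite.iff_fg.1 hfin))
  have hrank2 : Module.finrank (algebraicClosure ℚ ℂ)
      (Y * Y : Submodule (algebraicClosure ℚ ℂ) ℂ) ≤ h * h := by
    rw [← Submodule.mulMap_range]
    refine (LinearMap.finrank_range_le _).trans ?_
    rw [Module.finrank_tensorProduct]
    exact Nat.mul_le_mul hrank hrank
  set U := vals v Y with hU
  set U2 := vals v (Y * Y) with hU2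
  obtain ⟨hUf, hUc⟩ := vals_finite v hv Y
  obtain ⟨hU2f, hU2c⟩ := vals_finite v hv (Y * Y)
  have hU0 : ∀ u ∈ U, u ≠ 0 := by
    rintro _ ⟨y, _, hy, rfl⟩
    exact (Valuation.ne_zero_iff v).2 hy
  have h10 : ∀ u ∈ ({1} : Set Γ), u ≠ 0 := by
    rintro u rfl
    exact one_ne_zero
  have hUc' : U.ncard ≤ h := hUc.trans hrank
  have hU2c' : U2.ncard ≤ h * h := hU2c.trans hrank2
  obtain ⟨f1, c1⟩ := bad_finite v hpi U U hUf hUf hU0
  obtain ⟨f2, c2⟩ := bad_finite v hpi {1} U (Set.finite_singleton 1) hUf h10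
  obtain ⟨f3, c3⟩ := bad_finite v hpi {1} U2 (Set.finite_singleton 1) hU2f h10
  obtain ⟨f4, c4⟩ := bad_finite v hpi U U2 hUf hU2f hU0
  rw [Set.ncard_singleton, one_mul] at c2 c3
  let BB : Set ℤ := bad v U U ∪ bad v {1} U ∪ bad v {1} U2 ∪ bad v U U2 ∪ {0}
  have hBBf : BB.Finite := (((f1.union f2).union f3).union f4).union (Set.finite_singleton 0)
  have hBBc : BB.ncard ≤ M := by
    refine (Set.ncard_union_le _ _).trans ?_
    rw [Set.ncard_singleton]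
    refine Nat.add_le_add_right ?_ 1
    refine (Set.ncard_union_le _ _).trans (Nat.add_le_add ?_ ?_)
    · refine (Set.ncard_union_le _ _).trans (Nat.add_le_add ?_ ?_)
      · refine (Set.ncard_union_le _ _).trans (Nat.add_le_add ?_ ?_)
        · exact c1.trans (Nat.mul_le_mul hUc' hUc')
        · exact c2.trans hUc'
      · exact c3.trans hU2c'
    · exact c4.trans (Nat.mul_le_mul hUc' hU2c')
  have b1 : ∀ e, e ∉ BB → e ∉ bad v U U := fun e he h1 => he (Or.inl (Or.inl (Or.inl (Or.inl h1))))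
  have b2 : ∀ e, e ∉ BB → e ∉ bad v {1} U := fun e he h1 => he (Or.inl (Or.inl (Or.inl (Or.inr h1))))
  have b3 : ∀ e, e ∉ BB → e ∉ bad v {1} U2 := fun e he h1 => he (Or.inl (Or.inl (Or.inr h1)))
  have b4 : ∀ e, e ∉ BB → e ∉ bad v U U2 := fun e he h1 => he (Or.inl (Or.inr h1))
  have b5 : ∀ e, e ∉ BB → e ≠ 0 := fun e he h1 => he (Or.inr h1)
  have hinj : ∀ c : ℤ, Function.Injective fun n : ℕ => c + (n : ℤ) := by
    intro c a b hab
    simpa using hab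
  have hinj' : ∀ c : ℤ, Function.Injective fun n : ℕ => c - (n : ℤ) := by
    intro c a b hab
    simpa using hab
  obtain ⟨a1, ha1, -⟩ := pick X1 BB hBBf 0 (fun i => i.elim0) (fun i => i.elim0) (by omega)
  obtain ⟨a2, ha2, hp2⟩ := pick X1 BB hBBf 1 (fun _ n => (a1 : ℤ) - (n : ℤ)) (fun _ => hinj' _)
    (by omega)
  obtain ⟨y1, hy1, hq1⟩ := pick X2 BB hBBf 2
    (fun i n => (![(a1 : ℤ), (a2 : ℤ)] i) + (n : ℤ)) (fun _ => hinj _) (by omega)
  obtain ⟨y2, hy2, hq2⟩ := pick X2 BB hBBf 6 (fun i n => ![(y1 : ℤ) - (n : ℤ),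
    (a1 : ℤ) - a2 + y1 - (n : ℤ), (a1 : ℤ) - a2 - y1 + (n : ℤ), (a1 : ℤ) + (n : ℤ),
    (a2 : ℤ) + (n : ℤ), (a1 : ℤ) + a2 + y1 + (n : ℤ)] i) (by
      intro i
      fin_cases i
      · exact hinj' _
      · exact hinj' _
      · exact hinj _
      · exact hinj _
      · exact hinj _
      · exact hinj _) (by omega)
  have c01 : (a1 : ℤ) - a2 ∉ BB := hp2 0
  have c11 : (a1 : ℤ) + y1 ∉ BB := hq1 0
  have c21 : (a2 : ℤ) + y1 ∉ BB := hq1 1
  have c02 : (y1 : ℤ) - y2 ∉ BB := hq2 0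
  have c03 : (a1 : ℤ) - a2 + y1 - y2 ∉ BB := hq2 1
  have c04 : (a1 : ℤ) - a2 - y1 + y2 ∉ BB := hq2 2
  have c12 : (a1 : ℤ) + y2 ∉ BB := hq2 3
  have c22 : (a2 : ℤ) + y2 ∉ BB := hq2 4
  have cA : (a1 : ℤ) + a2 + y1 + y2 ∉ BB := hq2 5
  obtain ⟨ga1, oa1⟩ := hodd1 a1 ha1
  obtain ⟨ga2, oa2⟩ := hodd1 a2 ha2
  obtain ⟨gy1, oy1⟩ := hodd2 y1 hy1
  obtain ⟨gy2, oy2⟩ := hodd2 y2 hy2
  obtain ⟨r11, hr11⟩ := zetaL_even (a1 + y1) (oa1.add_odd oy1) (by omega)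
  obtain ⟨r12, hr12⟩ := zetaL_even (a1 + y2) (oa1.add_odd oy2) (by omega)
  obtain ⟨r21, hr21⟩ := zetaL_even (a2 + y1) (oa2.add_odd oy1) (by omega)
  obtain ⟨r22, hr22⟩ := zetaL_even (a2 + y2) (oa2.add_odd oy2) (by omega)
  have m11 := f_mul a1 y1 ga1 gy1
  have m12 := f_mul a1 y2 ga1 gy2
  have m21 := f_mul a2 y1 ga2 gy1
  have m22 := f_mul a2 y2 ga2 gy2
  have hne1 : a1 ≠ a2 := by
    rintro rfl
    exact b5 _ c01 (sub_self _)
  have hne2 : y1 ≠ y2 := by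
    rintro rfl
    exact b5 _ c02 (sub_self _)
  have hcross : zetaL [a1 + y1] * zetaL [a2 + y2] ≠ zetaL [a1 + y2] * zetaL [a2 + y1] := by
    rcases lt_or_gt_of_ne hne1 with h1 | h1 <;> rcases lt_or_gt_of_ne hne2 with h2 | h2
    · exact (zetaL_cross a1 a2 y1 y2 ga1 gy1 h1 h2).ne'
    · exact (zetaL_cross a1 a2 y2 y1 ga1 gy2 h1 h2).ne
    · have h3 := (zetaL_cross a2 a1 y1 y2 ga2 gy1 h1 h2).ne
      rw [mul_comm (zetaL [a2 + y2]), mul_comm (zetaL [a2 + y1])] at h3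
      exact h3
    · have h3 := (zetaL_cross a2 a1 y2 y1 ga2 gy2 h1 h2).ne'
      rw [mul_comm (zetaL [a2 + y2]), mul_comm (zetaL [a2 + y1])] at h3
      exact h3
  have hΔ : r11 * r22 - r12 * r21 ≠ 0 := by
    intro h0
    apply hcross
    rw [hr11, hr12, hr21, hr22]
    have h1 : (r11 : ℝ) * r22 = r12 * r21 := by exact_mod_cast sub_eq_zero.1 h0
    have h2 : Real.pi ^ (a1 + y1) * Real.pi ^ (a2 + y2) =
        Real.pi ^ (a1 + y2) * Real.pi ^ (a2 + y1) := by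
      rw [← pow_add, ← pow_add]
      congr 1
      omega
    linear_combination (Real.pi ^ (a1 + y1) * Real.pi ^ (a2 + y2)) * h1 +
      (r12 : ℝ) * r21 * h2
  -- the identity
  have hid : ((r11 * r22 - r12 * r21 : ℚ) : ℝ) * Real.pi ^ (a1 + a2 + y1 + y2) +
      (r11 : ℝ) * Real.pi ^ (a1 + y1) * (mzv ![a2, y2] + mzv ![y2, a2]) +
      (r22 : ℝ) * Real.pi ^ (a2 + y2) * (mzv ![a1, y1] + mzv ![y1, a1]) +
      (-(r12 : ℝ)) * Real.pi ^ (a1 + y2) * (mzv ![a2, y1] + mzv ![y1, a2]) +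
      (-(r21 : ℝ)) * Real.pi ^ (a2 + y1) * (mzv ![a1, y2] + mzv ![y2, a1]) +
      ((mzv ![a1, y1] + mzv ![y1, a1]) * (mzv ![a2, y2] + mzv ![y2, a2]) -
        (mzv ![a1, y2] + mzv ![y2, a1]) * (mzv ![a2, y1] + mzv ![y1, a2])) = 0 := by
    have h1 : (zetaL [a1] * zetaL [y1]) * (zetaL [a2] * zetaL [y2]) =
        (zetaL [a1] * zetaL [y2]) * (zetaL [a2] * zetaL [y1]) := by ring
    rw [m11, m22, m12, m21, hr11, hr12, hr21, hr22] at h1
    have e1 : Real.pi ^ (a1 + a2 + y1 + y2) = Real.pi ^ (a1 + y1) * Real.pi ^ (a2 + y2) := by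
      rw [← pow_add]
      congr 1
      omega
    have e2 : Real.pi ^ (a1 + a2 + y1 + y2) = Real.pi ^ (a1 + y2) * Real.pi ^ (a2 + y1) := by
      rw [← pow_add]
      congr 1
      omega
    push_cast
    linear_combination h1 + (r11 : ℝ) * r22 * e1 - (r12 : ℝ) * r21 * e2
  -- valuations
  have hvq : ∀ r : ℚ, r ≠ 0 → v ((r : ℝ) : ℂ) = 1 := by
    intro r hr
    have h1 := hv (algebraMap ℚ (algebraicClosure ℚ ℂ) r) (by
      rw [Ne, map_eq_zero_iff _ (algebraMap ℚ (algebraicClosure ℚ ℂ)).injective]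
      exact hr)
    have h2 : ((algebraMap ℚ (algebraicClosure ℚ ℂ) r : algebraicClosure ℚ ℂ) : ℂ) =
        ((r : ℝ) : ℂ) := by
      simp
    rw [← h2]
    exact h1
  have hvt : ∀ (r : ℚ) (e : ℕ) (D : ℝ), ((r : ℝ) : ℂ) * (Real.pi : ℂ) ^ e * (D : ℂ) ≠ 0 →
      (D : ℂ) ∈ Y → ∃ g ∈ U, v (((r : ℝ) : ℂ) * (Real.pi : ℂ) ^ e * (D : ℂ)) =
        v (Real.pi : ℂ) ^ (e : ℤ) * g := by
    intro r e D hne hD
    have hr : r ≠ 0 := by
      rintro rfl
      apply hne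
      simp
    have hD0 : (D : ℂ) ≠ 0 := right_ne_zero_of_mul hne
    refine ⟨v (D : ℂ), ⟨_, hD, hD0, rfl⟩, ?_⟩
    rw [map_mul, map_mul, map_pow, hvq r hr, one_mul, zpow_natCast]
  let t : Fin 6 → ℂ := ![(((r11 * r22 - r12 * r21 : ℚ) : ℝ) : ℂ) *
      (Real.pi : ℂ) ^ (a1 + a2 + y1 + y2),
    ((r11 : ℝ) : ℂ) * (Real.pi : ℂ) ^ (a1 + y1) * ((mzv ![a2, y2] + mzv ![y2, a2] : ℝ) : ℂ),
    ((r22 : ℝ) : ℂ) * (Real.pi : ℂ) ^ (a2 + y2) * ((mzv ![a1, y1] + mzv ![y1, a1] : ℝ) : ℂ),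
    (((-r12 : ℚ) : ℝ) : ℂ) * (Real.pi : ℂ) ^ (a1 + y2) *
      ((mzv ![a2, y1] + mzv ![y1, a2] : ℝ) : ℂ),
    (((-r21 : ℚ) : ℝ) : ℂ) * (Real.pi : ℂ) ^ (a2 + y1) *
      ((mzv ![a1, y2] + mzv ![y2, a1] : ℝ) : ℂ),
    ((mzv ![a1, y1] + mzv ![y1, a1] : ℝ) : ℂ) * ((mzv ![a2, y2] + mzv ![y2, a2] : ℝ) : ℂ) -
      ((mzv ![a1, y2] + mzv ![y2, a1] : ℝ) : ℂ) * ((mzv ![a2, y1] + mzv ![y1, a2] : ℝ) : ℂ)]
  let EE : Fin 6 → ℤ := ![((a1 + a2 + y1 + y2 : ℕ) : ℤ), ((a1 + y1 : ℕ) : ℤ),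
    ((a2 + y2 : ℕ) : ℤ), ((a1 + y2 : ℕ) : ℤ), ((a2 + y1 : ℕ) : ℤ), 0]
  let WW : Fin 6 → Set Γ := ![{1}, U, U, U, U, U2]
  refine six v hpi t EE WW ?_ ?_ ?_ ?_
  · intro i
    fin_cases i
    · intro _
      refine ⟨1, rfl, ?_⟩
      show v ((((r11 * r22 - r12 * r21 : ℚ) : ℝ) : ℂ) * (Real.pi : ℂ) ^ (a1 + a2 + y1 + y2)) =
        v (Real.pi : ℂ) ^ ((a1 + a2 + y1 + y2 : ℕ) : ℤ) * 1
      rw [map_mul, map_pow, hvq _ hΔ, one_mul, mul_one, zpow_natCast]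
    · exact fun hn => hvt r11 (a1 + y1) _ hn (hmem a2 ha2 y2 hy2)
    · exact fun hn => hvt r22 (a2 + y2) _ hn (hmem a1 ha1 y1 hy1)
    · exact fun hn => hvt (-r12) (a1 + y2) _ hn (hmem a2 ha2 y1 hy1)
    · exact fun hn => hvt (-r21) (a2 + y1) _ hn (hmem a1 ha1 y2 hy2)
    · intro hn
      refine ⟨_, ⟨_, ?_, hn, rfl⟩, ?_⟩
      · exact Submodule.sub_mem _ (Submodule.mul_mem_mul (hmem a1 ha1 y1 hy1)
          (hmem a2 ha2 y2 hy2)) (Submodule.mul_mem_mul (hmem a1 ha1 y2 hy2)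
          (hmem a2 ha2 y1 hy1))
      · show v _ = v (Real.pi : ℂ) ^ (0 : ℤ) * v _
        rw [zpow_zero, one_mul]
  · have symU : ∀ e : ℤ, e ∉ bad v U U → -e ∉ bad v U U := by
      rintro e he ⟨u, hu, w, hw, h1⟩
      apply he
      refine ⟨w, hw, u, hu, ?_⟩
      rw [← h1, ← mul_assoc, ← zpow_add₀ hp, add_neg_cancel, zpow_zero, one_mul]
    intro i j hij
    fin_cases i <;> fin_cases j <;> first | exact absurd hij (by decide) | skip
    · show ((a1 + a2 + y1 + y2 : ℕ) : ℤ) - ((a1 + y1 : ℕ) : ℤ) ∉ bad v {1} U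
      convert b2 _ c22 using 1
      push_cast
      ring_nf
    · show ((a1 + a2 + y1 + y2 : ℕ) : ℤ) - ((a2 + y2 : ℕ) : ℤ) ∉ bad v {1} U
      convert b2 _ c11 using 1
      push_cast
      ring_nf
    · show ((a1 + a2 + y1 + y2 : ℕ) : ℤ) - ((a1 + y2 : ℕ) : ℤ) ∉ bad v {1} U
      convert b2 _ c21 using 1
      push_cast
      ring_nf
    · show ((a1 + a2 + y1 + y2 : ℕ) : ℤ) - ((a2 + y1 : ℕ) : ℤ) ∉ bad v {1} U
      convert b2 _ c12 using 1
      push_cast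
      ring_nf
    · show ((a1 + a2 + y1 + y2 : ℕ) : ℤ) - 0 ∉ bad v {1} U2
      convert b3 _ cA using 1
      push_cast
      ring_nf
    · show ((a1 + y1 : ℕ) : ℤ) - ((a2 + y2 : ℕ) : ℤ) ∉ bad v U U
      convert b1 _ c03 using 1
      push_cast
      ring_nf
    · show ((a1 + y1 : ℕ) : ℤ) - ((a1 + y2 : ℕ) : ℤ) ∉ bad v U U
      convert b1 _ c02 using 1
      push_cast
      ring_nf
    · show ((a1 + y1 : ℕ) : ℤ) - ((a2 + y1 : ℕ) : ℤ) ∉ bad v U U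
      convert b1 _ c01 using 1
      push_cast
      ring_nf
    · show ((a1 + y1 : ℕ) : ℤ) - 0 ∉ bad v U U2
      convert b4 _ c11 using 1
      push_cast
      ring_nf
    · show ((a2 + y2 : ℕ) : ℤ) - ((a1 + y2 : ℕ) : ℤ) ∉ bad v U U
      convert symU _ (b1 _ c01) using 1
      push_cast
      ring_nf
    · show ((a2 + y2 : ℕ) : ℤ) - ((a2 + y1 : ℕ) : ℤ) ∉ bad v U U
      convert symU _ (b1 _ c02) using 1
      push_cast
      ring_nf
    · show ((a2 + y2 : ℕ) : ℤ) - 0 ∉ bad v U U2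
      convert b4 _ c22 using 1
      push_cast
      ring_nf
    · show ((a1 + y2 : ℕ) : ℤ) - ((a2 + y1 : ℕ) : ℤ) ∉ bad v U U
      convert b1 _ c04 using 1
      push_cast
      ring_nf
    · show ((a1 + y2 : ℕ) : ℤ) - 0 ∉ bad v U U2
      convert b4 _ c12 using 1
      push_cast
      ring_nf
    · show ((a2 + y1 : ℕ) : ℤ) - 0 ∉ bad v U U2
      convert b4 _ c21 using 1
      push_cast
      ring_nf
  · show (((r11 * r22 - r12 * r21 : ℚ) : ℝ) : ℂ) * (Real.pi : ℂ) ^ (a1 + a2 + y1 + y2) ≠ 0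
    refine mul_ne_zero ?_ (pow_ne_zero _ (by exact_mod_cast Real.pi_ne_zero))
    exact_mod_cast hΔ
  · have h1 := congrArg (fun x : ℝ => (x : ℂ)) hid
    simp only [Complex.ofReal_zero] at h1
    rw [← h1, Fin.sum_univ_six]
    simp only [t, Matrix.cons_val_zero, Matrix.cons_val_one, Matrix.cons_val]
    push_cast
    ring

end Pool.Agent.Work.MP_4d52ff_nt.R
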