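import Pool.Agent.Work.MP_4d52ff_nt.R.Unif

/-!
MODULE Tuples (size M).  Almost all `r`-tuples are independent.

PROOF.  Induction on `r` with `C, η` depending on `r` (and all `h`).  `r = 0`: the empty family is independent,
the set is empty.  Step `r → r + 1`: a tuple `t` whose family is dependent modulo `Y` either has its restriction to
the first `r` entries dependent modulo `Y` (induction: at most `C N^(r(n+1) - η)` such restrictions, times
`N^(n+1)` for the last entry), or the last value lies in `Y' = Y + span (first r values)`, of dimension at most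
`h + r` (`unif n (h + r)`: at most `C' N^(n + 1 - η')` last entries, times `N^(r(n+1))`).
Use `linearIndependent_finSucc'` in
`ℂ ⧸ Y` (`Submodule.mkQ`): the last vector lies in the span of the images of the first `r` vectors iff the last
value lies in `Y'`.
-/

set_option autoImplicit false

namespace Pool.Agent.Work.MP_4d52ff_nt.R

/-- all pairs with entries in `[2, N]` -/
private def tupR (n N : ℕ) : Finset (ℕ × (Fin n → ℕ)) :=
  (Finset.Icc 2 N) ×ˢ (Fintype.piFinset fun _ => Finset.Icc 2 N)

private lemma tupR_mem {n N : ℕ} (p : ℕ × (Fin n → ℕ)) (h1 : p.1 ∈ Finset.Icc 2 N)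
    (h2 : ∀ i, p.2 i ∈ Finset.Icc 2 N) : p ∈ tupR n N :=
  Finset.mem_product.2 ⟨h1, Fintype.mem_piFinset.2 h2⟩

private lemma tupR_card (n N : ℕ) : ((tupR n N).card : ℝ) ≤ (N : ℝ) ^ ((n : ℝ) + 1) := by
  have h1 : (Finset.Icc 2 N).card ≤ N := by
    rw [Nat.card_Icc]
    omega
  have h2 : (tupR n N).card ≤ N ^ (n + 1) := by
    rw [tupR, Finset.card_product, Fintype.card_piFinset, Finset.prod_const, Finset.card_univ,
      Fintype.card_fin, pow_succ, mul_comm]
    exact Nat.mul_le_mul (Nat.pow_le_pow_left h1 n) h1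
  have h3 : (N : ℝ) ^ ((n : ℝ) + 1) = ((N ^ (n + 1) : ℕ) : ℝ) := by
    rw [Nat.cast_pow, ← Real.rpow_natCast, Nat.cast_add, Nat.cast_one]
  rw [h3]
  exact_mod_cast h2

open Classical in
theorem tuples (n h r : ℕ) : ∃ C η : ℝ, 0 < η ∧ ∀ N : ℕ, 1 ≤ N →
    ∀ Y : Submodule (algebraicClosure ℚ ℂ) ℂ, Module.Finite (algebraicClosure ℚ ℂ) Y →
    Module.finrank (algebraicClosure ℚ ℂ) Y ≤ h → ∀ G : Finset (Fin r → ℕ × (Fin n → ℕ)),
    (∀ t ∈ G, (∀ j, (t j).1 ∈ Finset.Icc 2 N ∧ (∀ i, (t j).2 i ∈ Finset.Icc 2 N) ∧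
        (Even (t j).1 ∨ n = 1)) ∧
      ¬ LinearIndependent (algebraicClosure ℚ ℂ)
          (fun j => Y.mkQ ((sig (t j).1 (t j).2 : ℝ) : ℂ))) →
    (G.card : ℝ) ≤ C * (N : ℝ) ^ ((r : ℝ) * ((n : ℝ) + 1) - η) := by
  induction r with
  | zero =>
    refine ⟨0, 1, one_pos, ?_⟩
    intro N hN Y hY hYh G hG
    have h1 : G = ∅ := by
      rw [Finset.eq_empty_iff_forall_notMem]
      intro t ht
      exact (hG t ht).2 linearIndependent_empty_type
    rw [h1]
    simp
  | succ r ih =>
    obtain ⟨C1, η1, hη1, h1⟩ := ih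
    obtain ⟨C2, η2, hη2, h2⟩ := unif n (h + r)
    refine ⟨|C1| + |C2|, min η1 η2, lt_min hη1 hη2, ?_⟩
    intro N hN Y hY hYh G hG
    have hN0 : (0 : ℝ) < (N : ℝ) := by exact_mod_cast hN
    have hN1 : (1 : ℝ) ≤ (N : ℝ) := by exact_mod_cast hN
    let L := algebraicClosure ℚ ℂ
    let val : ℕ × (Fin n → ℕ) → ℂ := fun p => ((sig p.1 p.2 : ℝ) : ℂ)
    let f : (Fin (r + 1) → ℕ × (Fin n → ℕ)) → (Fin r → ℕ × (Fin n → ℕ)) := fun t => Fin.init t
    let dep : (Fin (r + 1) → ℕ × (Fin n → ℕ)) → Prop := fun t =>
      ¬ LinearIndependent L (fun j => Y.mkQ (val (f t j)))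
    let G1 := G.filter dep
    let G2 := G.filter fun t => ¬ dep t
    have hG12 : G.card = G1.card + G2.card := (Finset.card_filter_add_card_filter_not _).symm
    -- first part
    have e1 : (G1.card : ℝ) ≤ |C1| * (N : ℝ) ^ (((r + 1 : ℕ) : ℝ) * ((n : ℝ) + 1) - η1) := by
      have h3 : G1.card ≤ (G1.image f).card * (tupR n N).card := by
        rw [← Finset.card_product]
        refine Finset.card_le_card_of_injOn (fun t => (f t, t (Fin.last r))) ?_ ?_
        · intro t ht
          have ht' : t ∈ G1 := ht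
          refine Finset.mem_coe.2 (Finset.mem_product.2 ⟨Finset.mem_image_of_mem f ht', ?_⟩)
          have h4 := (hG t (Finset.mem_filter.1 ht').1).1 (Fin.last r)
          exact tupR_mem _ h4.1 h4.2.1
        · intro t _ t' _ htt
          have h5 : f t = f t' := congrArg Prod.fst htt
          have h6 : t (Fin.last r) = t' (Fin.last r) := congrArg Prod.snd htt
          funext j
          refine Fin.lastCases h6 (fun i => ?_) j
          exact congrFun h5 i
      have h4 : ((G1.image f).card : ℝ) ≤ C1 * (N : ℝ) ^ ((r : ℝ) * ((n : ℝ) + 1) - η1) := by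
        refine h1 N hN Y hY hYh (G1.image f) fun s hs => ?_
        obtain ⟨t, ht, rfl⟩ := Finset.mem_image.1 hs
        rw [Finset.mem_filter] at ht
        exact ⟨fun j => (hG t ht.1).1 (Fin.castSucc j), ht.2⟩
      have h5 : ((G1.image f).card : ℝ) ≤ |C1| * (N : ℝ) ^ ((r : ℝ) * ((n : ℝ) + 1) - η1) :=
        h4.trans (mul_le_mul_of_nonneg_right (le_abs_self _) (by positivity))
      have h6 : (G1.card : ℝ) ≤ ((G1.image f).card : ℝ) * ((tupR n N).card : ℝ) := by
        exact_mod_cast h3
      refine h6.trans ((mul_le_mul h5 (tupR_card n N) (Nat.cast_nonneg _)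
        (by positivity)).trans (le_of_eq ?_))
      rw [mul_assoc, ← Real.rpow_add hN0]
      congr 2
      push_cast
      ring
    -- second part
    have e2 : (G2.card : ℝ) ≤ |C2| * (N : ℝ) ^ (((r + 1 : ℕ) : ℝ) * ((n : ℝ) + 1) - η2) := by
      have h3 : ((G2.image f).card : ℝ) ≤ (N : ℝ) ^ ((r : ℝ) * ((n : ℝ) + 1)) := by
        have h4 : G2.image f ⊆ Fintype.piFinset fun _ : Fin r => tupR n N := by
          intro s hs
          obtain ⟨t, ht, rfl⟩ := Finset.mem_image.1 hs
          rw [Finset.mem_filter] at ht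
          rw [Fintype.mem_piFinset]
          intro j
          have h5 := (hG t ht.1).1 (Fin.castSucc j)
          exact tupR_mem _ h5.1 h5.2.1
        have h5 : (G2.image f).card ≤ (tupR n N).card ^ r := by
          refine (Finset.card_le_card h4).trans (le_of_eq ?_)
          rw [Fintype.card_piFinset, Finset.prod_const, Finset.card_univ, Fintype.card_fin]
        have h6 : ((G2.image f).card : ℝ) ≤ ((tupR n N).card : ℝ) ^ r := by exact_mod_cast h5
        refine h6.trans ((pow_le_pow_left₀ (Nat.cast_nonneg _) (tupR_card n N) r).trans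
          (le_of_eq ?_))
        rw [← Real.rpow_natCast, ← Real.rpow_mul hN0.le, mul_comm]
      have h4 : ∀ s ∈ G2.image f, ((G2.filter fun t => f t = s).card : ℝ) ≤
          |C2| * (N : ℝ) ^ ((n : ℝ) + 1 - η2) := by
        intro s hs
        let W : Submodule L ℂ := Submodule.span L (Set.range fun j => val (s j))
        have hW : Module.Finite L W := by
          exact FiniteDimensional.span_of_finite L (Set.finite_range _)
        have hYW : Module.Finite L (Y ⊔ W : Submodule L ℂ) := by
          have := hY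
          infer_instance
        have hfr : Module.finrank L (Y ⊔ W : Submodule L ℂ) ≤ h + r := by
          have := hY
          refine (Submodule.finrank_add_le_finrank_add_finrank Y W).trans ?_
          refine Nat.add_le_add hYh ?_
          have := finrank_range_le_card (R := L) (fun j => val (s j))
          rw [Fintype.card_fin] at this
          exact this
        have hinj : Set.InjOn (fun t : Fin (r + 1) → ℕ × (Fin n → ℕ) => t (Fin.last r))
            (G2.filter fun t => f t = s) := by
          intro t ht t' ht' htt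
          have h5 : f t = s := (Finset.mem_filter.1 (Finset.mem_coe.1 ht)).2
          have h6 : f t' = s := (Finset.mem_filter.1 (Finset.mem_coe.1 ht')).2
          funext j
          refine Fin.lastCases htt (fun i => ?_) j
          exact congrFun (h5.trans h6.symm) i
        rw [← Finset.card_image_of_injOn hinj]
        refine (h2 N hN (Y ⊔ W) hYW hfr _ ?_).trans
          (mul_le_mul_of_nonneg_right (le_abs_self _) (by positivity))
        intro p hp
        obtain ⟨t, ht, rfl⟩ := Finset.mem_image.1 hp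
        obtain ⟨ht1, ht2⟩ := Finset.mem_filter.1 ht
        obtain ⟨ht3, ht4⟩ := Finset.mem_filter.1 ht1
        obtain ⟨h5, h6⟩ := hG t ht3
        have h7 := h5 (Fin.last r)
        refine ⟨h7.1, h7.2.1, h7.2.2, ?_⟩
        have h8 : LinearIndependent L (fun j => Y.mkQ (val (f t j))) := not_not.1 ht4
        have h9 : ¬ LinearIndependent L (fun j => Y.mkQ (val (t j))) := h6
        rw [linearIndependent_finSucc'] at h9
        have h10 : Y.mkQ (val (t (Fin.last r))) ∈
            Submodule.span L (Set.range fun j => Y.mkQ (val (f t j))) := by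
          by_contra h11
          exact h9 ⟨h8, h11⟩
        have h11 : (Set.range fun j => Y.mkQ (val (f t j))) =
            Y.mkQ '' (Set.range fun j => val (s j)) := by
          rw [← Set.range_comp, ht2]
          rfl
        rw [h11, ← Submodule.map_span] at h10
        have h12 : val (t (Fin.last r)) ∈ Submodule.comap Y.mkQ (Submodule.map Y.mkQ W) := h10
        rw [Submodule.comap_map_mkQ] at h12
        exact h12
      have h5 : (G2.card : ℝ) ≤ ∑ s ∈ G2.image f, |C2| * (N : ℝ) ^ ((n : ℝ) + 1 - η2) := by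
        rw [Finset.card_eq_sum_card_image f G2, Nat.cast_sum]
        exact Finset.sum_le_sum h4
      refine h5.trans ?_
      rw [Finset.sum_const, nsmul_eq_mul]
      refine (mul_le_mul_of_nonneg_right h3 (by positivity)).trans (le_of_eq ?_)
      rw [mul_left_comm, ← Real.rpow_add hN0]
      congr 2
      push_cast
      ring
    have hp1 : (N : ℝ) ^ (((r + 1 : ℕ) : ℝ) * ((n : ℝ) + 1) - η1) ≤
        (N : ℝ) ^ (((r + 1 : ℕ) : ℝ) * ((n : ℝ) + 1) - min η1 η2) :=
      Real.rpow_le_rpow_of_exponent_le hN1 (by linarith [min_le_left η1 η2])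
    have hp2 : (N : ℝ) ^ (((r + 1 : ℕ) : ℝ) * ((n : ℝ) + 1) - η2) ≤
        (N : ℝ) ^ (((r + 1 : ℕ) : ℝ) * ((n : ℝ) + 1) - min η1 η2) :=
      Real.rpow_le_rpow_of_exponent_le hN1 (by linarith [min_le_right η1 η2])
    have m1 := mul_le_mul_of_nonneg_left hp1 (abs_nonneg C1)
    have m2 := mul_le_mul_of_nonneg_left hp2 (abs_nonneg C2)
    rw [hG12, Nat.cast_add, add_mul]
    exact add_le_add (e1.trans m1) (e2.trans m2)

end Pool.Agent.Work.MP_4d52ff_nt.R
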