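import Pool.Agent.Work.MP_4d52ff_nt.R.Unif2
import Pool.Agent.Work.MP_4d52ff_nt.R.Tuples

/-!
Tuples3.  As Tuples2.lean, relative to the number of admissible pairs: of all `r`-tuples of admissible
pairs, the proportion with dependent values modulo `Y` is at most `C r ((h+r+1)/N)^(1/2^n)`.
-/

set_option autoImplicit false

namespace Pool.Agent.Work.MP_4d52ff_nt.R

open Classical in
/-- abstract induction on the number of vectors: if every subspace of dimension at most `k` contains at
most `β k` of the vectors `val p`, `p ∈ S`, then at most `r β(h+r) |S|^(r-1)` of the `r`-tuples in `S`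
are dependent modulo a space of dimension at most `h`. -/
theorem dep_count {ι : Type*} {L E : Type*} [Field L] [AddCommGroup E] [Module L E] (S : Finset ι)
    (val : ι → E) (β : ℕ → ℝ) (hβ : Monotone β) (hβ0 : ∀ k, 0 ≤ β k)
    (hU : ∀ k : ℕ, ∀ Y : Submodule L E, Module.Finite L Y → Module.finrank L Y ≤ k →
      ∀ G : Finset ι, (∀ p ∈ G, p ∈ S ∧ val p ∈ Y) → (G.card : ℝ) ≤ β k)
    (h : ℕ) (Y : Submodule L E) (hY : Module.Finite L Y) (hYh : Module.finrank L Y ≤ h)
    (r : ℕ) : ∀ G : Finset (Fin r → ι),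
    (∀ t ∈ G, (∀ j, t j ∈ S) ∧ ¬ LinearIndependent L (fun j => Y.mkQ (val (t j)))) →
    (G.card : ℝ) ≤ r * β (h + r) * (S.card : ℝ) ^ (r - 1) := by
  induction r with
  | zero =>
    intro G hG
    have h1 : G = ∅ := by
      rw [Finset.eq_empty_iff_forall_notMem]
      intro t ht
      exact (hG t ht).2 linearIndependent_empty_type
    rw [h1]
    simp
  | succ r ih =>
    intro G hG
    let f : (Fin (r + 1) → ι) → (Fin r → ι) := fun t => Fin.init t
    let dep : (Fin (r + 1) → ι) → Prop := fun t =>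
      ¬ LinearIndependent L (fun j => Y.mkQ (val (f t j)))
    let G1 := G.filter dep
    let G2 := G.filter fun t => ¬ dep t
    have hG12 : G.card = G1.card + G2.card := (Finset.card_filter_add_card_filter_not _).symm
    have hS0 : (0 : ℝ) ≤ (S.card : ℝ) := Nat.cast_nonneg _
    -- first part
    have e1 : (G1.card : ℝ) ≤ r * β (h + (r + 1)) * (S.card : ℝ) ^ r := by
      have h3 : G1.card ≤ (G1.image f).card * S.card := by
        rw [← Finset.card_product]
        refine Finset.card_le_card_of_injOn (fun t => (f t, t (Fin.last r))) ?_ ?_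
        · intro t ht
          have ht' : t ∈ G1 := ht
          refine Finset.mem_coe.2 (Finset.mem_product.2 ⟨Finset.mem_image_of_mem f ht', ?_⟩)
          exact (hG t (Finset.mem_filter.1 ht').1).1 (Fin.last r)
        · intro t _ t' _ htt
          have h5 : f t = f t' := congrArg Prod.fst htt
          have h6 : t (Fin.last r) = t' (Fin.last r) := congrArg Prod.snd htt
          funext j
          refine Fin.lastCases h6 (fun i => ?_) j
          exact congrFun h5 i
      have h4 : ((G1.image f).card : ℝ) ≤ r * β (h + r) * (S.card : ℝ) ^ (r - 1) := by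
        refine ih (G1.image f) fun s hs => ?_
        obtain ⟨t, ht, rfl⟩ := Finset.mem_image.1 hs
        rw [Finset.mem_filter] at ht
        exact ⟨fun j => (hG t ht.1).1 (Fin.castSucc j), ht.2⟩
      have h5 : ((G1.image f).card : ℝ) ≤ r * β (h + (r + 1)) * (S.card : ℝ) ^ (r - 1) := by
        refine h4.trans (mul_le_mul_of_nonneg_right ?_ (by positivity))
        exact mul_le_mul_of_nonneg_left (hβ (by omega)) (Nat.cast_nonneg _)
      have h6 : (G1.card : ℝ) ≤ ((G1.image f).card : ℝ) * (S.card : ℝ) := by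
        exact_mod_cast h3
      refine h6.trans ((mul_le_mul_of_nonneg_right h5 hS0).trans (le_of_eq ?_))
      rcases Nat.eq_zero_or_pos r with h0 | h0
      · rw [h0]
        simp
      · rw [mul_assoc, ← pow_succ, Nat.sub_add_cancel h0]
    -- second part
    have e2 : (G2.card : ℝ) ≤ β (h + (r + 1)) * (S.card : ℝ) ^ r := by
      have h3 : ((G2.image f).card : ℝ) ≤ (S.card : ℝ) ^ r := by
        have h4 : G2.image f ⊆ Fintype.piFinset fun _ : Fin r => S := by
          intro s hs
          obtain ⟨t, ht, rfl⟩ := Finset.mem_image.1 hs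
          rw [Finset.mem_filter] at ht
          rw [Fintype.mem_piFinset]
          intro j
          exact (hG t ht.1).1 (Fin.castSucc j)
        have h5 : (G2.image f).card ≤ S.card ^ r := by
          refine (Finset.card_le_card h4).trans (le_of_eq ?_)
          rw [Fintype.card_piFinset, Finset.prod_const, Finset.card_univ, Fintype.card_fin]
        exact_mod_cast h5
      have h4 : ∀ s ∈ G2.image f, ((G2.filter fun t => f t = s).card : ℝ) ≤ β (h + (r + 1)) := by
        intro s hs
        let W : Submodule L E := Submodule.span L (Set.range fun j => val (s j))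
        have hW : Module.Finite L W := by
          exact FiniteDimensional.span_of_finite L (Set.finite_range _)
        have hYW : Module.Finite L (Y ⊔ W : Submodule L E) := by
          have := hY
          infer_instance
        have hfr : Module.finrank L (Y ⊔ W : Submodule L E) ≤ h + r := by
          have := hY
          refine (Submodule.finrank_add_le_finrank_add_finrank Y W).trans ?_
          refine Nat.add_le_add hYh ?_
          have := finrank_range_le_card (R := L) (fun j => val (s j))
          rw [Fintype.card_fin] at this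
          exact this
        have hinj : Set.InjOn (fun t : Fin (r + 1) → ι => t (Fin.last r))
            (G2.filter fun t => f t = s) := by
          intro t ht t' ht' htt
          have h5 : f t = s := (Finset.mem_filter.1 (Finset.mem_coe.1 ht)).2
          have h6 : f t' = s := (Finset.mem_filter.1 (Finset.mem_coe.1 ht')).2
          funext j
          refine Fin.lastCases htt (fun i => ?_) j
          exact congrFun (h5.trans h6.symm) i
        rw [← Finset.card_image_of_injOn hinj]
        refine (hU (h + r) (Y ⊔ W) hYW hfr _ ?_).trans (hβ (by omega))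
        intro p hp
        obtain ⟨t, ht, rfl⟩ := Finset.mem_image.1 hp
        obtain ⟨ht1, ht2⟩ := Finset.mem_filter.1 ht
        obtain ⟨ht3, ht4⟩ := Finset.mem_filter.1 ht1
        obtain ⟨h5, h6⟩ := hG t ht3
        refine ⟨h5 (Fin.last r), ?_⟩
        have h8 : LinearIndependent L (fun j => Y.mkQ (val (f t j))) := not_not.1 ht4
        have h9 : ¬ LinearIndependent L (fun j => Y.mkQ (val (t j))) := h6
        rw [linearIndependent_finSucc'] at h9
        have h10 : Y.mkQ (val (t (Fin.last r))) ∈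
            Submodule.span L (Set.range fun j => Y.mkQ (val (f t j))) := by
          by_contra h11
          exact h9 ⟨h8, h11⟩
        have h11 : (Set.range fun j => Y.mkQ (val (f t j))) =
            Y.mkQ '' (Set.range fun j => val (s j)) := by
          rw [← Set.range_comp, ht2]
          rfl
        rw [h11, ← Submodule.map_span] at h10
        have h12 : val (t (Fin.last r)) ∈ Submodule.comap Y.mkQ (Submodule.map Y.mkQ W) := h10
        rw [Submodule.comap_map_mkQ] at h12
        exact h12
      have h5 : (G2.card : ℝ) ≤ ∑ s ∈ G2.image f, β (h + (r + 1)) := by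
        rw [Finset.card_eq_sum_card_image f G2, Nat.cast_sum]
        exact Finset.sum_le_sum h4
      refine h5.trans ?_
      rw [Finset.sum_const, nsmul_eq_mul, mul_comm]
      exact mul_le_mul_of_nonneg_left h3 (hβ0 _)
    have hcast : (G.card : ℝ) = (G1.card : ℝ) + (G2.card : ℝ) := by exact_mod_cast hG12
    rw [hcast]
    refine (add_le_add e1 e2).trans (le_of_eq ?_)
    rw [Nat.add_sub_cancel]
    push_cast
    ring

/-- the admissible pairs: entries in `[2, N]`, first entry even if `n ≠ 1` -/
def admS (n N : ℕ) : Finset (ℕ × (Fin n → ℕ)) :=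
  ((Finset.Icc 2 N) ×ˢ (Fintype.piFinset fun _ => Finset.Icc 2 N)).filter
    fun p => Even p.1 ∨ n = 1

theorem mem_admS {n N : ℕ} {p : ℕ × (Fin n → ℕ)} : p ∈ admS n N ↔
    p.1 ∈ Finset.Icc 2 N ∧ (∀ i, p.2 i ∈ Finset.Icc 2 N) ∧ (Even p.1 ∨ n = 1) := by
  rw [admS, Finset.mem_filter, Finset.mem_product, Fintype.mem_piFinset, and_assoc]

/-- lower bound for the number of admissible pairs -/
theorem admS_card (n N : ℕ) (hN : 2 ≤ N) : N ^ (n + 1) ≤ 4 * 2 ^ n * (admS n N).card := by
  have h1 : (((Finset.range (N / 2)).image fun i => 2 * (i + 1)) ×ˢ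
      (Fintype.piFinset fun _ : Fin n => Finset.Icc 2 N)) ⊆ admS n N := by
    intro p hp
    rw [Finset.mem_product, Finset.mem_image] at hp
    obtain ⟨⟨i, hi, hi'⟩, h2⟩ := hp
    rw [Finset.mem_range] at hi
    rw [mem_admS]
    refine ⟨?_, Fintype.mem_piFinset.1 h2, Or.inl ?_⟩
    · rw [← hi', Finset.mem_Icc]
      omega
    · rw [← hi']
      exact even_two_mul _
  have h2 := Finset.card_le_card h1
  have hinj : Function.Injective fun i : ℕ => 2 * (i + 1) := by
    intro a b hab
    have hab' : 2 * (a + 1) = 2 * (b + 1) := hab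
    omega
  rw [Finset.card_product, Finset.card_image_of_injective _ hinj, Finset.card_range, Fintype.card_piFinset, Finset.prod_const, Finset.card_univ,
    Fintype.card_fin, Nat.card_Icc] at h2
  have h3 : N ≤ 4 * (N / 2) := by omega
  have h4 : N ≤ 2 * (N + 1 - 2) := by omega
  calc N ^ (n + 1) = N * N ^ n := by ring
    _ ≤ (4 * (N / 2)) * (2 * (N + 1 - 2)) ^ n := Nat.mul_le_mul h3 (Nat.pow_le_pow_left h4 n)
    _ = 4 * 2 ^ n * (N / 2 * (N + 1 - 2) ^ n) := by rw [mul_pow]; ring
    _ ≤ 4 * 2 ^ n * (admS n N).card := Nat.mul_le_mul_left _ h2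

open Classical in
theorem tuples3 (n : ℕ) : ∃ C : ℝ, 0 < C ∧ ∀ N r : ℕ, 1 ≤ N →
    ∀ Y : Submodule (algebraicClosure ℚ ℂ) ℂ, Module.Finite (algebraicClosure ℚ ℂ) Y →
    ∀ G : Finset (Fin r → ℕ × (Fin n → ℕ)),
    (∀ t ∈ G, (∀ j, t j ∈ admS n N) ∧
      ¬ LinearIndependent (algebraicClosure ℚ ℂ)
          (fun j => Y.mkQ ((sig (t j).1 (t j).2 : ℝ) : ℂ))) →
    (G.card : ℝ) ≤ C * (r : ℝ) *
      (((Module.finrank (algebraicClosure ℚ ℂ) Y : ℝ) + (r : ℝ) + 1) / (N : ℝ)) ^
        ((1 : ℝ) / 2 ^ n) * ((admS n N).card : ℝ) ^ r := by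
  obtain ⟨C, hC, hU⟩ := unif2 n
  refine ⟨C * (4 * 2 ^ n), by positivity, fun N r hN Y hY G hG => ?_⟩
  have hN0 : (0 : ℝ) < (N : ℝ) := by exact_mod_cast hN
  have he : (0 : ℝ) ≤ (1 : ℝ) / 2 ^ n := by positivity
  rcases Nat.eq_zero_or_pos r with hr | hr
  · subst hr
    have h1 : G = ∅ := by
      rw [Finset.eq_empty_iff_forall_notMem]
      intro t ht
      exact (hG t ht).2 linearIndependent_empty_type
    rw [h1]
    simp
  rcases Nat.lt_or_ge N 2 with hN2 | hN2
  · have h1 : G = ∅ := by
      rw [Finset.eq_empty_iff_forall_notMem]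
      intro t ht
      have h2 := (mem_admS.1 ((hG t ht).1 ⟨0, hr⟩)).1
      rw [Finset.mem_Icc] at h2
      omega
    rw [h1]
    simp only [Finset.card_empty, Nat.cast_zero]
    positivity
  set h := Module.finrank (algebraicClosure ℚ ℂ) Y with hh
  have h1 := dep_count (L := algebraicClosure ℚ ℂ) (admS n N)
    (fun p => ((sig p.1 p.2 : ℝ) : ℂ))
    (fun k => C * ((k : ℝ) + 1) ^ ((1 : ℝ) / 2 ^ n) * (N : ℝ) ^ ((n : ℝ) + 1 - 1 / 2 ^ n))
    (fun a b hab => by
      have : (a : ℝ) ≤ (b : ℝ) := by exact_mod_cast hab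
      refine mul_le_mul_of_nonneg_right (mul_le_mul_of_nonneg_left ?_ hC.le) (by positivity)
      exact Real.rpow_le_rpow (by positivity) (by linarith) he)
    (fun k => by positivity)
    (fun k Y' hY' hYk G' hG' => hU N k hN Y' hY' hYk G' (fun p hp => by
      have h2 := mem_admS.1 (hG' p hp).1
      exact ⟨h2.1, h2.2.1, h2.2.2, (hG' p hp).2⟩))
    h Y hY le_rfl r G hG
  refine h1.trans ?_
  set P : ℝ := ((admS n N).card : ℝ) with hP
  have hP0 : 0 ≤ P := Nat.cast_nonneg _
  have h3 : (N : ℝ) ^ ((n : ℝ) + 1) ≤ 4 * 2 ^ n * P := by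
    have e : (N : ℝ) ^ ((n : ℝ) + 1) = ((N ^ (n + 1) : ℕ) : ℝ) := by
      rw [Nat.cast_pow, ← Real.rpow_natCast, Nat.cast_add, Nat.cast_one]
    rw [e, hP]
    exact_mod_cast admS_card n N hN2
  have h4 : (N : ℝ) ^ ((n : ℝ) + 1 - 1 / 2 ^ n) ≤ 4 * 2 ^ n * P / (N : ℝ) ^ ((1 : ℝ) / 2 ^ n) := by
    rw [Real.rpow_sub hN0]
    exact div_le_div_of_nonneg_right h3 (by positivity)
  have h5 : (((h + r : ℕ) : ℝ) + 1) = (h : ℝ) + (r : ℝ) + 1 := by push_cast; ring
  have h6 : P ^ r = P ^ (r - 1) * P := by
    rw [← pow_succ, Nat.sub_add_cancel hr]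
  rw [h5, Real.div_rpow (by positivity) hN0.le, h6]
  calc (r : ℝ) * (C * ((h : ℝ) + (r : ℝ) + 1) ^ ((1 : ℝ) / 2 ^ n) *
          (N : ℝ) ^ ((n : ℝ) + 1 - 1 / 2 ^ n)) * P ^ (r - 1)
      ≤ (r : ℝ) * (C * ((h : ℝ) + (r : ℝ) + 1) ^ ((1 : ℝ) / 2 ^ n) *
          (4 * 2 ^ n * P / (N : ℝ) ^ ((1 : ℝ) / 2 ^ n))) * P ^ (r - 1) := by
        refine mul_le_mul_of_nonneg_right ?_ (by positivity)
        refine mul_le_mul_of_nonneg_left ?_ (by positivity)
        exact mul_le_mul_of_nonneg_left h4 (by positivity)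
    _ = _ := by ring

end Pool.Agent.Work.MP_4d52ff_nt.R
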