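import Pool.Agent.Work.MP_4d52ff_nt.R.EvenBox
import Pool.Agent.Work.MP_4d52ff_nt.R.OddBox
import Pool.Agent.Work.MP_4d52ff_nt.R.Box

/-!
MODULE Unif (size M-L).  The uniform bound for one value.

PROOF.
Even part (`unif_even`): let `T = max 2 B` with `B` of `even_box n h` and let `η, M0` be given by `box (n+1) T`.
For given `N, Y` map `(a, x)` (a even, `sig a x ∈ Y`, entries in `[2, N]`) injectively to
`z = Fin.cons (a + ∑ x) x : Fin (n+1) → ℕ`, all entries `< M = (M0 + n + 2) * N`.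
If the number of `(a, x)` were `≥ M^(n+1-η)` there would be a box in the image, and `even_box` with
`S = X 0`, `X i = X (i+1)` gives `False`.  So the number is at most `M^(n+1-η)`.
(`a` is recovered as `s - ∑ x`.)
Odd part (`n = 1`, both entries odd): `box 2 T` with `T = B` of `odd_box h`.
`n = 1`, `a` odd and `b` even: `sig a ![b] = sig b ![a]` (`sig_one`), so this case follows from the even part.
-/

set_option autoImplicit false

namespace Pool.Agent.Work.MP_4d52ff_nt.R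

lemma sig_one (a : ℕ) (x : Fin 1 → ℕ) : sig a x = mzv ![a, x 0] + mzv ![x 0, a] := by
  unfold sig
  rw [Fin.sum_univ_two]
  congr 2
  · funext i
    fin_cases i <;> simp [ins, Fin.insertNth]
  · funext i
    fin_cases i <;> simp [ins, Fin.insertNth]
    rfl

private lemma unif_even (n h : ℕ) : ∃ C η : ℝ, 0 ≤ C ∧ 0 < η ∧ ∀ N : ℕ, 1 ≤ N →
    ∀ Y : Submodule (algebraicClosure ℚ ℂ) ℂ, Module.Finite (algebraicClosure ℚ ℂ) Y →
    Module.finrank (algebraicClosure ℚ ℂ) Y ≤ h → ∀ G : Finset (ℕ × (Fin n → ℕ)),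
    (∀ p ∈ G, p.1 ∈ Finset.Icc 2 N ∧ (∀ i, p.2 i ∈ Finset.Icc 2 N) ∧ Even p.1 ∧
      (sig p.1 p.2 : ℂ) ∈ Y) →
    (G.card : ℝ) ≤ C * (N : ℝ) ^ ((n : ℝ) + 1 - η) := by
  classical
  obtain ⟨B, hB⟩ := even_box n h
  obtain ⟨η, hη, M0, hM⟩ := box (n + 1) (max 2 B)
  refine ⟨((M0 + n + 2 : ℕ) : ℝ) ^ ((n : ℝ) + 1 - η), η, by positivity, hη, ?_⟩
  intro N hN Y hY hYh G hG
  by_contra hcon
  push Not at hcon
  let z : ℕ × (Fin n → ℕ) → (Fin (n + 1) → ℕ) := fun p => Fin.cons (p.1 + ∑ i, p.2 i) p.2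
  have hz0 : ∀ p, z p 0 = p.1 + ∑ i, p.2 i := fun p => rfl
  have hzs : ∀ p i, z p (Fin.succ i) = p.2 i := fun p i => rfl
  have hzinj : Function.Injective z := by
    intro p q hpq
    have h2 : p.2 = q.2 := by
      funext i
      rw [← hzs p i, ← hzs q i, hpq]
    have h1 : p.1 + ∑ i, p.2 i = q.1 + ∑ i, q.2 i := by rw [← hz0 p, ← hz0 q, hpq]
    rw [h2] at h1
    exact Prod.ext (Nat.add_right_cancel h1) h2
  have hcard : (G.image z).card = G.card := Finset.card_image_of_injective _ hzinj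
  obtain ⟨X, hX, hXG⟩ := hM ((M0 + n + 2) * N) (by nlinarith) (G.image z) (by
    intro x hx i
    obtain ⟨p, hp, rfl⟩ := Finset.mem_image.1 hx
    obtain ⟨h1, h2, -, -⟩ := hG p hp
    rw [Finset.mem_Icc] at h1
    have h3 : ∀ i, p.2 i ≤ N := fun i => (Finset.mem_Icc.1 (h2 i)).2
    refine Fin.cases ?_ (fun i => ?_) i
    · rw [hz0]
      have h4 : ∑ i, p.2 i ≤ n * N := by
        refine (Finset.sum_le_sum fun i _ => h3 i).trans ?_
        simp
      have h5 : (M0 + n + 2) * N = M0 * N + n * N + 2 * N := by ring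
      have h6 : 0 ≤ M0 * N := Nat.zero_le _
      omega
    · rw [hzs]
      have h5 : (M0 + n + 2) * N = (M0 + n) * N + 2 * N := by ring
      have h6 : 0 ≤ (M0 + n) * N := Nat.zero_le _
      have h7 := h3 i
      omega) (by
    rw [hcard]
    refine le_trans (le_of_eq ?_) hcon.le
    rw [Nat.cast_mul, Real.mul_rpow (Nat.cast_nonneg _) (Nat.cast_nonneg _)]
    push_cast
    rfl)
  have hne : ∀ i, (X i).Nonempty := by
    intro i
    rw [← Finset.card_pos, hX i]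
    exact lt_of_lt_of_le (by norm_num) (le_max_left 2 B)
  choose b hb using hne
  refine hB Y hY hYh (fun i => X i.succ) (X 0) (fun i => ?_) ?_ ?_ ?_
  · rw [hX]
    exact le_max_left _ _
  · rw [hX]
    exact le_max_right _ _
  · intro i c hc
    have h1 : Function.update b i.succ c ∈ Fintype.piFinset X := by
      rw [Fintype.mem_piFinset]
      intro j
      by_cases hj : j = i.succ
      · subst hj
        rw [Function.update_self]
        exact hc
      · rw [Function.update_of_ne hj]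
        exact hb j
    obtain ⟨p, hp, hpz⟩ := Finset.mem_image.1 (hXG _ h1)
    have h2 : p.2 i = c := by
      rw [← hzs p i, hpz, Function.update_self]
    rw [← h2]
    exact (Finset.mem_Icc.1 ((hG p hp).2.1 i)).1
  · intro x hx s hs
    have h1 : (Fin.cons s x : Fin (n + 1) → ℕ) ∈ Fintype.piFinset X := by
      rw [Fintype.mem_piFinset]
      refine Fin.cases ?_ (fun i => ?_)
      · exact hs
      · exact Fintype.mem_piFinset.1 hx i
    obtain ⟨p, hp, hpz⟩ := Finset.mem_image.1 (hXG _ h1)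
    have h2 : p.2 = x := by
      funext i
      rw [← hzs p i, hpz]
      rfl
    have h3 : p.1 + ∑ i, p.2 i = s := by
      rw [← hz0 p, hpz]
      rfl
    obtain ⟨h4, -, h5, h6⟩ := hG p hp
    subst h2
    exact ⟨p.1, (Finset.mem_Icc.1 h4).1, h5, h3, h6⟩

private lemma unif_odd (h : ℕ) : ∃ C η : ℝ, 0 ≤ C ∧ 0 < η ∧ ∀ N : ℕ, 1 ≤ N →
    ∀ Y : Submodule (algebraicClosure ℚ ℂ) ℂ, Module.Finite (algebraicClosure ℚ ℂ) Y →
    Module.finrank (algebraicClosure ℚ ℂ) Y ≤ h → ∀ G : Finset (ℕ × (Fin 1 → ℕ)),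
    (∀ p ∈ G, p.1 ∈ Finset.Icc 2 N ∧ (∀ i, p.2 i ∈ Finset.Icc 2 N) ∧ Odd p.1 ∧ Odd (p.2 0) ∧
      (sig p.1 p.2 : ℂ) ∈ Y) →
    (G.card : ℝ) ≤ C * (N : ℝ) ^ (((1 : ℕ) : ℝ) + 1 - η) := by
  classical
  obtain ⟨B, hB⟩ := odd_box h
  obtain ⟨η, hη, M0, hM⟩ := box 2 (max 1 B)
  refine ⟨((M0 + 2 : ℕ) : ℝ) ^ (((1 : ℕ) : ℝ) + 1 - η), η, by positivity, hη, ?_⟩
  intro N hN Y hY hYh G hG
  by_contra hcon
  push Not at hcon
  let z : ℕ × (Fin 1 → ℕ) → (Fin 2 → ℕ) := fun p => ![p.1, p.2 0]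
  have hz0 : ∀ p, z p 0 = p.1 := fun p => rfl
  have hz1 : ∀ p, z p 1 = p.2 0 := fun p => rfl
  have hzinj : Function.Injective z := by
    intro p q hpq
    refine Prod.ext ?_ ?_
    · rw [← hz0 p, ← hz0 q, hpq]
    · funext i
      rw [Subsingleton.elim i 0, ← hz1 p, ← hz1 q, hpq]
  have hcard : (G.image z).card = G.card := Finset.card_image_of_injective _ hzinj
  obtain ⟨X, hX, hXG⟩ := hM ((M0 + 2) * N) (by nlinarith) (G.image z) (by
    intro x hx i
    obtain ⟨p, hp, rfl⟩ := Finset.mem_image.1 hx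
    obtain ⟨h1, h2, -, -⟩ := hG p hp
    rw [Finset.mem_Icc] at h1
    have h3 := (Finset.mem_Icc.1 (h2 0)).2
    have h5 : (M0 + 2) * N = M0 * N + 2 * N := by ring
    have h6 : 0 ≤ M0 * N := Nat.zero_le _
    fin_cases i
    · show p.1 < _
      omega
    · show p.2 0 < _
      omega) (by
    rw [hcard]
    refine le_trans (le_of_eq ?_) hcon.le
    rw [Nat.cast_mul, Real.mul_rpow (Nat.cast_nonneg _) (Nat.cast_nonneg _)]
    norm_num)
  have hne : ∀ i, (X i).Nonempty := by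
    intro i
    rw [← Finset.card_pos, hX i]
    exact lt_of_lt_of_le (by norm_num) (le_max_left 1 B)
  have key : ∀ a ∈ X 0, ∀ b ∈ X 1, ∃ p ∈ G, p.1 = a ∧ p.2 0 = b := by
    intro a ha b hb
    have h1 : ![a, b] ∈ Fintype.piFinset X := by
      rw [Fintype.mem_piFinset]
      intro i
      fin_cases i
      · exact ha
      · exact hb
    obtain ⟨p, hp, hpz⟩ := Finset.mem_image.1 (hXG _ h1)
    refine ⟨p, hp, ?_, ?_⟩
    · rw [← hz0 p, hpz]; rfl
    · rw [← hz1 p, hpz]; rfl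
  obtain ⟨a0, ha0⟩ := hne 0
  obtain ⟨b0, hb0⟩ := hne 1
  refine hB Y hY hYh (X 0) (X 1) ?_ ?_ ?_ ?_ ?_
  · rw [hX]
    exact le_max_right _ _
  · rw [hX]
    exact le_max_right _ _
  · intro a ha
    obtain ⟨p, hp, h1, h2⟩ := key a ha b0 hb0
    rw [← h1]
    exact ⟨(Finset.mem_Icc.1 (hG p hp).1).1, (hG p hp).2.2.1⟩
  · intro b hb
    obtain ⟨p, hp, h1, h2⟩ := key a0 ha0 b hb
    rw [← h2]
    exact ⟨(Finset.mem_Icc.1 ((hG p hp).2.1 0)).1, (hG p hp).2.2.2.1⟩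
  · intro a ha b hb
    obtain ⟨p, hp, h1, h2⟩ := key a ha b hb
    have h3 := (hG p hp).2.2.2.2
    rw [sig_one, h1, h2] at h3
    exact h3

theorem unif (n h : ℕ) : ∃ C η : ℝ, 0 < η ∧ ∀ N : ℕ, 1 ≤ N →
    ∀ Y : Submodule (algebraicClosure ℚ ℂ) ℂ, Module.Finite (algebraicClosure ℚ ℂ) Y →
    Module.finrank (algebraicClosure ℚ ℂ) Y ≤ h → ∀ G : Finset (ℕ × (Fin n → ℕ)),
    (∀ p ∈ G, p.1 ∈ Finset.Icc 2 N ∧ (∀ i, p.2 i ∈ Finset.Icc 2 N) ∧ (Even p.1 ∨ n = 1) ∧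
      (sig p.1 p.2 : ℂ) ∈ Y) →
    (G.card : ℝ) ≤ C * (N : ℝ) ^ ((n : ℝ) + 1 - η) := by
  classical
  obtain ⟨C1, η1, hC1, hη1, h1⟩ := unif_even n h
  by_cases hn : n = 1
  · subst hn
    obtain ⟨C2, η2, hC2, hη2, h2⟩ := unif_odd h
    refine ⟨2 * C1 + C2, min η1 η2, lt_min hη1 hη2, ?_⟩
    intro N hN Y hY hYh G hG
    let Ge := G.filter fun p => Even p.1
    let Goe := G.filter fun p => Odd p.1 ∧ Even (p.2 0)
    let Goo := G.filter fun p => Odd p.1 ∧ Odd (p.2 0)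
    have hsub : G ⊆ Ge ∪ (Goe ∪ Goo) := by
      intro p hp
      rw [Finset.mem_union, Finset.mem_union, Finset.mem_filter, Finset.mem_filter,
        Finset.mem_filter]
      rcases Nat.even_or_odd p.1 with h3 | h3
      · exact Or.inl ⟨hp, h3⟩
      · rcases Nat.even_or_odd (p.2 0) with h4 | h4
        · exact Or.inr (Or.inl ⟨hp, h3, h4⟩)
        · exact Or.inr (Or.inr ⟨hp, h3, h4⟩)
    have hN1 : (1 : ℝ) ≤ (N : ℝ) := by exact_mod_cast hN
    have hp1 : (N : ℝ) ^ (((1 : ℕ) : ℝ) + 1 - η1) ≤ (N : ℝ) ^ (((1 : ℕ) : ℝ) + 1 - min η1 η2) :=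
      Real.rpow_le_rpow_of_exponent_le hN1 (by linarith [min_le_left η1 η2])
    have hp2 : (N : ℝ) ^ (((1 : ℕ) : ℝ) + 1 - η2) ≤ (N : ℝ) ^ (((1 : ℕ) : ℝ) + 1 - min η1 η2) :=
      Real.rpow_le_rpow_of_exponent_le hN1 (by linarith [min_le_right η1 η2])
    have e1 : (Ge.card : ℝ) ≤ C1 * (N : ℝ) ^ (((1 : ℕ) : ℝ) + 1 - η1) := by
      refine h1 N hN Y hY hYh Ge fun p hp => ?_
      rw [Finset.mem_filter] at hp
      obtain ⟨h3, h4, -, h5⟩ := hG p hp.1
      exact ⟨h3, h4, hp.2, h5⟩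
    have e2 : (Goo.card : ℝ) ≤ C2 * (N : ℝ) ^ (((1 : ℕ) : ℝ) + 1 - η2) := by
      refine h2 N hN Y hY hYh Goo fun p hp => ?_
      rw [Finset.mem_filter] at hp
      obtain ⟨h3, h4, -, h5⟩ := hG p hp.1
      exact ⟨h3, h4, hp.2.1, hp.2.2, h5⟩
    have e3 : (Goe.card : ℝ) ≤ C1 * (N : ℝ) ^ (((1 : ℕ) : ℝ) + 1 - η1) := by
      let sw : ℕ × (Fin 1 → ℕ) → ℕ × (Fin 1 → ℕ) := fun p => (p.2 0, fun _ => p.1)
      have hsw : Function.Injective sw := by
        intro p q hpq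
        have h3 : p.2 0 = q.2 0 := congrArg Prod.fst hpq
        have h4 : p.1 = q.1 := congrFun (congrArg Prod.snd hpq) 0
        refine Prod.ext h4 (funext fun i => ?_)
        rw [Subsingleton.elim i 0]
        exact h3
      rw [← Finset.card_image_of_injective Goe hsw]
      refine h1 N hN Y hY hYh (Goe.image sw) fun p hp => ?_
      obtain ⟨q, hq, rfl⟩ := Finset.mem_image.1 hp
      rw [Finset.mem_filter] at hq
      obtain ⟨h3, h4, -, h5⟩ := hG q hq.1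
      refine ⟨h4 0, fun _ => h3, hq.2.2, ?_⟩
      rw [sig_one] at h5 ⊢
      show ((mzv ![q.2 0, q.1] + mzv ![q.1, q.2 0] : ℝ) : ℂ) ∈ Y
      rw [add_comm]
      exact h5
    have e4 : (G.card : ℝ) ≤ (Ge.card : ℝ) + ((Goe.card : ℝ) + (Goo.card : ℝ)) := by
      have h3 := (Finset.card_le_card hsub).trans ((Finset.card_union_le _ _).trans
        (Nat.add_le_add_left (Finset.card_union_le _ _) _))
      exact_mod_cast h3
    have m1 := mul_le_mul_of_nonneg_left hp1 hC1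
    have m2 := mul_le_mul_of_nonneg_left hp2 hC2
    nlinarith
  · refine ⟨C1, η1, hη1, ?_⟩
    intro N hN Y hY hYh G hG
    refine h1 N hN Y hY hYh G fun p hp => ?_
    obtain ⟨h3, h4, h5, h6⟩ := hG p hp
    exact ⟨h3, h4, h5.resolve_right hn, h6⟩

end Pool.Agent.Work.MP_4d52ff_nt.R
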