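import Pool.Agent.Work.MP_4d52ff_nt.R.Unif
import Pool.Agent.Work.MP_4d52ff_nt.R.Master

/-!
MODULE Unif2 (size M).  Uniform bound with explicit exponents.

PROOF.  Even part: the pairs `(a, x) ∈ G`, `a` even, have weight `s = a + ∑ x ≤ (n+1) N =: N'`.  Let `G' s` be the
set of `x` with `(s - ∑ x, x) ∈ G`; then `#G = ∑_{s ≤ N'} #(G' s)` and by Hoelder (`pow_sum_div_card_le_sum_pow` or
`inner_le_Lp_mul_Lq`) `#G^(2^n) ≤ N'^(2^n - 1) ∑ #(G' s)^(2^n) ≤ N'^(2^n-1) C (h+1) N'^(n 2^n)` (`master_even`), so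
`#G ≤ (C (h+1))^(1/2^n) N'^(n + 1 - 1/2^n)`.
`n = 1`, both entries odd: `master_odd` in the same way.  `n = 1`, `a` odd, `x 0` even: `sig_one` symmetry as in
Unif.lean.
-/

set_option autoImplicit false

namespace Pool.Agent.Work.MP_4d52ff_nt.R

/-- power mean and extraction of the root -/
private lemma root_step (m : ℕ) (hm : 1 ≤ m) (k : ℕ) (C H : ℝ) (hC : 0 < C) (hH : 0 < H) (N : ℕ)
    (hN : 1 ≤ N) (a : ℕ → ℝ) (ha : ∀ s, 0 ≤ a s)
    (h : ∑ s ∈ Finset.Icc 1 N, a s ^ m ≤ C * H * (N : ℝ) ^ (k * m)) (x : ℝ) (hx0 : 0 ≤ x)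
    (hx : x ≤ ∑ s ∈ Finset.Icc 1 N, a s) :
    x ≤ C ^ ((1 : ℝ) / m) * H ^ ((1 : ℝ) / m) * (N : ℝ) ^ ((k : ℝ) + 1 - 1 / m) := by
  have hN0 : (0 : ℝ) < (N : ℝ) := by exact_mod_cast hN
  have hm0 : (0 : ℝ) < (m : ℝ) := by exact_mod_cast hm
  obtain ⟨m', rfl⟩ : ∃ m', m = m' + 1 := ⟨m - 1, by omega⟩
  have h1 := pow_sum_div_card_le_sum_pow (s := Finset.Icc 1 N) (f := a) (fun s _ => ha s) m'
  rw [Nat.card_Icc, Nat.add_sub_cancel, div_le_iff₀ (pow_pos hN0 _)] at h1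
  have h2 : x ^ (m' + 1) ≤ C * H * (N : ℝ) ^ (k * (m' + 1) + m') := by
    calc x ^ (m' + 1) ≤ (∑ s ∈ Finset.Icc 1 N, a s) ^ (m' + 1) := pow_le_pow_left₀ hx0 hx _
      _ ≤ (∑ s ∈ Finset.Icc 1 N, a s ^ (m' + 1)) * (N : ℝ) ^ m' := h1
      _ ≤ (C * H * (N : ℝ) ^ (k * (m' + 1))) * (N : ℝ) ^ m' :=
          mul_le_mul_of_nonneg_right h (by positivity)
      _ = C * H * (N : ℝ) ^ (k * (m' + 1) + m') := by rw [pow_add]; ring
  have h3 : x = (x ^ (m' + 1)) ^ ((1 : ℝ) / ((m' + 1 : ℕ) : ℝ)) := by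
    rw [one_div]
    exact (Real.pow_rpow_inv_natCast hx0 (Nat.succ_ne_zero _)).symm
  rw [h3]
  refine (Real.rpow_le_rpow (by positivity) h2 (by positivity)).trans (le_of_eq ?_)
  rw [Real.mul_rpow (by positivity) (by positivity), Real.mul_rpow hC.le hH.le,
    ← Real.rpow_natCast (N : ℝ), ← Real.rpow_mul hN0.le]
  congr 2
  have h4 : ((m' + 1 : ℕ) : ℝ) ≠ 0 := hm0.ne'
  field_simp
  push_cast
  ring

private lemma unif2_even (n : ℕ) : ∃ C : ℝ, 0 < C ∧ ∀ N h : ℕ, 1 ≤ N →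
    ∀ Y : Submodule (algebraicClosure ℚ ℂ) ℂ, Module.Finite (algebraicClosure ℚ ℂ) Y →
    Module.finrank (algebraicClosure ℚ ℂ) Y ≤ h → ∀ G : Finset (ℕ × (Fin n → ℕ)),
    (∀ p ∈ G, p.1 ∈ Finset.Icc 2 N ∧ (∀ i, p.2 i ∈ Finset.Icc 2 N) ∧ Even p.1 ∧
      (sig p.1 p.2 : ℂ) ∈ Y) →
    (G.card : ℝ) ≤ C * ((h : ℝ) + 1) ^ ((1 : ℝ) / 2 ^ n) * (N : ℝ) ^ ((n : ℝ) + 1 - 1 / 2 ^ n) := by
  classical
  obtain ⟨C, hC, hM⟩ := master_even n
  refine ⟨C ^ ((1 : ℝ) / 2 ^ n) * ((n : ℝ) + 1) ^ ((n : ℝ) + 1 - 1 / 2 ^ n), by positivity, ?_⟩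
  intro N h hN Y hY hYh G hG
  have hN' : 1 ≤ (n + 1) * N := Nat.one_le_iff_ne_zero.2 (by positivity)
  let G' : ℕ → Finset (Fin n → ℕ) := fun s =>
    (G.image Prod.snd).filter fun x => ∑ i, x i + 2 ≤ s ∧ (s - ∑ i, x i, x) ∈ G
  have h1 := hM ((n + 1) * N) h hN' Y hY hYh G' (by
    intro s _ x hx
    obtain ⟨hx1, hx2, hx3⟩ := Finset.mem_filter.1 hx
    obtain ⟨h3, h4, h5, h6⟩ := hG _ hx3
    exact ⟨fun i => (Finset.mem_Icc.1 (h4 i)).1, hx2, h5, h6⟩)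
  have h2 : G.card ≤ ∑ s ∈ Finset.Icc 1 ((n + 1) * N), (G' s).card := by
    rw [Finset.card_eq_sum_card_fiberwise (f := fun p : ℕ × (Fin n → ℕ) => p.1 + ∑ i, p.2 i)
      (t := Finset.Icc 1 ((n + 1) * N)) (by
        intro p hp
        obtain ⟨h3, h4, -, -⟩ := hG p hp
        rw [Finset.mem_Icc] at h3
        have h5 : ∑ i, p.2 i ≤ n * N := by
          refine (Finset.sum_le_sum fun i _ => (Finset.mem_Icc.1 (h4 i)).2).trans ?_
          simp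
        rw [Finset.mem_coe, Finset.mem_Icc]
        have h6 : (n + 1) * N = n * N + N := by ring
        constructor
        · show 1 ≤ p.1 + _
          omega
        · show p.1 + ∑ i, p.2 i ≤ _
          omega)]
    refine Finset.sum_le_sum fun s _ => ?_
    refine Finset.card_le_card_of_injOn Prod.snd ?_ ?_
    · intro p hp
      obtain ⟨hp1, hp2⟩ := Finset.mem_filter.1 (Finset.mem_coe.1 hp)
      have h3 := (Finset.mem_Icc.1 (hG p hp1).1).1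
      have hs : s - ∑ i, p.2 i = p.1 := by
        have : p.1 + ∑ i, p.2 i = s := hp2
        omega
      refine Finset.mem_coe.2 (Finset.mem_filter.2 ⟨Finset.mem_image_of_mem _ hp1, ?_, ?_⟩)
      · have : p.1 + ∑ i, p.2 i = s := hp2
        omega
      · rw [hs]
        exact hp1
    · intro p hp q hq hpq
      have hp2 : p.1 + ∑ i, p.2 i = s := (Finset.mem_filter.1 (Finset.mem_coe.1 hp)).2
      have hq2 : q.1 + ∑ i, q.2 i = s := (Finset.mem_filter.1 (Finset.mem_coe.1 hq)).2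
      have hpq' : p.2 = q.2 := hpq
      refine Prod.ext ?_ hpq'
      rw [hpq'] at hp2
      omega
  have h2' : (G.card : ℝ) ≤ ∑ s ∈ Finset.Icc 1 ((n + 1) * N), ((G' s).card : ℝ) := by
    exact_mod_cast h2
  have h3 := root_step (2 ^ n) Nat.one_le_two_pow n C ((h : ℝ) + 1) hC (by positivity)
    ((n + 1) * N) hN' (fun s => ((G' s).card : ℝ)) (fun s => Nat.cast_nonneg _) h1 (G.card : ℝ)
    (Nat.cast_nonneg _) h2'
  refine h3.trans (le_of_eq ?_)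
  push_cast
  rw [Real.mul_rpow (by positivity) (Nat.cast_nonneg _)]
  ring

private lemma unif2_odd : ∃ C : ℝ, 0 < C ∧ ∀ N h : ℕ, 1 ≤ N →
    ∀ Y : Submodule (algebraicClosure ℚ ℂ) ℂ, Module.Finite (algebraicClosure ℚ ℂ) Y →
    Module.finrank (algebraicClosure ℚ ℂ) Y ≤ h → ∀ G : Finset (ℕ × (Fin 1 → ℕ)),
    (∀ p ∈ G, p.1 ∈ Finset.Icc 2 N ∧ (∀ i, p.2 i ∈ Finset.Icc 2 N) ∧ Odd p.1 ∧ Odd (p.2 0) ∧
      (sig p.1 p.2 : ℂ) ∈ Y) →
    (G.card : ℝ) ≤ C * ((h : ℝ) + 1) ^ ((1 : ℝ) / 2 ^ 1) *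
      (N : ℝ) ^ (((1 : ℕ) : ℝ) + 1 - 1 / 2 ^ 1) := by
  classical
  obtain ⟨C, hC, hM⟩ := master_odd
  refine ⟨C ^ ((1 : ℝ) / 2 ^ 1), by positivity, ?_⟩
  intro N h hN Y hY hYh G hG
  let G' : ℕ → Finset ℕ := fun b => (G.image Prod.fst).filter fun a => (a, fun _ => b) ∈ G
  have h1 := hM N h hN Y hY hYh G' (by
    intro b _ a ha
    obtain ⟨ha1, ha2⟩ := Finset.mem_filter.1 ha
    obtain ⟨h3, h4, h5, h6, h7⟩ := hG _ ha2
    rw [Finset.mem_Icc] at h3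
    rw [sig_one] at h7
    exact ⟨h3.1, h3.2, h5, (Finset.mem_Icc.1 (h4 0)).1, h6, h7⟩)
  have h2 : G.card ≤ ∑ s ∈ Finset.Icc 1 N, (G' s).card := by
    rw [Finset.card_eq_sum_card_fiberwise (f := fun p : ℕ × (Fin 1 → ℕ) => p.2 0)
      (t := Finset.Icc 1 N) (by
        intro p hp
        obtain ⟨h3, h4, -, -⟩ := hG p hp
        have h5 := Finset.mem_Icc.1 (h4 0)
        rw [Finset.mem_coe, Finset.mem_Icc]
        exact ⟨(by norm_num : (1 : ℕ) ≤ 2).trans h5.1, h5.2⟩)]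
    refine Finset.sum_le_sum fun s _ => ?_
    refine Finset.card_le_card_of_injOn Prod.fst ?_ ?_
    · intro p hp
      obtain ⟨hp1, hp2⟩ := Finset.mem_filter.1 (Finset.mem_coe.1 hp)
      refine Finset.mem_coe.2 (Finset.mem_filter.2 ⟨Finset.mem_image_of_mem _ hp1, ?_⟩)
      have h3 : (fun _ => s : Fin 1 → ℕ) = p.2 := by
        funext i
        rw [Subsingleton.elim i 0]
        exact hp2.symm
      rw [h3]
      exact hp1
    · intro p hp q hq hpq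
      have hp2 : p.2 0 = s := (Finset.mem_filter.1 (Finset.mem_coe.1 hp)).2
      have hq2 : q.2 0 = s := (Finset.mem_filter.1 (Finset.mem_coe.1 hq)).2
      refine Prod.ext hpq (funext fun i => ?_)
      rw [Subsingleton.elim i 0, hp2, hq2]
  have h2' : (G.card : ℝ) ≤ ∑ s ∈ Finset.Icc 1 N, ((G' s).card : ℝ) := by
    exact_mod_cast h2
  have h3 := root_step (2 ^ 1) Nat.one_le_two_pow 1 C ((h : ℝ) + 1) hC (by positivity)
    N hN (fun s => ((G' s).card : ℝ)) (fun s => Nat.cast_nonneg _)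
    (by simpa using h1) (G.card : ℝ) (Nat.cast_nonneg _) h2'
  refine h3.trans (le_of_eq ?_)
  push_cast
  ring

theorem unif2 (n : ℕ) : ∃ C : ℝ, 0 < C ∧ ∀ N h : ℕ, 1 ≤ N →
    ∀ Y : Submodule (algebraicClosure ℚ ℂ) ℂ, Module.Finite (algebraicClosure ℚ ℂ) Y →
    Module.finrank (algebraicClosure ℚ ℂ) Y ≤ h → ∀ G : Finset (ℕ × (Fin n → ℕ)),
    (∀ p ∈ G, p.1 ∈ Finset.Icc 2 N ∧ (∀ i, p.2 i ∈ Finset.Icc 2 N) ∧ (Even p.1 ∨ n = 1) ∧
      (sig p.1 p.2 : ℂ) ∈ Y) →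
    (G.card : ℝ) ≤ C * ((h : ℝ) + 1) ^ ((1 : ℝ) / 2 ^ n) * (N : ℝ) ^ ((n : ℝ) + 1 - 1 / 2 ^ n) := by
  classical
  obtain ⟨C1, hC1, h1⟩ := unif2_even n
  by_cases hn : n = 1
  · subst hn
    obtain ⟨C2, hC2, h2⟩ := unif2_odd
    refine ⟨2 * C1 + C2, by positivity, ?_⟩
    intro N h hN Y hY hYh G hG
    let Ge := G.filter fun p => Even p.1
    let Goe := G.filter fun p => Odd p.1 ∧ Even (p.2 0)
    let Goo := G.filter fun p => Odd p.1 ∧ Odd (p.2 0)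
    have hsub : G ⊆ Ge ∪ (Goe ∪ Goo) := by
      intro p hp
      rw [Finset.mem_union, Finset.mem_union, Finset.mem_filter, Finset.mem_filter,
        Finset.mem_filter]
      rcases Nat.even_or_odd p.1 with h3 | h3
      · exact Or.inl ⟨hp, h3⟩
      · rcases Nat.even_or_odd (p.2 0) with h4 | h4
        · exact Or.inr (Or.inl ⟨hp, h3, h4⟩)
        · exact Or.inr (Or.inr ⟨hp, h3, h4⟩)
    set R : ℝ := ((h : ℝ) + 1) ^ ((1 : ℝ) / 2 ^ 1) * (N : ℝ) ^ (((1 : ℕ) : ℝ) + 1 - 1 / 2 ^ 1)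
      with hR
    have e1 : (Ge.card : ℝ) ≤ C1 * R := by
      rw [hR, ← mul_assoc]
      refine h1 N h hN Y hY hYh Ge fun p hp => ?_
      rw [Finset.mem_filter] at hp
      obtain ⟨h3, h4, -, h5⟩ := hG p hp.1
      exact ⟨h3, h4, hp.2, h5⟩
    have e2 : (Goo.card : ℝ) ≤ C2 * R := by
      rw [hR, ← mul_assoc]
      refine h2 N h hN Y hY hYh Goo fun p hp => ?_
      rw [Finset.mem_filter] at hp
      obtain ⟨h3, h4, -, h5⟩ := hG p hp.1
      exact ⟨h3, h4, hp.2.1, hp.2.2, h5⟩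
    have e3 : (Goe.card : ℝ) ≤ C1 * R := by
      let sw : ℕ × (Fin 1 → ℕ) → ℕ × (Fin 1 → ℕ) := fun p => (p.2 0, fun _ => p.1)
      have hsw : Function.Injective sw := by
        intro p q hpq
        have h3 : p.2 0 = q.2 0 := congrArg Prod.fst hpq
        have h4 : p.1 = q.1 := congrFun (congrArg Prod.snd hpq) 0
        refine Prod.ext h4 (funext fun i => ?_)
        rw [Subsingleton.elim i 0]
        exact h3
      rw [← Finset.card_image_of_injective Goe hsw, hR, ← mul_assoc]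
      refine h1 N h hN Y hY hYh (Goe.image sw) fun p hp => ?_
      obtain ⟨q, hq, rfl⟩ := Finset.mem_image.1 hp
      rw [Finset.mem_filter] at hq
      obtain ⟨h3, h4, -, h5⟩ := hG q hq.1
      refine ⟨h4 0, fun _ => h3, hq.2.2, ?_⟩
      rw [sig_one] at h5 ⊢
      show ((mzv ![q.2 0, q.1] + mzv ![q.1, q.2 0] : ℝ) : ℂ) ∈ Y
      rw [add_comm]
      exact h5
    have e4 : (G.card : ℝ) ≤ (Ge.card : ℝ) + ((Goe.card : ℝ) + (Goo.card : ℝ)) := by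
      have h3 := (Finset.card_le_card hsub).trans ((Finset.card_union_le _ _).trans
        (Nat.add_le_add_left (Finset.card_union_le _ _) _))
      exact_mod_cast h3
    rw [mul_assoc, ← hR]
    have e5 : (2 * C1 + C2) * R = C1 * R + (C1 * R + C2 * R) := by ring
    rw [e5]
    exact e4.trans (add_le_add e1 (add_le_add e3 e2))
  · refine ⟨C1, hC1, ?_⟩
    intro N h hN Y hY hYh G hG
    refine h1 N h hN Y hY hYh G fun p hp => ?_
    obtain ⟨h3, h4, h5, h6⟩ := hG p hp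
    exact ⟨h3, h4, h5.resolve_right hn, h6⟩

end Pool.Agent.Work.MP_4d52ff_nt.R
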